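import Pool.Agent.R209.CMDefs

/-!
# Elementary functions are bounded by iterated exponentials
-/

namespace R209.CM

/-- Iterated exponential. -/
def E : ℕ → ℕ → ℕ
  | 0, x => x
  | k + 1, x => 2 ^ E k x

theorem le_E (k x : ℕ) : x + k ≤ E k x := by
  induction k with
  | zero => simp [E]
  | succ k ih =>
    have := Nat.lt_two_pow_self (n := E k x)
    simp only [E]
    omega

theorem E_mono (k : ℕ) {x y : ℕ} (h : x ≤ y) : E k x ≤ E k y := by
  induction k with
  | zero => simpa [E] using h
  | succ k ih => exact Nat.pow_le_pow_right (by norm_num) ih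

theorem E_strict (k : ℕ) {x y : ℕ} (h : x < y) : E k x < E k y := by
  induction k with
  | zero => simpa [E] using h
  | succ k ih => exact Nat.pow_lt_pow_right (by norm_num) ih

theorem E_add (j k x : ℕ) : E (j + k) x = E j (E k x) := by
  induction j with
  | zero => simp [E]
  | succ j ih =>
    rw [Nat.succ_add]
    simp only [E, ih]

theorem E_le_E {j k : ℕ} (h : j ≤ k) (x : ℕ) : E j x ≤ E k x := by
  obtain ⟨d, rfl⟩ := Nat.exists_eq_add_of_le h
  rw [Nat.add_comm, E_add]
  exact le_trans (Nat.le_add_right _ _) (le_E d _)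

theorem le_two_pow (x : ℕ) : x ≤ 2 ^ x := Nat.lt_two_pow_self.le

theorem mul_self_le (y : ℕ) : y * y ≤ E 2 y := by
  simp only [E]
  calc y * y ≤ 2 ^ y * 2 ^ y := Nat.mul_le_mul (le_two_pow y) (le_two_pow y)
    _ = 2 ^ (2 * y) := by rw [← pow_add]; congr 1; ring
    _ ≤ 2 ^ (2 ^ y) := by
        apply Nat.pow_le_pow_right (by norm_num)
        rcases y with _ | _ | _ | y
        · norm_num
        · norm_num
        · norm_num
        · have := Nat.lt_two_pow_self (n := y)
          rw [pow_succ, pow_succ, pow_succ]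
          omega

theorem pow_self_le (y : ℕ) : y ^ y ≤ E 3 y := by
  calc y ^ y ≤ (2 ^ y) ^ y := Nat.pow_le_pow_left (le_two_pow y) y
    _ = 2 ^ (y * y) := by rw [← pow_mul]
    _ ≤ 2 ^ (E 2 y) := Nat.pow_le_pow_right (by norm_num) (mul_self_le y)
    _ = E 3 y := rfl

theorem Elem.bound {k : ℕ} {f : (Fin k → ℕ) → ℕ} (h : Elem k f) :
    ∃ j, ∀ x, f x ≤ E j (∑ i, x i + 2) := by
  induction h with
  | zero k => exact ⟨0, fun x => Nat.zero_le _⟩
  | succ => exact ⟨0, fun x => by simp [E]⟩
  | proj k i =>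
    refine ⟨0, fun x => ?_⟩
    have := Finset.single_le_sum (f := x) (fun i _ => Nat.zero_le _) (Finset.mem_univ i)
    simp only [E]
    omega
  | add => exact ⟨0, fun x => by simp [E, Fin.sum_univ_two]⟩
  | sub => exact ⟨0, fun x => by simp [E, Fin.sum_univ_two]; omega⟩
  | comp k l f g _ _ ihf ihg =>
    obtain ⟨j, hj⟩ := ihf
    choose jj hjj using ihg
    let J := Finset.univ.sup jj
    refine ⟨j + (2 + (k + J + 1)), fun x => ?_⟩
    set s := ∑ i, x i + 2 with hs
    rw [E_add, E_add]
    refine le_trans (hj _) (E_mono j ?_)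
    have h1 : ∀ i, g i x ≤ E J s := fun i =>
      le_trans (hjj i x) (E_le_E (Finset.le_sup (f := jj) (Finset.mem_univ i)) s)
    have h2 : ∑ i, g i x ≤ k * E J s := by
      calc ∑ i, g i x ≤ ∑ _i : Fin k, E J s := Finset.sum_le_sum fun i _ => h1 i
        _ = k * E J s := by simp
    set z := E (k + J + 1) s with hz
    have hz1 : E J s ≤ z := E_le_E (by omega) s
    have hz2 : k + 2 ≤ z := by
      have := le_E (k + J + 1) s
      omega
    have h3 : k * E J s + 2 ≤ z * z := by
      have h4 : k * E J s ≤ k * z := Nat.mul_le_mul_left k hz1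
      have h5 : (k + 2) * z ≤ z * z := Nat.mul_le_mul_right z hz2
      have h6 : (k + 2) * z = k * z + 2 * z := by ring
      omega
    exact le_trans (by omega) (le_trans h3 (mul_self_le z))
  | bsum k f _ ih =>
    obtain ⟨j, hj⟩ := ih
    refine ⟨2 + j, fun x => ?_⟩
    rw [E_add]
    set s := ∑ i, x i + 2 with hs
    have hx : ∑ i, x i = x 0 + ∑ i, Fin.tail x i := by
      rw [Fin.sum_univ_succ]; rfl
    have h1 : ∀ i ∈ Finset.range (x 0), f (Fin.cons i (Fin.tail x)) ≤ E j s := by
      intro i hi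
      have hi' := Finset.mem_range.mp hi
      refine le_trans (hj _) (E_mono j ?_)
      rw [Fin.sum_cons]
      omega
    have h2 := Finset.sum_le_sum h1
    rw [Finset.sum_const, Finset.card_range, smul_eq_mul] at h2
    have h3 : x 0 ≤ E j s := by
      have := le_E j s
      omega
    exact le_trans h2 (le_trans (Nat.mul_le_mul_right _ h3) (mul_self_le _))
  | bprod k f _ ih =>
    obtain ⟨j, hj⟩ := ih
    refine ⟨3 + j, fun x => ?_⟩
    rw [E_add]
    set s := ∑ i, x i + 2 with hs
    have hx : ∑ i, x i = x 0 + ∑ i, Fin.tail x i := by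
      rw [Fin.sum_univ_succ]; rfl
    have h1 : ∀ i ∈ Finset.range (x 0), f (Fin.cons i (Fin.tail x)) ≤ E j s := by
      intro i hi
      have hi' := Finset.mem_range.mp hi
      refine le_trans (hj _) (E_mono j ?_)
      rw [Fin.sum_cons]
      omega
    have h2 := Finset.prod_le_prod' h1
    rw [Finset.prod_const, Finset.card_range] at h2
    have h3 : x 0 ≤ E j s := by
      have := le_E j s
      omega
    have h4 : 1 ≤ E j s := by
      have := le_E j s
      omega
    exact le_trans h2 (le_trans (Nat.pow_le_pow_right h4 h3) (pow_self_le _))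

/-- Elementary functions of one argument are bounded by an iterated exponential. -/
theorem Elementary.bound {f : ℕ → ℕ} (h : Elementary f) : ∃ j, ∀ x, f x ≤ E j (x + 2) := by
  obtain ⟨j, hj⟩ := Elem.bound h
  refine ⟨j, fun x => ?_⟩
  simpa using hj (fun _ => x)

/-- The tower function. -/
def tw (h : ℕ) : ℕ := E h 1

theorem tw_succ (h : ℕ) : tw (h + 1) = 2 ^ tw h := rfl

theorem tw_add (j k : ℕ) : tw (j + k) = E j (tw k) := E_add j k 1

theorem lin_lt_two_pow (j : ℕ) : 3 * (j + 4) + 4 < 2 ^ (j + 5) := by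
  induction j with
  | zero => norm_num
  | succ j ih =>
    rw [show j + 1 + 5 = (j + 5) + 1 by ring, pow_succ]
    omega

/-- The tower function beats every exponential. -/
theorem exists_tw (c : ℕ) : ∃ j, c * 4 ^ j < tw j := by
  have hc := Nat.lt_two_pow_self (n := c)
  refine ⟨(c + 4) + 2, ?_⟩
  have h1 : c + 4 + 1 ≤ tw (c + 4) := by
    have := le_E (c + 4) 1
    unfold tw
    omega
  have h2 : 2 ^ (c + 5) ≤ tw (c + 4 + 1) := by
    rw [tw_succ]
    exact Nat.pow_le_pow_right (by norm_num) h1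
  calc c * 4 ^ (c + 4 + 2) < 2 ^ c * 4 ^ (c + 4 + 2) :=
        Nat.mul_lt_mul_of_pos_right hc (by positivity)
    _ = 2 ^ (3 * (c + 4)) := by
        rw [show (4 : ℕ) = 2 ^ 2 by norm_num, ← pow_mul, ← pow_add]
        congr 1
        ring
    _ ≤ 2 ^ (2 ^ (c + 5)) := by
        apply Nat.pow_le_pow_right (by norm_num)
        have := lin_lt_two_pow c
        omega
    _ ≤ 2 ^ tw (c + 4 + 1) := Nat.pow_le_pow_right (by norm_num) h2
    _ = tw (c + 4 + 2) := rfl

/-- Towers beat iterated exponentials of exponentials. -/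
theorem exists_tower (k c : ℕ) : ∃ h, E k (c * 4 ^ h) < tw h := by
  obtain ⟨j, hj⟩ := exists_tw (c * 4 ^ k)
  refine ⟨k + j, ?_⟩
  rw [tw_add]
  apply E_strict
  calc c * 4 ^ (k + j) = c * 4 ^ k * 4 ^ j := by rw [pow_add]; ring
    _ < tw j := hj

end R209.CM
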