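import Pool.Agent.R209.CMBound

/-!
# Covers by periodic patterns and the lengths `T h`
-/

namespace R209.CM

/-- Some set `B` agrees with every `t`-periodic set on a window of length `t` inside
`[0, L)`. -/
def Cover (t L : ℕ) : Prop :=
  ∃ B : ℕ → Prop, ∀ X : ℕ → Prop, (∀ i, X i ↔ X (i + t)) →
    ∃ r, r + t ≤ L ∧ ∀ s, r ≤ s → s < r + t → (B s ↔ X s)

theorem Cover.mono {t L L' : ℕ} (h : Cover t L) (hL : L ≤ L') : Cover t L' := by
  obtain ⟨B, hB⟩ := h
  refine ⟨B, fun X hX => ?_⟩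
  obtain ⟨r, hr, hs⟩ := hB X hX
  exact ⟨r, by omega, hs⟩

theorem per_mul {t a : ℕ} {X : ℕ → Prop} (hX : ∀ i, i + t ≤ a → (X i ↔ X (i + t))) (k : ℕ) :
    ∀ i, i + t * k ≤ a → (X i ↔ X (i + t * k)) := by
  induction k with
  | zero => intro i _; simp
  | succ k ih =>
    intro i hi
    have e : i + t * (k + 1) = i + t * k + t := by ring
    rw [e] at hi ⊢
    rw [ih i (by omega)]
    exact hX _ hi

theorem cover_exists (t : ℕ) (ht : 0 < t) : Cover t (t * 2 ^ t) := by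
  classical
  refine ⟨fun s => Nat.testBit (s / t) (s % t) = true, fun X hX => ?_⟩
  let f : Fin t → Bool := fun i => decide (X i)
  refine ⟨t * Nat.ofBits f, ?_, ?_⟩
  · have h1 : Nat.ofBits f < 2 ^ t := Nat.ofBits_lt_two_pow f
    calc t * Nat.ofBits f + t = t * (Nat.ofBits f + 1) := by ring
      _ ≤ t * 2 ^ t := Nat.mul_le_mul_left t h1
  · intro s h1 h2
    obtain ⟨i, rfl⟩ := Nat.exists_eq_add_of_le h1
    have hi : i < t := by omega
    have h3 : (t * Nat.ofBits f + i) / t = Nat.ofBits f := by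
      rw [Nat.mul_add_div ht, Nat.div_eq_of_lt hi, Nat.add_zero]
    have h4 : (t * Nat.ofBits f + i) % t = i := by
      rw [Nat.mul_add_mod, Nat.mod_eq_of_lt hi]
    show Nat.testBit ((t * Nat.ofBits f + i) / t) ((t * Nat.ofBits f + i) % t) = true ↔
      X (t * Nat.ofBits f + i)
    rw [h3, h4, Nat.testBit_ofBits_lt f i hi]
    have h5 : X i ↔ X (i + t * Nat.ofBits f) :=
      per_mul (a := i + t * Nat.ofBits f) (fun j _ => hX j) _ i le_rfl
    rw [Nat.add_comm (t * Nat.ofBits f) i, ← h5]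
    simp [f]

theorem cover_lower {t L : ℕ} (ht : 0 < t) (h : Cover t L) : 2 ^ t ≤ L := by
  classical
  obtain ⟨B, hB⟩ := h
  have key : ∀ f : Fin t → Bool, ∃ r, r + t ≤ L ∧
      ∀ s, r ≤ s → s < r + t → (B s ↔ f ⟨s % t, Nat.mod_lt s ht⟩ = true) := by
    intro f
    exact hB (fun i => f ⟨i % t, Nat.mod_lt i ht⟩ = true) (fun i => by simp)
  choose r hr1 hr2 using key
  have hinj : Function.Injective (fun f => (⟨r f, by have := hr1 f; omega⟩ : Fin L)) := by
    intro f g hfg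
    have hfg' : r f = r g := by simpa using hfg
    funext ⟨i, hi⟩
    have hle : r f ≤ t * r f := Nat.le_mul_of_pos_left _ ht
    let s := r f + (i + (t * r f - r f)) % t
    have hs1 : r f ≤ s := Nat.le_add_right _ _
    have hs2 : s < r f + t := Nat.add_lt_add_left (Nat.mod_lt _ ht) _
    have hs3 : s % t = i := by
      simp only [s]
      rw [Nat.add_mod_mod]
      have : r f + (i + (t * r f - r f)) = i + t * r f := by omega
      rw [this, Nat.add_mul_mod_self_left, Nat.mod_eq_of_lt hi]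
    have h1 := hr2 f s hs1 hs2
    have h2 := hr2 g s (hfg' ▸ hs1) (hfg' ▸ hs2)
    have h3 : (⟨s % t, Nat.mod_lt s ht⟩ : Fin t) = ⟨i, hi⟩ := by
      apply Fin.ext
      exact hs3
    rw [h3] at h1 h2
    rw [Bool.eq_iff_iff, ← h1, ← h2]
  have := Fintype.card_le_of_injective _ hinj
  simpa using this

/-- The non elementary lengths. -/
noncomputable def T : ℕ → ℕ
  | 0 => 1
  | h + 1 => sInf {L | Cover (T h) L}

theorem T_pos_cover (h : ℕ) : 0 < T h ∧ Cover (T h) (T (h + 1)) ∧ 2 ^ T h ≤ T (h + 1) := by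
  have step : ∀ h, 0 < T h → Cover (T h) (T (h + 1)) ∧ 2 ^ T h ≤ T (h + 1) := by
    intro h hp
    have h1 : Cover (T h) (T (h + 1)) :=
      Nat.sInf_mem (s := {L | Cover (T h) L}) ⟨_, cover_exists _ hp⟩
    exact ⟨h1, cover_lower hp h1⟩
  have pos : ∀ h, 0 < T h := by
    intro h
    induction h with
    | zero => simp [T]
    | succ h ih =>
      have := (step h ih).2
      have h2 := Nat.one_le_two_pow (n := T h)
      omega
  exact ⟨pos h, step h (pos h)⟩

theorem T_pos (h : ℕ) : 0 < T h := (T_pos_cover h).1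

theorem T_cover (h : ℕ) : Cover (T h) (T (h + 1)) := (T_pos_cover h).2.1

theorem T_le {h L : ℕ} (hc : Cover (T h) L) : T (h + 1) ≤ L := Nat.sInf_le hc

theorem tw_le_T (h : ℕ) : tw h ≤ T h := by
  induction h with
  | zero => simp [tw, E, T]
  | succ h ih =>
    rw [tw_succ]
    exact le_trans (Nat.pow_le_pow_right (by norm_num) ih) (T_pos_cover h).2.2

theorem cover_iff {t a p q : ℕ} (ht : 0 < t) (hq : q ≤ a) :
    (∃ B : ℕ → Prop, ∀ X : ℕ → Prop, (∀ i, i + t ≤ a → (X i ↔ X (i + t))) →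
      ∃ r, p ≤ r ∧ r + t ≤ q ∧ ∀ s, r ≤ s → s < r + t → (B s ↔ X s)) ↔
    (p ≤ q ∧ Cover t (q - p)) := by
  constructor
  · rintro ⟨B, hB⟩
    have hpq : p ≤ q := by
      obtain ⟨r, h1, h2, _⟩ := hB (fun _ => False) (fun _ _ => Iff.rfl)
      omega
    refine ⟨hpq, fun s => B (p + s), fun X hX => ?_⟩
    obtain ⟨t', rfl⟩ : ∃ t', t = t' + 1 := ⟨t - 1, by omega⟩
    obtain ⟨r, h1, h2, h3⟩ := hB (fun i => X (i + p * t')) (fun i _ => by
      have := hX (i + p * t')
      rw [this]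
      have e : i + p * t' + (t' + 1) = i + (t' + 1) + p * t' := by ring
      rw [e])
    refine ⟨r - p, by omega, fun s hs1 hs2 => ?_⟩
    show B (p + s) ↔ X s
    rw [h3 (p + s) (by omega) (by omega)]
    have h5 : X s ↔ X (s + (t' + 1) * p) :=
      per_mul (a := s + (t' + 1) * p) (fun j _ => hX j) _ s le_rfl
    rw [h5]
    have e : p + s + p * t' = s + (t' + 1) * p := by ring
    rw [e]
  · rintro ⟨hpq, B, hB⟩
    refine ⟨fun s => B (s - p), fun X hX => ?_⟩
    obtain ⟨r, h1, h2⟩ := hB (fun i => X (p + i % t)) (fun i => by simp)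
    refine ⟨p + r, by omega, by omega, fun s hs1 hs2 => ?_⟩
    show B (s - p) ↔ X s
    rw [h2 (s - p) (by omega) (by omega)]
    have h5 := per_mul hX ((s - p) / t) (p + (s - p) % t) (by
      have := Nat.mod_add_div (s - p) t
      omega)
    rw [h5]
    have e : p + (s - p) % t + t * ((s - p) / t) = s := by
      have := Nat.mod_add_div (s - p) t
      omega
    rw [e]

/-- The set version, for a rank function `ρ` onto `{0, ..., a}`. -/
theorem cover_sets {A : Type} {ρ : A → ℕ} {a t P Q : ℕ} (ha : ∀ y, ρ y ≤ a)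
    (hs : ∀ i, i ≤ a → ∃ y, ρ y = i) (ht : 0 < t) (hQ : Q ≤ a) :
    (∃ B : Set A, ∀ X : Set A,
      (∀ u w, ρ w = ρ u + t → ((∃ z ∈ X, ρ z = ρ u) ↔ ∃ z ∈ X, ρ z = ρ w)) →
      ∃ r r', P ≤ ρ r ∧ ρ r' = ρ r + t ∧ ρ r' ≤ Q ∧
        ∀ s, ρ r ≤ ρ s → ρ s < ρ r' → ((∃ z ∈ B, ρ z = ρ s) ↔ ∃ z ∈ X, ρ z = ρ s)) ↔
    (P ≤ Q ∧ Cover t (Q - P)) := by
  have aux : ∀ (B : ℕ → Prop) (u : A), (∃ z ∈ {z : A | B (ρ z)}, ρ z = ρ u) ↔ B (ρ u) := by
    intro B u
    constructor
    · rintro ⟨z, hz, h⟩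
      rw [← h]
      exact hz
    · intro h
      exact ⟨u, h, rfl⟩
  rw [← cover_iff ht hQ]
  constructor
  · rintro ⟨B, hB⟩
    refine ⟨fun i => ∃ z ∈ B, ρ z = i, fun X hX => ?_⟩
    obtain ⟨r, r', h1, h2, h3, h4⟩ := hB {z | X (ρ z)} (fun u w huw => by
      rw [aux X u, aux X w, huw]
      exact hX _ (by rw [← huw]; exact ha w))
    refine ⟨ρ r, h1, by omega, fun s hs1 hs2 => ?_⟩
    obtain ⟨y, hy⟩ := hs s (by omega)
    have := h4 y (by omega) (by omega)
    rw [aux X y, hy] at this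
    exact this
  · rintro ⟨B, hB⟩
    refine ⟨{z | B (ρ z)}, fun X hX => ?_⟩
    obtain ⟨r, h1, h2, h3⟩ := hB (fun i => ∃ z ∈ X, ρ z = i) (fun i hi => by
      obtain ⟨u, hu⟩ := hs i (by omega)
      obtain ⟨w, hw⟩ := hs (i + t) hi
      have := hX u w (by omega)
      rw [hu, hw] at this
      exact this)
    obtain ⟨y, hy⟩ := hs r (by omega)
    obtain ⟨y', hy'⟩ := hs (r + t) (by omega)
    refine ⟨y, y', by omega, by omega, by omega, fun s hs1 hs2 => ?_⟩
    rw [aux B s]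
    exact h3 (ρ s) (by omega) (by omega)

end R209.CM
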