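import Mathlib

/-!
# Counting monadic second order logic: definitions

Formulas of CMSOL over a vocabulary of constants, unary and binary relation symbols,
their truth, their length, the counting sequence of a sentence, and the Kalmar elementary
functions.
-/

namespace R209.CM

/-- A finite vocabulary: numbers of constant, unary relation and binary relation symbols. -/
structure Voc where
  c : ℕ
  u : ℕ
  b : ℕ

/-- Individual terms: variables `x_i` and constant symbols. -/
inductive Tm (τ : Voc) : Type
  | var : ℕ → Tm τ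
  | con : Fin τ.c → Tm τ

/-- Formulas of CMSOL over the vocabulary `τ`.  `cnt k q i φ` is the modular counting
quantifier `C_{k,q+1} x_i φ`: the number of `x_i` with `φ` is congruent to `k`
modulo `q + 1`. -/
inductive Fm (τ : Voc) : Type
  | eq : Tm τ → Tm τ → Fm τ
  | un : Fin τ.u → Tm τ → Fm τ
  | bin : Fin τ.b → Tm τ → Tm τ → Fm τ
  | mem : Tm τ → ℕ → Fm τ
  | neg : Fm τ → Fm τ
  | and : Fm τ → Fm τ → Fm τ
  | all : ℕ → Fm τ → Fm τ
  | allS : ℕ → Fm τ → Fm τ
  | cnt : ℕ → ℕ → ℕ → Fm τ → Fm τ

/-- A structure with universe `A`. -/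
@[ext] structure Str (τ : Voc) (A : Type) where
  con : Fin τ.c → A
  un : Fin τ.u → A → Prop
  bin : Fin τ.b → A → A → Prop

variable {τ : Voc} {A : Type}

/-- The value of a term. -/
def Tm.val (M : Str τ A) (v : ℕ → A) : Tm τ → A
  | .var i => v i
  | .con c => M.con c

/-- Truth of a formula under an assignment `v` of elements to the individual variables and
`V` of sets to the set variables. -/
def Sat (M : Str τ A) : (ℕ → A) → (ℕ → Set A) → Fm τ → Prop
  | v, _, .eq s t => s.val M v = t.val M v
  | v, _, .un P t => M.un P (t.val M v)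
  | v, _, .bin P s t => M.bin P (s.val M v) (t.val M v)
  | v, V, .mem t X => t.val M v ∈ V X
  | v, V, .neg φ => ¬ Sat M v V φ
  | v, V, .and φ ψ => Sat M v V φ ∧ Sat M v V ψ
  | v, V, .all i φ => ∀ a : A, Sat M (Function.update v i a) V φ
  | v, V, .allS i φ => ∀ S : Set A, Sat M v (Function.update V i S) φ
  | v, V, .cnt k q i φ => Nat.card {a : A // Sat M (Function.update v i a) V φ} ≡ k [MOD (q + 1)]

/-- The variables of the term belong to `E`. -/
def Tm.Scoped (E : Set ℕ) : Tm τ → Prop
  | .var i => i ∈ E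
  | .con _ => True

/-- All free individual variables of the formula belong to `E`, and all its free set
variables belong to `F`. -/
def Fm.Scoped : Set ℕ → Set ℕ → Fm τ → Prop
  | E, _, .eq s t => s.Scoped E ∧ t.Scoped E
  | E, _, .un _ t => t.Scoped E
  | E, _, .bin _ s t => s.Scoped E ∧ t.Scoped E
  | E, F, .mem t X => t.Scoped E ∧ X ∈ F
  | E, F, .neg φ => φ.Scoped E F
  | E, F, .and φ ψ => φ.Scoped E F ∧ ψ.Scoped E F
  | E, F, .all i φ => φ.Scoped (insert i E) F
  | E, F, .allS i φ => φ.Scoped E (insert i F)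
  | E, F, .cnt _ _ i φ => φ.Scoped (insert i E) F

/-- A sentence is a formula without free variables. -/
def Fm.Sentence (φ : Fm τ) : Prop := φ.Scoped ∅ ∅

/-- A formula of plain monadic second order logic: no counting quantifier. -/
def Fm.Plain : Fm τ → Prop
  | .eq _ _ => True
  | .un _ _ => True
  | .bin _ _ _ => True
  | .mem _ _ => True
  | .neg φ => φ.Plain
  | .and φ ψ => φ.Plain ∧ ψ.Plain
  | .all _ φ => φ.Plain
  | .allS _ φ => φ.Plain
  | .cnt _ _ _ _ => False

/-- Length of a term: an indexed symbol with index `i` is charged `i + 1`. -/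
def Tm.len : Tm τ → ℕ
  | .var i => i + 1
  | .con c => c + 1

/-- Length of a formula: an indexed symbol with index `i` is charged `i + 1`, the numbers
`k, q` of a counting quantifier are charged in unary, and every node of the formula is
charged another `4` for logical symbols, brackets and commas. -/
def Fm.len : Fm τ → ℕ
  | .eq s t => s.len + t.len + 4
  | .un P t => P + 1 + t.len + 4
  | .bin P s t => P + 1 + s.len + t.len + 4
  | .mem t X => t.len + (X + 1) + 4
  | .neg φ => φ.len + 4
  | .and φ ψ => φ.len + ψ.len + 4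
  | .all i φ => i + 1 + φ.len + 4
  | .allS i φ => i + 1 + φ.len + 4
  | .cnt k q i φ => k + (q + 1) + (i + 1) + φ.len + 4

/-- `M` is a model of the sentence `φ`. -/
def Models (M : Str τ A) (φ : Fm τ) : Prop := ∀ v V, Sat M v V φ

/-- The counting sequence: the number of structures with universe `Fin n` in which the
sentence `φ` is true. -/
noncomputable def S (φ : Fm τ) (n : ℕ) : ℕ := Nat.card {M : Str τ (Fin n) // Models M φ}

/-- The sequence `s` satisfies a linear recurrence modulo `m` with constants `r, p`: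
there are integers `α_0, ..., α_p` with `s(n+p+1) = Σ_{i ≤ p} α_i s(n+i)` modulo `m`
for all `n ≥ r`. -/
def Recur (s : ℕ → ℕ) (m r p : ℕ) : Prop :=
  ∃ α : ℕ → ℤ, ∀ n, r ≤ n →
    (s (n + p + 1) : ℤ) ≡ ∑ i ∈ Finset.range (p + 1), α i * (s (n + i) : ℤ) [ZMOD (m : ℤ)]

/-- The Kalmar elementary functions of `k` arguments: generated from zero, successor,
projections, addition and truncated subtraction by composition, bounded sums and bounded
products. -/
inductive Elem : (k : ℕ) → ((Fin k → ℕ) → ℕ) → Prop
  | zero (k : ℕ) : Elem k (fun _ => 0)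
  | succ : Elem 1 (fun x => x 0 + 1)
  | proj (k : ℕ) (i : Fin k) : Elem k (fun x => x i)
  | add : Elem 2 (fun x => x 0 + x 1)
  | sub : Elem 2 (fun x => x 0 - x 1)
  | comp (k l : ℕ) (f : (Fin k → ℕ) → ℕ) (g : Fin k → (Fin l → ℕ) → ℕ) :
      Elem k f → (∀ i, Elem l (g i)) → Elem l (fun x => f (fun i => g i x))
  | bsum (k : ℕ) (f : (Fin (k + 1) → ℕ) → ℕ) : Elem (k + 1) f →
      Elem (k + 1) (fun x => ∑ i ∈ Finset.range (x 0), f (Fin.cons i (Fin.tail x)))
  | bprod (k : ℕ) (f : (Fin (k + 1) → ℕ) → ℕ) : Elem (k + 1) f →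
      Elem (k + 1) (fun x => ∏ i ∈ Finset.range (x 0), f (Fin.cons i (Fin.tail x)))

/-- A Kalmar elementary function of one argument. -/
def Elementary (f : ℕ → ℕ) : Prop := Elem 1 (fun x => f (x 0))

end R209.CM
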