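import Pool.Agent.R209.CMCover

/-!
# Formulas for modules and for the lengths `T h`
-/

namespace R209.CM

/-- The vocabulary with one binary relation symbol. -/
abbrev gr : Voc := ⟨0, 0, 1⟩

variable {A : Type}

def Fm.imp (φ ψ : Fm gr) : Fm gr := .neg (.and φ (.neg ψ))
def Fm.or (φ ψ : Fm gr) : Fm gr := .neg (.and (.neg φ) (.neg ψ))
def Fm.iff (φ ψ : Fm gr) : Fm gr := .and (φ.imp ψ) (ψ.imp φ)
def Fm.ex (i : ℕ) (φ : Fm gr) : Fm gr := .neg (.all i (.neg φ))
def Fm.exS (i : ℕ) (φ : Fm gr) : Fm gr := .neg (.allS i (.neg φ))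
/-- `R x_i x_j` -/
def rel (i j : ℕ) : Fm gr := .bin 0 (.var i) (.var j)
/-- `x_i ∈ X_j` -/
def inn (i j : ℕ) : Fm gr := .mem (.var i) j
/-- `x_i = x_j` -/
def eqq (i j : ℕ) : Fm gr := .eq (.var i) (.var j)

variable {M : Str gr A} {v : ℕ → A} {V : ℕ → Set A}

@[simp] theorem sat_neg (φ : Fm gr) : Sat M v V (.neg φ) ↔ ¬ Sat M v V φ := Iff.rfl
@[simp] theorem sat_and (φ ψ : Fm gr) : Sat M v V (.and φ ψ) ↔ (Sat M v V φ ∧ Sat M v V ψ) :=
  Iff.rfl
@[simp] theorem sat_all (i : ℕ) (φ : Fm gr) :
    Sat M v V (.all i φ) ↔ ∀ a : A, Sat M (Function.update v i a) V φ := Iff.rfl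
@[simp] theorem sat_allS (i : ℕ) (φ : Fm gr) :
    Sat M v V (.allS i φ) ↔ ∀ X : Set A, Sat M v (Function.update V i X) φ := Iff.rfl
@[simp] theorem sat_imp (φ ψ : Fm gr) : Sat M v V (φ.imp ψ) ↔ (Sat M v V φ → Sat M v V ψ) := by
  simp only [Fm.imp, sat_neg, sat_and]
  tauto
@[simp] theorem sat_or (φ ψ : Fm gr) : Sat M v V (φ.or ψ) ↔ (Sat M v V φ ∨ Sat M v V ψ) := by
  simp only [Fm.or, sat_neg, sat_and]
  tauto
@[simp] theorem sat_iff (φ ψ : Fm gr) : Sat M v V (φ.iff ψ) ↔ (Sat M v V φ ↔ Sat M v V ψ) := by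
  simp only [Fm.iff, sat_imp, sat_and]
  tauto
@[simp] theorem sat_ex (i : ℕ) (φ : Fm gr) :
    Sat M v V (.ex i φ) ↔ ∃ a : A, Sat M (Function.update v i a) V φ := by
  simp only [Fm.ex, sat_neg, sat_all]
  push Not
  rfl
@[simp] theorem sat_exS (i : ℕ) (φ : Fm gr) :
    Sat M v V (.exS i φ) ↔ ∃ X : Set A, Sat M v (Function.update V i X) φ := by
  simp only [Fm.exS, sat_neg, sat_allS]
  push Not
  rfl
@[simp] theorem sat_rel (i j : ℕ) : Sat M v V (rel i j) ↔ M.bin 0 (v i) (v j) := Iff.rfl
@[simp] theorem sat_inn (i j : ℕ) : Sat M v V (inn i j) ↔ v i ∈ V j := Iff.rfl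
@[simp] theorem sat_eqq (i j : ℕ) : Sat M v V (eqq i j) ↔ v i = v j := Iff.rfl

/-- Modules: nonempty sets which no outside point distinguishes. -/
def IsMod (R : A → A → Prop) (S : Set A) : Prop :=
  S.Nonempty ∧ ∀ x y z, x ∈ S → y ∈ S → z ∉ S → (R x z ↔ R y z)

/-- Every module containing `x` and `z` contains `y`. -/
def LE (R : A → A → Prop) (x y z : A) : Prop :=
  ∀ S : Set A, IsMod R S → x ∈ S → z ∈ S → y ∈ S

/-- `X_k` is a module. -/
def modF (k : ℕ) : Fm gr :=
  .and (.ex 0 (inn 0 k)) (.all 0 (.all 1 (.all 2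
    (.imp (.and (inn 0 k) (.and (inn 1 k) (.neg (inn 2 k)))) (.iff (rel 0 2) (rel 1 2))))))

theorem sat_modF (k : ℕ) : Sat M v V (modF k) ↔ IsMod (M.bin 0) (V k) := by
  simp only [modF, sat_and, sat_ex, sat_all, sat_imp, sat_iff, sat_inn, sat_rel, sat_neg,
    Function.update_self, IsMod, Set.Nonempty]
  simp [Function.update]

/-- `LE x_3 x_u x_w`. -/
def leF (u w : ℕ) : Fm gr :=
  .allS 0 (.imp (.and (modF 0) (.and (inn 3 0) (inn w 0))) (inn u 0))

theorem sat_leF (u w : ℕ) : Sat M v V (leF u w) ↔ LE (M.bin 0) (v 3) (v u) (v w) := by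
  simp only [leF, sat_allS, sat_imp, sat_and, sat_modF, sat_inn, Function.update_self, LE]
  constructor
  · intro h S h1 h2 h3
    exact h S ⟨h1, h2, h3⟩
  · rintro h S ⟨h1, h2, h3⟩
    exact h S h1 h2 h3

/-- `ρ` is a rank function onto `{0, ..., a}` for the preorder `LE R x`. -/
structure Rk (R : A → A → Prop) (x : A) (ρ : A → ℕ) (a : ℕ) : Prop where
  le_iff : ∀ y z, LE R x y z ↔ ρ y ≤ ρ z
  le_a : ∀ y, ρ y ≤ a
  surj : ∀ i, i ≤ a → ∃ y, ρ y = i

/-- Some element of `X_k` has the same rank as `x_u`; `n` is a fresh variable. -/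
def inF (n u k : ℕ) : Fm gr := .ex n (.and (inn n k) (.and (leF u n) (leF n u)))

theorem sat_inF {ρ : A → ℕ} {a : ℕ} (hρ : Rk (M.bin 0) (v 3) ρ a) {n u k : ℕ} (h3 : n ≠ 3)
    (hu : u ≠ n) : Sat M v V (inF n u k) ↔ ∃ z ∈ V k, ρ z = ρ (v u) := by
  simp only [inF, sat_ex, sat_and, sat_inn, sat_leF, Function.update_self,
    Function.update_of_ne h3.symm, Function.update_of_ne hu, hρ.le_iff]
  constructor
  · rintro ⟨z, h1, h2, h4⟩
    exact ⟨z, h1, by omega⟩
  · rintro ⟨z, h1, h2⟩
    exact ⟨z, h1, by omega, by omega⟩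

/-- The covering formula. -/
def coverF (D : ℕ → ℕ → Fm gr) (o p q : ℕ) : Fm gr :=
  .exS 1 (.allS 2 (.imp
    (.all o (.all (o + 1) (.imp (D o (o + 1)) (.iff (inF (o + 5) o 2) (inF (o + 5) (o + 1) 2)))))
    (.ex (o + 2) (.ex (o + 3) (.and (leF p (o + 2)) (.and (D (o + 2) (o + 3))
      (.and (leF (o + 3) q) (.all (o + 4)
        (.imp (.and (leF (o + 2) (o + 4)) (.neg (leF (o + 3) (o + 4))))
          (.iff (inF (o + 5) (o + 4) 1) (inF (o + 5) (o + 4) 2)))))))))))

theorem sat_coverF {x : A} {ρ : A → ℕ} {a t : ℕ} (hρ : Rk (M.bin 0) x ρ a) (ht : 0 < t)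
    (hv : v 3 = x) {D : ℕ → ℕ → Fm gr} {o p q : ℕ} (ho : 4 ≤ o)
    (hD1 : ∀ v V, v 3 = x → (Sat M v V (D o (o + 1)) ↔ ρ (v (o + 1)) = ρ (v o) + t))
    (hD2 : ∀ v V, v 3 = x → (Sat M v V (D (o + 2) (o + 3)) ↔ ρ (v (o + 3)) = ρ (v (o + 2)) + t))
    (hp : p < o ∨ o + 6 ≤ p) (hq : q < o ∨ o + 6 ≤ q) :
    Sat M v V (coverF D o p q) ↔ (ρ (v p) ≤ ρ (v q) ∧ Cover t (ρ (v q) - ρ (v p))) := by
  rw [← cover_sets hρ.le_a hρ.surj ht (hρ.le_a (v q))]
  subst hv
  have e3 : ∀ (w : ℕ → A) (i : ℕ) (y : A), o ≤ i → Function.update w i y 3 = w 3 :=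
    fun w i y hi => Function.update_of_ne (by omega) _ _
  simp only [coverF, sat_exS, sat_allS, sat_imp, sat_ex, sat_and, sat_all]
  apply exists_congr
  intro B
  apply forall_congr'
  intro X
  apply imp_congr
  · apply forall_congr'
    intro u
    apply forall_congr'
    intro w
    have e : Function.update (Function.update v o u) (o + 1) w 3 = v 3 := by
      rw [e3 _ _ _ (by omega), e3 _ _ _ (by omega)]
    rw [hD1 _ _ e, sat_iff, sat_inF (by rw [e]; exact hρ) (by omega) (by omega),
      sat_inF (by rw [e]; exact hρ) (by omega) (by omega)]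
    simp [Function.update]
  · apply exists_congr
    intro r
    apply exists_congr
    intro r'
    have e : Function.update (Function.update v (o + 2) r) (o + 3) r' 3 = v 3 := by
      rw [e3 _ _ _ (by omega), e3 _ _ _ (by omega)]
    have ep : Function.update (Function.update v (o + 2) r) (o + 3) r' p = v p := by
      rw [Function.update_of_ne (by omega), Function.update_of_ne (by omega)]
    have eq : Function.update (Function.update v (o + 2) r) (o + 3) r' q = v q := by
      rw [Function.update_of_ne (by omega), Function.update_of_ne (by omega)]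
    have er : Function.update (Function.update v (o + 2) r) (o + 3) r' (o + 2) = r := by
      rw [Function.update_of_ne (by omega), Function.update_self]
    have er' : Function.update (Function.update v (o + 2) r) (o + 3) r' (o + 3) = r' := by
      rw [Function.update_self]
    rw [hD2 _ _ e, sat_leF, sat_leF, e, ep, eq, er, er', hρ.le_iff, hρ.le_iff]
    refine and_congr Iff.rfl (and_congr Iff.rfl (and_congr Iff.rfl ?_))
    apply forall_congr'
    intro s
    set v' := Function.update (Function.update v (o + 2) r) (o + 3) r' with hv'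
    have e' : Function.update v' (o + 4) s 3 = v 3 := by
      rw [e3 _ _ _ (by omega), e]
    have es : Function.update v' (o + 4) s (o + 4) = s := by
      rw [Function.update_self]
    have er2 : Function.update v' (o + 4) s (o + 2) = r := by
      rw [Function.update_of_ne (by omega), er]
    have er3 : Function.update v' (o + 4) s (o + 3) = r' := by
      rw [Function.update_of_ne (by omega), er']
    rw [sat_neg, sat_leF, sat_leF, e', es, er2, er3, sat_iff,
      sat_inF (by rw [e']; exact hρ) (by omega) (by omega),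
      sat_inF (by rw [e']; exact hρ) (by omega) (by omega), es, hρ.le_iff, hρ.le_iff]
    simp [Function.update]

/-- Offsets of the two blocks of variables. -/
def off (b : Bool) : ℕ := if b then 12 else 4

/-- The formula saying that the rank of `x_q` is the rank of `x_p` plus `T h`. -/
def dl : ℕ → Bool → ℕ → ℕ → Fm gr
  | 0, b, u, w => .and (.and (leF u w) (.neg (leF w u)))
      (.all (off b) (.or (leF (off b) u) (leF w (off b))))
  | h + 1, b, p, q => .and (coverF (dl h (!b)) (off b) p q)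
      (.all (off b + 6) (.imp (.and (leF (off b + 6) q) (.neg (leF q (off b + 6))))
        (.neg (coverF (dl h (!b)) (off b) p (off b + 6)))))

theorem sat_dl {x : A} {ρ : A → ℕ} {a : ℕ} (hρ : Rk (M.bin 0) x ρ a) (h : ℕ) :
    ∀ (b : Bool) (u w : ℕ) (v : ℕ → A) (V : ℕ → Set A), v 3 = x →
      (u < off b ∨ off b + 8 ≤ u) → (w < off b ∨ off b + 8 ≤ w) →
      (Sat M v V (dl h b u w) ↔ ρ (v w) = ρ (v u) + T h) := by
  have ho : ∀ b, 4 ≤ off b := fun b => by cases b <;> simp [off]
  induction h with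
  | zero =>
    intro b u w v V hv hu hw
    have h4 := ho b
    simp only [dl, sat_and, sat_neg, sat_all, sat_or, sat_leF, Function.update_self,
      Function.update_of_ne (show (3 : ℕ) ≠ off b by omega),
      Function.update_of_ne (show u ≠ off b by omega),
      Function.update_of_ne (show w ≠ off b by omega), hv, hρ.le_iff, T]
    constructor
    · rintro ⟨⟨h1, h2⟩, h3⟩
      by_contra hne
      obtain ⟨z, hz⟩ := hρ.surj (ρ (v u) + 1) (by have := hρ.le_a (v w); omega)
      have := h3 z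
      omega
    · intro h1
      refine ⟨⟨by omega, by omega⟩, fun z => by omega⟩
  | succ h ih =>
    intro b u w v V hv hu hw
    have h4 := ho b
    have hb : ∀ i, i < 8 → (off b + i < off (!b) ∨ off (!b) + 8 ≤ off b + i) := by
      intro i hi
      cases b
      · simp only [off, Bool.not_false, if_true, Bool.false_eq_true, if_false]; omega
      · simp only [off, Bool.not_true, if_true, Bool.false_eq_true, if_false]; omega
    have hc : ∀ (w : ℕ) (v : ℕ → A) (V : ℕ → Set A), v 3 = x →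
        (w < off b ∨ off b + 6 ≤ w) →
        (Sat M v V (coverF (dl h (!b)) (off b) u w) ↔
          (ρ (v u) ≤ ρ (v w) ∧ Cover (T h) (ρ (v w) - ρ (v u)))) := by
      intro w v V hv hw
      refine sat_coverF hρ (T_pos h) hv h4 ?_ ?_ (by omega) hw
      · intro v V hv
        exact ih (!b) _ _ v V hv (hb 0 (by norm_num)) (hb 1 (by norm_num))
      · intro v V hv
        exact ih (!b) _ _ v V hv (hb 2 (by norm_num)) (hb 3 (by norm_num))
    rw [dl, sat_and, hc w v V hv (by omega), sat_all]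
    have hq : ∀ y : A, Sat M (Function.update v (off b + 6) y) V
        (.imp (.and (leF (off b + 6) w) (.neg (leF w (off b + 6))))
          (.neg (coverF (dl h (!b)) (off b) u (off b + 6)))) ↔
        (ρ y < ρ (v w) → ¬ (ρ (v u) ≤ ρ y ∧ Cover (T h) (ρ y - ρ (v u)))) := by
      intro y
      have e3 : Function.update v (off b + 6) y 3 = x := by
        rw [Function.update_of_ne (by omega), hv]
      rw [sat_imp, sat_and, sat_neg, sat_neg, sat_leF, sat_leF, hc _ _ _ e3 (by omega), e3,
        Function.update_self, Function.update_of_ne (show w ≠ off b + 6 by omega),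
        Function.update_of_ne (show u ≠ off b + 6 by omega), hρ.le_iff, hρ.le_iff]
      constructor
      · intro h1 h2
        exact h1 ⟨by omega, by omega⟩
      · rintro h1 ⟨h2, h5⟩
        exact h1 (by omega)
    simp only [hq]
    constructor
    · rintro ⟨⟨h1, h2⟩, h3⟩
      have h5 := T_le h2
      by_contra hne
      obtain ⟨y, hy⟩ := hρ.surj (ρ (v u) + T (h + 1)) (by have := hρ.le_a (v w); omega)
      refine h3 y (by omega) ⟨by omega, ?_⟩
      have e : ρ y - ρ (v u) = T (h + 1) := by omega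
      rw [e]
      exact T_cover h
    · intro h1
      refine ⟨⟨by omega, ?_⟩, ?_⟩
      · have e : ρ (v w) - ρ (v u) = T (h + 1) := by omega
        rw [e]
        exact T_cover h
      · rintro y hy ⟨h2, h3⟩
        have := T_le h3
        omega

end R209.CM
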