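import Pool.Agent.R209.CMSent

/-!
# Structures with nested modules: rank functions and cardinality
-/

namespace R209.CM

variable {A : Type} {R : A → A → Prop}

/-- Modules are pairwise nested or disjoint. -/
def Nested (R : A → A → Prop) : Prop :=
  ∀ X Y : Set A, IsMod R X → IsMod R Y → (∃ z, z ∈ X ∧ z ∈ Y) → X ⊆ Y ∨ Y ⊆ X

theorem isMod_univ [Nonempty A] : IsMod R (Set.univ : Set A) :=
  ⟨Set.univ_nonempty, fun _ _ z _ _ hz => absurd (Set.mem_univ z) hz⟩

theorem isMod_singleton (x : A) : IsMod R {x} := by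
  refine ⟨⟨x, rfl⟩, ?_⟩
  rintro a b z rfl rfl _
  rfl

/-- The modules containing `x`. -/
def MX (R : A → A → Prop) (x : A) : Set (Set A) := {S | IsMod R S ∧ x ∈ S}

theorem MX_chain (hn : Nested R) {x : A} {S S' : Set A} (h : S ∈ MX R x) (h' : S' ∈ MX R x) :
    S ⊆ S' ∨ S' ⊆ S := hn S S' h.1 h'.1 ⟨x, h.2, h'.2⟩

theorem exists_pos [Finite A] (hn : Nested R) (x : A) (S : Set A) (hS : S ∈ MX R x) :
    ∃ y, ∀ S' ∈ MX R x, (y ∉ S' ↔ S' ⊂ S) := by
  by_cases hne : ({S' | S' ∈ MX R x ∧ S' ⊂ S} : Set (Set A)).Nonempty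
  · obtain ⟨S1, hS1⟩ := (Set.toFinite {S' | S' ∈ MX R x ∧ S' ⊂ S}).exists_maximal hne
    obtain ⟨y, hy, hy1⟩ := Set.exists_of_ssubset hS1.prop.2
    refine ⟨y, fun S' hS' => ⟨fun h => ?_, fun h => ?_⟩⟩
    · rcases MX_chain hn hS' hS with h1 | h1
      · refine ⟨h1, fun h2 => h (h2 hy)⟩
      · exact absurd (h1 hy) h
    · rcases MX_chain hn hS' hS1.prop.1 with h1 | h1
      · exact fun h2 => hy1 (h1 h2)
      · have := hS1.le_of_ge ⟨hS', h⟩ h1
        exact fun h2 => hy1 (this h2)
  · refine ⟨x, fun S' hS' => ⟨fun h => absurd hS'.2 h, fun h => ?_⟩⟩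
    exact absurd ⟨S', hS', h⟩ hne

theorem rk_of_nested [Finite A] (hn : Nested R) (x : A) :
    Rk R x (fun y => ({S | S ∈ MX R x ∧ y ∉ S} : Set (Set A)).ncard) ((MX R x).ncard - 1) := by
  have : Nonempty A := ⟨x⟩
  have huniv : (Set.univ : Set A) ∈ MX R x := ⟨isMod_univ, Set.mem_univ x⟩
  refine ⟨fun y z => ⟨fun h => ?_, fun h => ?_⟩, fun y => ?_, fun i hi => ?_⟩
  · apply Set.ncard_le_ncard _ (Set.toFinite _)
    rintro S ⟨hS, hy⟩
    exact ⟨hS, fun hz => hy (h S hS.1 hS.2 hz)⟩
  · by_contra hc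
    unfold LE at hc
    push Not at hc
    obtain ⟨S0, h1, h2, h3, h4⟩ := hc
    have hlt : ({S | S ∈ MX R x ∧ z ∉ S} : Set (Set A)).ncard <
        ({S | S ∈ MX R x ∧ y ∉ S} : Set (Set A)).ncard := by
      apply Set.ncard_lt_ncard _ (Set.toFinite _)
      refine ⟨?_, ?_⟩
      · rintro S ⟨hS, hz⟩
        refine ⟨hS, fun hy => ?_⟩
        rcases MX_chain hn hS ⟨h1, h2⟩ with h5 | h5
        · exact h4 (h5 hy)
        · exact hz (h5 h3)
      · intro h5
        exact (h5 (show S0 ∈ {S | S ∈ MX R x ∧ y ∉ S} from ⟨⟨h1, h2⟩, h4⟩)).2 h3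
    exact absurd h (not_le.mpr hlt)
  · have hlt : ({S | S ∈ MX R x ∧ y ∉ S} : Set (Set A)).ncard < (MX R x).ncard := by
      apply Set.ncard_lt_ncard _ (Set.toFinite _)
      refine ⟨fun S hS => hS.1, fun h => ?_⟩
      exact (h huniv).2 (Set.mem_univ y)
    show ({S | S ∈ MX R x ∧ y ∉ S} : Set (Set A)).ncard ≤ (MX R x).ncard - 1
    omega
  · have hN : 0 < (MX R x).ncard := (Set.ncard_pos (Set.toFinite _)).mpr ⟨_, huniv⟩
    have key := Set.surj_on_of_inj_on_of_ncard_le (s := MX R x)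
      (t := Set.Iio (MX R x).ncard)
      (fun S _ => ({S' | S' ∈ MX R x ∧ S' ⊂ S} : Set (Set A)).ncard) (by
        intro S hS
        apply Set.ncard_lt_ncard _ (Set.toFinite _)
        exact ⟨fun S' hS' => hS'.1, fun h => (h hS).2.2 subset_rfl⟩) (by
        intro S S' hS hS' he
        have aux : ∀ S S' : Set A, S ∈ MX R x → S ⊂ S' →
            ({S'' | S'' ∈ MX R x ∧ S'' ⊂ S} : Set (Set A)).ncard <
            ({S'' | S'' ∈ MX R x ∧ S'' ⊂ S'} : Set (Set A)).ncard := by
          intro S S' hS h1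
          apply Set.ncard_lt_ncard _ (Set.toFinite _)
          refine ⟨fun S'' h => ⟨h.1, h.2.trans h1⟩, fun h => ?_⟩
          exact (h (show S ∈ {S'' | S'' ∈ MX R x ∧ S'' ⊂ S'} from ⟨hS, h1⟩)).2.2 subset_rfl
        by_contra hne
        rcases MX_chain hn hS hS' with h1 | h1
        · have := aux S S' hS (h1.ssubset_of_ne hne)
          omega
        · have := aux S' S hS' (h1.ssubset_of_ne (Ne.symm hne))
          omega) (by simp) (Set.finite_Iio _) i (by
        show i < (MX R x).ncard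
        omega)
    obtain ⟨S, hS, hi⟩ := key
    obtain ⟨y, hy⟩ := exists_pos hn x S hS
    refine ⟨y, ?_⟩
    rw [hi]
    show ({S | S ∈ MX R x ∧ y ∉ S} : Set (Set A)).ncard = _
    congr 1
    ext S'
    constructor
    · rintro ⟨h1, h2⟩
      exact ⟨h1, (hy S' h1).mp h2⟩
    · rintro ⟨h1, h2⟩
      exact ⟨h1, (hy S' h1).mpr h2⟩

/-- Number of modules strictly containing `X`. -/
noncomputable def up (R : A → A → Prop) (X : Set A) : ℕ :=
  ({S | IsMod R S ∧ X ⊂ S} : Set (Set A)).ncard

theorem card_mod [Finite A] {t : ℕ} (h : Good A R t) (n : ℕ) :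
    ∀ X : Set A, IsMod R X → X.ncard = n → X.ncard * 2 ^ up R X = 2 ^ t := by
  obtain ⟨_, _, hn, hs, _, hl⟩ := h
  induction n using Nat.strong_induction_on with
  | _ n ih =>
    intro X hX hXn
    by_cases h1 : ∃ x y, x ≠ y ∧ x ∈ X ∧ y ∈ X
    · obtain ⟨Y, Z, hY, hZ, hYZ, hd⟩ := hs X hX h1
      have hdis : Disjoint Y Z := Set.disjoint_left.mpr (fun z h1 h2 => hd z ⟨h1, h2⟩)
      have hU : X = Y ∪ Z := Set.ext hYZ
      have hcard : X.ncard = Y.ncard + Z.ncard := by
        rw [hU]
        exact Set.ncard_union_eq hdis (Set.toFinite _) (Set.toFinite _)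
      have hYp : 0 < Y.ncard := (Set.ncard_pos (Set.toFinite _)).mpr hY.1
      have hZp : 0 < Z.ncard := (Set.ncard_pos (Set.toFinite _)).mpr hZ.1
      have hup : ∀ Y Z : Set A, IsMod R Y → IsMod R Z → X = Y ∪ Z → (∀ z, ¬ (z ∈ Y ∧ z ∈ Z)) →
          up R Y = up R X + 1 := by
        intro Y Z hY hZ hU hd
        have hYX : Y ⊂ X := by
          obtain ⟨z, hz⟩ := hZ.1
          refine ⟨hU ▸ Set.subset_union_left, fun h => ?_⟩
          exact hd z ⟨h (hU ▸ Or.inr hz), hz⟩
        have hset : {S | IsMod R S ∧ Y ⊂ S} = insert X {S | IsMod R S ∧ X ⊂ S} := by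
          ext S
          constructor
          · rintro ⟨hS, hYS⟩
            obtain ⟨y, hy⟩ := hY.1
            rcases hn S X hS hX ⟨y, hYS.1 hy, hYX.1 hy⟩ with h2 | h2
            · left
              obtain ⟨z, hz1, hz2⟩ := Set.exists_of_ssubset hYS
              have hzZ : z ∈ Z := by
                have := h2 hz1
                rw [hU] at this
                exact this.resolve_left hz2
              rcases hn S Z hS hZ ⟨z, hz1, hzZ⟩ with h3 | h3
              · exact absurd ⟨hy, h3 (hYS.1 hy)⟩ (hd y)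
              · apply Set.Subset.antisymm h2
                rw [hU]
                exact Set.union_subset hYS.1 h3
            · by_cases h3 : S = X
              · exact Or.inl h3
              · exact Or.inr ⟨hS, h2.ssubset_of_ne (Ne.symm h3)⟩
          · rintro (rfl | ⟨hS, hXS⟩)
            · exact ⟨hX, hYX⟩
            · exact ⟨hS, hYX.trans hXS⟩
        unfold up
        rw [hset, Set.ncard_insert_of_notMem (fun h => h.2.2 subset_rfl) (Set.toFinite _)]
      have e1 := ih Y.ncard (by omega) Y hY rfl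
      have e2 := ih Z.ncard (by omega) Z hZ rfl
      rw [hup Y Z hY hZ hU hd, pow_succ] at e1
      rw [hup Z Y hZ hY (by rw [hU, Set.union_comm]) (fun z hz => hd z ⟨hz.2, hz.1⟩),
        pow_succ] at e2
      rw [hcard]
      have e3 : (Y.ncard + Z.ncard) * 2 ^ up R X * 2 = 2 ^ t * 2 := by
        calc (Y.ncard + Z.ncard) * 2 ^ up R X * 2
            = Y.ncard * (2 ^ up R X * 2) + Z.ncard * (2 ^ up R X * 2) := by ring
          _ = 2 ^ t * 2 := by rw [e1, e2]; ring
      exact Nat.eq_of_mul_eq_mul_right (by norm_num) e3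
    · obtain ⟨x, hx⟩ := hX.1
      have hXx : X = {x} := by
        ext y
        constructor
        · intro hy
          by_contra hne
          exact h1 ⟨y, x, hne, hy, hx⟩
        · rintro rfl
          exact hx
      subst hXx
      have h2 := hl x _ _ (rk_of_nested hn x)
      have h3 : {S | IsMod R S ∧ ({x} : Set A) ⊂ S} = MX R x \ {{x}} := by
        ext S
        constructor
        · rintro ⟨hS, h4⟩
          refine ⟨⟨hS, h4.1 rfl⟩, ?_⟩
          rintro rfl
          exact h4.2 subset_rfl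
        · rintro ⟨⟨hS, h4⟩, h5⟩
          refine ⟨hS, ?_⟩
          apply (Set.singleton_subset_iff.mpr h4).ssubset_of_ne
          exact fun h => h5 h.symm
      have h4 : up R {x} = t := by
        unfold up
        rw [h3, Set.ncard_sdiff_singleton_of_mem (show ({x} : Set A) ∈ MX R x from
          ⟨isMod_singleton x, rfl⟩)]
        exact h2
      rw [h4, Set.ncard_singleton, Nat.one_mul]

theorem card_of_good [Finite A] [Nonempty A] {t : ℕ} (h : Good A R t) : Nat.card A = 2 ^ t := by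
  have h1 := card_mod h _ Set.univ isMod_univ rfl
  have h2 : up R (Set.univ : Set A) = 0 := by
    unfold up
    rw [Set.ncard_eq_zero (Set.toFinite _)]
    ext S
    simp only [Set.mem_ofPred_eq, Set.mem_empty_iff_false, iff_false, not_and]
    intro _ h3
    exact h3.2 (Set.subset_univ S)
  rw [h2, pow_zero, Nat.mul_one, Set.ncard_univ] at h1
  exact h1

/-- Two rank functions for the same preorder have the same range. -/
theorem rk_unique {x : A} {ρ ρ' : A → ℕ} {a a' : ℕ} (h : Rk R x ρ a) (h' : Rk R x ρ' a') :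
    a = a' := by
  have key : ∀ (ρ ρ' : A → ℕ) (a a' : ℕ), Rk R x ρ a → Rk R x ρ' a' → a ≤ a' := by
    intro ρ ρ' a a' h h'
    have h1 : ∀ i, i ≤ a → ∀ y, ρ y = i → i ≤ ρ' y := by
      intro i
      induction i with
      | zero => intro _ y _; exact Nat.zero_le _
      | succ i ih =>
        intro hi y hy
        obtain ⟨y', hy'⟩ := h.surj i (by omega)
        have h2 := ih (by omega) y' hy'
        have h3 : ¬ ρ' y ≤ ρ' y' := by
          rw [← h'.le_iff, h.le_iff]
          omega
        omega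
    obtain ⟨y, hy⟩ := h.surj a le_rfl
    exact le_trans (h1 a le_rfl y hy) (h'.le_a y)
  exact le_antisymm (key _ _ _ _ h h') (key _ _ _ _ h' h)

end R209.CM
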