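import Pool.Agent.R209.CMTree

/-!
# Parity of the number of models
-/

namespace R209.CM

open Function

variable {τ : Voc} {A : Type}

/-- Transport of a structure along a permutation. -/
def Str.map (σ : Equiv.Perm A) (M : Str τ A) : Str τ A where
  con c := σ (M.con c)
  un P x := M.un P (σ.symm x)
  bin P x y := M.bin P (σ.symm x) (σ.symm y)

theorem val_map (σ : Equiv.Perm A) (M : Str τ A) (v : ℕ → A) (t : Tm τ) :
    t.val (M.map σ) (σ ∘ v) = σ (t.val M v) := by
  cases t <;> rfl

theorem sat_map (σ : Equiv.Perm A) (M : Str τ A) (φ : Fm τ) :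
    ∀ (v : ℕ → A) (V : ℕ → Set A),
      Sat (M.map σ) (σ ∘ v) (fun k => σ '' V k) φ ↔ Sat M v V φ := by
  have hup : ∀ (v : ℕ → A) (i : ℕ) (a : A), update (σ ∘ v) i (σ a) = σ ∘ update v i a :=
    fun v i a => (comp_update σ v i a).symm
  induction φ with
  | eq s t =>
    intro v V
    simp only [Sat, val_map, EmbeddingLike.apply_eq_iff_eq]
  | un P t =>
    intro v V
    simp only [Sat, val_map]
    simp only [Str.map, Equiv.symm_apply_apply]
  | bin P s t =>
    intro v V
    simp only [Sat, val_map]
    simp only [Str.map, Equiv.symm_apply_apply]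
  | mem t X =>
    intro v V
    simp only [Sat, val_map]
    exact σ.injective.mem_set_image
  | neg φ ih =>
    intro v V
    simp only [Sat, ih]
  | and φ ψ ih1 ih2 =>
    intro v V
    simp only [Sat, ih1, ih2]
  | all i φ ih =>
    intro v V
    simp only [Sat]
    rw [σ.surjective.forall]
    simp only [hup, ih]
  | allS i φ ih =>
    intro v V
    simp only [Sat]
    rw [σ.surjective.image_surjective.forall]
    have hS : ∀ S : Set A, update (fun k => σ '' V k) i (σ '' S) =
        fun k => σ '' (update V i S k) := by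
      intro S
      funext k
      by_cases hk : k = i
      · subst hk; simp
      · simp [update_of_ne hk]
    simp only [hS, ih]
  | cnt k q i φ ih =>
    intro v V
    simp only [Sat]
    have hc : Nat.card {a : A // Sat (M.map σ) (update (σ ∘ v) i a) (fun k => σ '' V k) φ} =
        Nat.card {a : A // Sat M (update v i a) V φ} := by
      apply Nat.card_congr
      refine (Equiv.subtypeEquiv σ fun a => ?_).symm
      rw [hup, ih]
    rw [hc]

theorem models_map (σ : Equiv.Perm A) (M : Str τ A) (φ : Fm τ) (h : Models M φ) :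
    Models (M.map σ) φ := by
  intro v V
  have h1 := (sat_map σ M φ (σ.symm ∘ v) (fun k => σ ⁻¹' V k)).mpr (h _ _)
  have e1 : σ ∘ (σ.symm ∘ v) = v := by funext k; simp
  have e2 : (fun k => σ '' (σ ⁻¹' V k)) = V := by
    funext k
    exact Set.image_preimage_eq _ σ.surjective
  rw [e1, e2] at h1
  exact h1

/-- Permutations act on the models of a sentence. -/
@[instance_reducible] def actM (P : Subgroup (Equiv.Perm A)) (φ : Fm τ) :
    MulAction P {M : Str τ A // Models M φ} where
  smul σ M := ⟨M.1.map σ.1, models_map σ.1 M.1 φ M.2⟩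
  one_smul M := by
    apply Subtype.ext
    rfl
  mul_smul σ σ' M := by
    apply Subtype.ext
    rfl

instance finiteStr [Finite A] : Finite (Str τ A) :=
  Finite.of_injective (fun M : Str τ A => (M.con, M.un, M.bin)) (by
    intro M N h
    simp only [Prod.mk.injEq] at h
    exact Str.ext h.1 h.2.1 h.2.2)

variable {L : ℕ} (C : Co A L)

/-- The automorphism group of the binary tree. -/
def Co.P : Subgroup (Equiv.Perm A) where
  carrier := {σ | ∀ j x y, C.ag j (σ x) (σ y) ↔ C.ag j x y}
  mul_mem' := by
    intro σ σ' h h' j x y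
    rw [Equiv.Perm.mul_apply, Equiv.Perm.mul_apply, h, h']
  one_mem' := by
    intro j x y
    rfl
  inv_mem' := by
    intro σ h j x y
    have e : ∀ z, σ (σ⁻¹ z) = z := fun z => σ.apply_symm_apply z
    rw [← h j (σ⁻¹ x) (σ⁻¹ y), e, e]

theorem Co.P_d {σ : Equiv.Perm A} (h : σ ∈ C.P) (x y : A) : C.d (σ x) (σ y) = C.d x y :=
  C.d_eq_of fun j => h j x y

/-- Powers `2 ^ k` fix the top `k` levels. -/
theorem Co.P_pow {σ : Equiv.Perm A} (h : σ ∈ C.P) (k : ℕ) (hk : k ≤ L) :
    ∀ x, C.ag (L - k) ((σ ^ 2 ^ k) x) x := by
  induction k with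
  | zero =>
    intro x
    exact C.ag_L _ _
  | succ k ih =>
    intro x
    have ih' := ih (by omega)
    set ν := σ ^ 2 ^ k with hν
    have hνP : ν ∈ C.P := Subgroup.pow_mem _ h _
    have e : σ ^ 2 ^ (k + 1) = ν * ν := by
      rw [hν, ← pow_add]
      congr 1
      rw [pow_succ]
      ring
    rw [e, Equiv.Perm.mul_apply]
    obtain ⟨j, hj⟩ : ∃ j, L - k = j + 1 := ⟨L - k - 1, by omega⟩
    have hj' : L - (k + 1) = j := by omega
    rw [hj']
    rw [hj] at ih'
    by_cases hd : C.d x (ν x) = j + 1
    · rcases (C.halves hd).mp (C.ag_symm (C.ag_trans (ih' (ν x)) (ih' x))) with h1 | h1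
      · exact C.ag_symm h1
      · have h2 : C.ag j x (ν x) := (hνP j x (ν x)).mp h1
        have := C.d_le.mpr h2
        omega
    · have h1 : C.ag j x (ν x) := by
        have h2 := C.d_le.mpr (C.ag_symm (ih' x))
        exact C.d_le.mp (by omega)
      have h3 : C.ag j (ν x) (ν (ν x)) := (hνP j x (ν x)).mpr h1
      exact C.ag_symm (C.ag_trans h1 h3)

theorem Co.P_two : IsPGroup 2 C.P := by
  intro σ
  refine ⟨L, ?_⟩
  apply Subtype.ext
  apply Equiv.Perm.ext
  intro x
  have := C.P_pow σ.2 L le_rfl x
  rw [Nat.sub_self, C.ag_zero] at this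
  simpa using this

/-- Translation by the vector `f`. -/
noncomputable def Co.tr (f : ℕ → Bool) (x : A) : A := (C.mk' (fun i => xor (C.co x i) (f i))).choose

theorem Co.tr_co (f : ℕ → Bool) (x : A) {i : ℕ} (hi : i < L) :
    C.co (C.tr f x) i = xor (C.co x i) (f i) :=
  (C.mk' (fun i => xor (C.co x i) (f i))).choose_spec i hi

theorem Co.tr_tr (f : ℕ → Bool) (x : A) : C.tr f (C.tr f x) = x := by
  apply C.ext'
  intro i hi
  rw [C.tr_co f _ hi, C.tr_co f _ hi, Bool.xor_assoc, Bool.xor_self, Bool.xor_false]

theorem Co.tr_ag {f : ℕ → Bool} {j : ℕ} (hf : ∀ i, j ≤ i → f i = false) (x : A) :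
    C.ag j x (C.tr f x) := by
  intro i h1 h2
  rw [C.tr_co f _ h2, hf i h1, Bool.xor_false]

open Classical in
/-- Translation on one ball. -/
noncomputable def Co.tw (j : ℕ) (y : A) (f : ℕ → Bool) (z : A) : A :=
  if C.ag j y z then C.tr f z else z

theorem Co.tw_pos {j : ℕ} {y : A} {f : ℕ → Bool} {z : A} (h : C.ag j y z) :
    C.tw j y f z = C.tr f z := by
  unfold Co.tw
  rw [if_pos h]

theorem Co.tw_neg {j : ℕ} {y : A} {f : ℕ → Bool} {z : A} (h : ¬ C.ag j y z) :
    C.tw j y f z = z := by
  unfold Co.tw
  rw [if_neg h]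

theorem Co.tw_ag {f : ℕ → Bool} {j : ℕ} (hf : ∀ i, j ≤ i → f i = false) (y z : A) :
    C.ag j z (C.tw j y f z) := by
  by_cases h : C.ag j y z
  · rw [C.tw_pos h]
    exact C.tr_ag hf z
  · rw [C.tw_neg h]
    exact C.ag_refl j z

theorem Co.tw_tw {f : ℕ → Bool} {j : ℕ} (hf : ∀ i, j ≤ i → f i = false) (y : A) :
    Function.Involutive (C.tw j y f) := by
  intro z
  have h1 := C.tw_ag hf y z
  by_cases h : C.ag j y z
  · rw [C.tw_pos (C.ag_trans h h1), C.tw_pos h, C.tr_tr]
  · rw [C.tw_neg (fun h2 => h (C.ag_trans h2 (C.ag_symm h1))), C.tw_neg h]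

theorem Co.tw_mem {f : ℕ → Bool} {j : ℕ} (hf : ∀ i, j ≤ i → f i = false) (y : A) :
    (C.tw_tw hf y).toPerm ∈ C.P := by
  have key : ∀ k z w, C.ag k z w → C.ag k (C.tw j y f z) (C.tw j y f w) := by
    intro k z w h
    rcases le_total j k with hk | hk
    · exact C.ag_trans (C.ag_symm (C.ag_mono (C.tw_ag hf y z) hk))
        (C.ag_trans h (C.ag_mono (C.tw_ag hf y w) hk))
    · by_cases h1 : C.ag j y z
      · have h2 : C.ag j y w := C.ag_trans h1 (C.ag_mono h hk)
        rw [C.tw_pos h1, C.tw_pos h2]
        intro i hi hL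
        rw [C.tr_co f _ hL, C.tr_co f _ hL, h i hi hL]
      · have h2 : ¬ C.ag j y w := fun h2 => h1 (C.ag_trans h2 (C.ag_symm (C.ag_mono h hk)))
        rw [C.tw_neg h1, C.tw_neg h2]
        exact h
  intro k z w
  constructor
  · intro h
    have := key k _ _ h
    simpa [C.tw_tw hf y z, C.tw_tw hf y w] using this
  · exact key k z w

/-- The group is transitive on pairs at a given distance. -/
theorem Co.P_trans {x y x' y' : A} (h : C.d x y = C.d x' y') :
    ∃ σ ∈ C.P, σ x = x' ∧ σ y = y' := by
  have step1 : ∀ x x' : A, ∃ σ ∈ C.P, σ x = x' := by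
    intro x x'
    let f : ℕ → Bool := fun i => if i < L then xor (C.co x i) (C.co x' i) else false
    have hf : ∀ i, L ≤ i → f i = false := fun i hi => if_neg (by omega)
    refine ⟨_, C.tw_mem hf x, ?_⟩
    show C.tw L x f x = x'
    rw [C.tw_pos (C.ag_refl L x)]
    apply C.ext'
    intro i hi
    rw [C.tr_co f _ hi]
    simp [f, hi]
  obtain ⟨σ, hσ, h1⟩ := step1 x x'
  have h2 : C.d x' (σ y) = C.d x' y' := by
    rw [← h1, C.P_d hσ, h, h1]
  rcases Nat.eq_zero_or_pos (C.d x' y') with h0 | h0
  · refine ⟨σ, hσ, h1, ?_⟩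
    rw [h0] at h2
    rw [← C.ag_zero.mp (C.d_le.mp h2.le), ← C.ag_zero.mp (C.d_le.mp h0.le)]
  · obtain ⟨k, hk⟩ : ∃ k, C.d x' y' = k + 1 := ⟨C.d x' y' - 1, by omega⟩
    rw [hk] at h2
    have h3 : C.ag k (σ y) y' := by
      rcases (C.halves h2).mp (C.d_le.mp hk.le) with h4 | h4
      · have := C.d_le.mpr h4
        omega
      · exact h4
    let f : ℕ → Bool := fun i => if i < k then xor (C.co (σ y) i) (C.co y' i) else false
    have hf : ∀ i, k ≤ i → f i = false := fun i hi => if_neg (by omega)
    refine ⟨(C.tw_tw hf (σ y)).toPerm * σ, Subgroup.mul_mem _ (C.tw_mem hf (σ y)) hσ, ?_, ?_⟩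
    · rw [Equiv.Perm.mul_apply, h1]
      show C.tw k (σ y) f x' = x'
      apply C.tw_neg
      intro h4
      have := C.d_le.mpr (C.ag_symm h4)
      omega
    · rw [Equiv.Perm.mul_apply]
      show C.tw k (σ y) f (σ y) = y'
      rw [C.tw_pos (C.ag_refl k _)]
      apply C.ext'
      intro i hi
      rw [C.tr_co f _ hi]
      by_cases hik : i < k
      · simp [f, hik]
      · rw [hf i (by omega), Bool.xor_false]
        exact h3 i (by omega) hi

/-- A good relation which depends only on the distance is the alternating graph. -/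
theorem Co.good_unique {R : A → A → Prop} (hg : Good A R L)
    (hR : ∀ x y x' y', C.d x y = C.d x' y' → (R x y ↔ R x' y')) (x y : A) :
    R x y ↔ C.alt x y := by
  obtain ⟨_, hirr, hnest, _, hcol, _⟩ := hg
  have key : ∀ j x y, C.d x y = j → (R x y ↔ Odd j) := by
    intro j
    induction j with
    | zero =>
      intro x y h
      have : x = y := C.ag_zero.mp (C.d_le.mp h.le)
      subst this
      constructor
      · exact fun h => absurd h (hirr x)
      · intro h
        exact absurd h (by decide)
    | succ j ih =>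
      rcases j with _ | j
      · intro x y h
        refine ⟨fun _ => odd_one, fun _ => ?_⟩
        refine hcol x y {z | C.ag 1 x z} (C.ball_isMod hR 1 x) (fun z => ?_) ?_
        · show C.ag (0 + 1) x z ↔ _
          rw [C.halves (j := 0) h, C.ag_zero, C.ag_zero]
          constructor
          · rintro (h | h)
            · exact Or.inl h.symm
            · exact Or.inr h.symm
          · rintro (h | h)
            · exact Or.inl h.symm
            · exact Or.inr h.symm
        · rintro rfl
          rw [C.d_self] at h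
          omega
      · intro x z hz
        obtain ⟨y, hy⟩ := C.exists_flip x (j := j) (by
          have := C.d_le_L x z
          omega)
        have ihy := ih x y hy
        have hne : ¬ (R x y ↔ R x z) := by
          intro hc
          let X : Set A := {w | C.ag (j + 1) x w}
          let Y : Set A := {w | C.ag j x w ∨ C.ag (j + 1) z w}
          have hX : IsMod R X := C.ball_isMod hR (j + 1) x
          have hY : IsMod R Y := by
            refine ⟨⟨x, Or.inl (C.ag_refl j x)⟩, ?_⟩
            -- value of `R u w` for `u ∈ Y`, `w ∉ Y`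
            have main : ∀ u w, u ∈ Y → w ∉ Y → C.ag (j + 1) x w → (R u w ↔ R x y) := by
              intro u w hu hw hxw
              have hw1 : C.d x w = j + 1 := by
                have h1 := C.d_le.mpr hxw
                have h2 : ¬ C.d x w ≤ j := fun h => hw (Or.inl (C.d_le.mp h))
                omega
              rcases hu with hu | hu
              · apply hR
                rw [hy, ← hw1]
                exact (C.d_ball hu (fun h => by have := C.d_le.mpr h; omega)).symm
              · rw [hc]
                apply hR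
                rw [hz]
                have h2 : C.d u w = C.d z w := (C.d_ball hu (fun h => by
                  exact hw (Or.inr h))).symm
                rw [h2, C.d_comm z w, ← hz]
                refine (C.d_ball hxw (fun h => ?_)).symm
                have := C.d_le.mpr h
                omega
            intro u u' w hu hu' hw
            by_cases hxw : C.ag (j + 1) x w
            · rw [main u w hu hw hxw, main u' w hu' hw hxw]
            · have hbig : ∀ u ∈ Y, C.ag (j + 1 + 1) x u := by
                rintro u (h | h)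
                · exact C.ag_mono h (by omega)
                · exact (C.halves hz).mpr (Or.inr h)
              apply hR
              have h1 : C.ag (j + 1 + 1) u u' :=
                C.ag_trans (C.ag_symm (hbig u hu)) (hbig u' hu')
              refine C.d_ball h1 (fun h2 => ?_)
              have h3 : C.ag (j + 1 + 1) x w := C.ag_trans (hbig u hu) h2
              rcases (C.halves hz).mp h3 with h4 | h4
              · exact hxw h4
              · exact hw (Or.inr h4)
          rcases hnest X Y hX hY ⟨x, C.ag_refl _ x, Or.inl (C.ag_refl j x)⟩ with h | h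
          · rcases h (show y ∈ X from C.d_le.mp hy.le) with h1 | h1
            · have := C.d_le.mpr h1
              omega
            · have h2 : C.ag (j + 1) x z := C.ag_trans (C.d_le.mp hy.le) (C.ag_symm h1)
              have := C.d_le.mpr h2
              omega
          · have h1 : C.ag (j + 1) x z := h (show z ∈ Y from Or.inr (C.ag_refl _ z))
            have := C.d_le.mpr h1
            omega
        rw [Nat.odd_add_one, ← ihy]
        tauto
  exact key _ x y rfl

/-- The structure given by the alternating graph. -/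
def Co.altStr : Str gr A where
  con c := c.elim0
  un P := P.elim0
  bin _ := C.alt

theorem Co.odd_models [Finite A] [Nonempty A] (C : Co A L) (h : ℕ) (hL : L = T h) :
    Nat.card {M : Str gr A // Models M (ph h)} % 2 = 1 := by
  let _ := actM C.P (ph h)
  have h1 := C.P_two.card_modEq_card_fixedPoints (p := 2) {M : Str gr A // Models M (ph h)}
  have hmod : ∀ M : Str gr A, Models M (ph h) ↔ Good A (M.bin 0) L := by
    intro M
    rw [hL]
    exact models_ph h (fun hn x => ⟨_, _, rk_of_nested hn x⟩)
  have halt : Models C.altStr (ph h) := (hmod _).mpr C.alt_good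
  have h2 : MulAction.fixedPoints C.P {M : Str gr A // Models M (ph h)} =
      {⟨C.altStr, halt⟩} := by
    ext M
    constructor
    · intro hM
      have hinv : ∀ σ ∈ C.P, ∀ x y, M.1.bin 0 (σ x) (σ y) ↔ M.1.bin 0 x y := by
        intro σ hσ x y
        have h3 := hM ⟨σ⁻¹, Subgroup.inv_mem _ hσ⟩
        have h4 : (M.1.map σ⁻¹).bin 0 x y = M.1.bin 0 x y := by
          have : M.1.map σ⁻¹ = M.1 := congrArg Subtype.val h3
          rw [this]
        rw [← h4]
        rfl
      have hR : ∀ x y x' y', C.d x y = C.d x' y' → (M.1.bin 0 x y ↔ M.1.bin 0 x' y') := by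
        intro x y x' y' hd
        obtain ⟨σ, hσ, hx, hy⟩ := C.P_trans hd
        rw [← hx, ← hy]
        exact (hinv σ hσ x y).symm
      have huni := C.good_unique ((hmod M.1).mp M.2) hR
      apply Set.mem_singleton_iff.mpr
      apply Subtype.ext
      apply Str.ext
      · funext c; exact c.elim0
      · funext P; exact P.elim0
      · funext P x y
        have hP : P = 0 := Subsingleton.elim _ _
        subst hP
        exact propext (huni x y)
    · intro hM
      rw [Set.mem_singleton_iff] at hM
      subst hM
      intro σ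
      apply Subtype.ext
      apply Str.ext
      · funext c; exact c.elim0
      · funext P; exact P.elim0
      · funext P x y
        apply propext
        show C.alt (σ.1⁻¹ x) (σ.1⁻¹ y) ↔ C.alt x y
        apply C.alt_congr
        exact C.P_d (Subgroup.inv_mem _ σ.2) x y
  rw [h2] at h1
  have h3 : Nat.card ({⟨C.altStr, halt⟩} : Set {M : Str gr A // Models M (ph h)}) = 1 := by
    simp
  rw [h3] at h1
  exact h1

/-- Coordinates on `Fin (2 ^ L)`. -/
def finCo (L : ℕ) : Co (Fin (2 ^ L)) L where
  co x i := Nat.testBit x i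
  ext' x y h := by
    apply Fin.ext
    apply Nat.eq_of_testBit_eq
    intro i
    by_cases hi : i < L
    · exact h i hi
    · have h1 : ∀ z : Fin (2 ^ L), Nat.testBit z i = false := fun z =>
        Nat.testBit_lt_two_pow (lt_of_lt_of_le z.2 (Nat.pow_le_pow_right (by norm_num) (by omega)))
      rw [h1, h1]
  mk' f := by
    refine ⟨⟨Nat.ofBits (fun i : Fin L => f i), Nat.ofBits_lt_two_pow _⟩, fun i hi => ?_⟩
    exact Nat.testBit_ofBits_lt _ i hi

theorem S_odd (h : ℕ) : S (ph h) (2 ^ T h) % 2 = 1 := by
  have : Nonempty (Fin (2 ^ T h)) := ⟨⟨0, by positivity⟩⟩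
  exact (finCo (T h)).odd_models h rfl

theorem S_zero (h n : ℕ) (hn : 0 < n) (hne : n ≠ 2 ^ T h) : S (ph h) n = 0 := by
  have : Nonempty (Fin n) := ⟨⟨0, hn⟩⟩
  unfold S
  rw [Nat.card_eq_zero]
  left
  refine ⟨fun M => hne ?_⟩
  have h1 := (models_ph h (fun hn x => ⟨_, _, rk_of_nested hn x⟩)).mp M.2
  have h2 := card_of_good h1
  simpa using h2

end R209.CM
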