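import Pool.Agent.R209.CMLen

/-!
# The sentences, their lengths and their scopes
-/

namespace R209.CM

/-- `R` is symmetric and irreflexive. -/
def f1 : Fm gr := .and (.all 0 (.all 1 (.imp (rel 0 1) (rel 1 0)))) (.all 0 (.neg (rel 0 0)))

/-- `X_i ⊆ X_j` -/
def subF (i j : ℕ) : Fm gr := .all 3 (.imp (inn 3 i) (inn 3 j))

/-- Two modules are nested or disjoint. -/
def f2 : Fm gr := .allS 1 (.allS 2 (.imp
  (.and (modF 1) (.and (modF 2) (.ex 3 (.and (inn 3 1) (inn 3 2))))) (.or (subF 1 2) (subF 2 1))))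

/-- Every module with two elements is the disjoint union of two modules. -/
def f3 : Fm gr := .allS 1 (.imp
  (.and (modF 1) (.ex 3 (.ex 4 (.and (.neg (eqq 3 4)) (.and (inn 3 1) (inn 4 1))))))
  (.exS 2 (.exS 3 (.and (.and (modF 2) (modF 3))
    (.and (.all 3 (.iff (inn 3 1) (.or (inn 3 2) (inn 3 3))))
      (.all 3 (.neg (.and (inn 3 2) (inn 3 3)))))))))

/-- If a pair is a module then it is an edge. -/
def f4 : Fm gr := .all 3 (.all 4 (.allS 1 (.imp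
  (.and (modF 1) (.and (.all 5 (.iff (inn 5 1) (.or (eqq 5 3) (eqq 5 4)))) (.neg (eqq 3 4))))
  (rel 3 4))))

/-- For every `x` the preorder `LE R x` has `T h + 1` classes. -/
def f5 (h : ℕ) : Fm gr :=
  .all 3 (.all 20 (.imp (.all 21 (leF 21 20)) (dl h false 3 20)))

/-- The sentence. -/
def ph (h : ℕ) : Fm gr := .and (.and f1 f2) (.and (.and f3 f4) (f5 h))

/-- The length conditions expressed by `f5`. -/
def Good (A : Type) (R : A → A → Prop) (t : ℕ) : Prop :=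
  (∀ x y, R x y → R y x) ∧ (∀ x, ¬ R x x) ∧
  (∀ X Y : Set A, IsMod R X → IsMod R Y → (∃ z, z ∈ X ∧ z ∈ Y) → X ⊆ Y ∨ Y ⊆ X) ∧
  (∀ X : Set A, IsMod R X → (∃ x y, x ≠ y ∧ x ∈ X ∧ y ∈ X) →
    ∃ Y Z : Set A, IsMod R Y ∧ IsMod R Z ∧ (∀ z, z ∈ X ↔ z ∈ Y ∨ z ∈ Z) ∧
      ∀ z, ¬ (z ∈ Y ∧ z ∈ Z)) ∧
  (∀ x y, ∀ X : Set A, IsMod R X → (∀ z, z ∈ X ↔ z = x ∨ z = y) → x ≠ y → R x y) ∧
  (∀ (x : A) (ρ : A → ℕ) (a : ℕ), Rk R x ρ a → a = t)

theorem sat_f5 {A : Type} {M : Str gr A} {v : ℕ → A} {V : ℕ → Set A} (h : ℕ)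
    (hex : ∀ x : A, ∃ (ρ : A → ℕ) (a : ℕ), Rk (M.bin 0) x ρ a) :
    Sat M v V (f5 h) ↔ ∀ (x : A) (ρ : A → ℕ) (a : ℕ), Rk (M.bin 0) x ρ a → a = T h := by
  have key : ∀ (x : A) (ρ : A → ℕ) (a : ℕ), Rk (M.bin 0) x ρ a →
      ((∀ z, Sat M (Function.update (Function.update v 3 x) 20 z) V
        (.imp (.all 21 (leF 21 20)) (dl h false 3 20))) ↔ a = T h) := by
    intro x ρ a hρ
    have h0 : ρ x = 0 := by
      obtain ⟨y, hy⟩ := hρ.surj 0 (Nat.zero_le _)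
      have : ρ x ≤ ρ y := (hρ.le_iff x y).mp (fun S _ hx _ => hx)
      omega
    have h1 : ∀ z, Sat M (Function.update (Function.update v 3 x) 20 z) V
        (.imp (.all 21 (leF 21 20)) (dl h false 3 20)) ↔ ((∀ y, ρ y ≤ ρ z) → ρ z = T h) := by
      intro z
      have e3 : Function.update (Function.update v 3 x) 20 z 3 = x := by simp [Function.update]
      have e20 : Function.update (Function.update v 3 x) 20 z 20 = z := by
        simp
      rw [sat_imp, sat_dl hρ h false 3 20 _ V e3 (by simp [off]) (by simp [off]), e3, e20, h0,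
        Nat.zero_add, sat_all]
      apply imp_congr _ Iff.rfl
      apply forall_congr'
      intro y
      rw [sat_leF]
      have e3' : Function.update (Function.update (Function.update v 3 x) 20 z) 21 y 3 = x := by
        simp [Function.update]
      have e20' : Function.update (Function.update (Function.update v 3 x) 20 z) 21 y 20 = z := by
        simp [Function.update]
      rw [e3', e20', Function.update_self, hρ.le_iff]
    simp only [h1]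
    constructor
    · intro h2
      obtain ⟨z, hz⟩ := hρ.surj a le_rfl
      rw [← hz]
      exact h2 z (fun y => by rw [hz]; exact hρ.le_a y)
    · intro h2 z h3
      obtain ⟨y, hy⟩ := hρ.surj a le_rfl
      have h4 := h3 y
      have h5 := hρ.le_a z
      omega
  simp only [f5, sat_all]
  constructor
  · intro h1 x ρ a hρ
    exact (key x ρ a hρ).mp (h1 x)
  · intro h1 x
    obtain ⟨ρ, a, hρ⟩ := hex x
    exact (key x ρ a hρ).mpr (h1 x ρ a hρ)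

theorem models_ph {A : Type} [Nonempty A] {M : Str gr A} (h : ℕ)
    (hex : (∀ X Y : Set A, IsMod (M.bin 0) X → IsMod (M.bin 0) Y → (∃ z, z ∈ X ∧ z ∈ Y) →
      X ⊆ Y ∨ Y ⊆ X) → ∀ x : A, ∃ (ρ : A → ℕ) (a : ℕ), Rk (M.bin 0) x ρ a) :
    Models M (ph h) ↔ Good A (M.bin 0) (T h) := by
  have h1 : ∀ (v : ℕ → A) (V : ℕ → Set A), Sat M v V f1 ↔
      ((∀ x y, M.bin 0 x y → M.bin 0 y x) ∧ (∀ x, ¬ M.bin 0 x x)) := by
    intro v V
    simp [f1, Function.update]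
  have h2 : ∀ (v : ℕ → A) (V : ℕ → Set A), Sat M v V f2 ↔
      (∀ X Y : Set A, IsMod (M.bin 0) X → IsMod (M.bin 0) Y → (∃ z, z ∈ X ∧ z ∈ Y) →
        X ⊆ Y ∨ Y ⊆ X) := by
    intro v V
    simp [f2, subF, sat_modF, Function.update, Set.subset_def]
  have h3 : ∀ (v : ℕ → A) (V : ℕ → Set A), Sat M v V f3 ↔
      (∀ X : Set A, IsMod (M.bin 0) X → (∃ x y, x ≠ y ∧ x ∈ X ∧ y ∈ X) →
        ∃ Y Z : Set A, IsMod (M.bin 0) Y ∧ IsMod (M.bin 0) Z ∧ (∀ z, z ∈ X ↔ z ∈ Y ∨ z ∈ Z) ∧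
          ∀ z, ¬ (z ∈ Y ∧ z ∈ Z)) := by
    intro v V
    simp [f3, sat_modF, Function.update, and_assoc]
  have h4 : ∀ (v : ℕ → A) (V : ℕ → Set A), Sat M v V f4 ↔
      (∀ x y, ∀ X : Set A, IsMod (M.bin 0) X → (∀ z, z ∈ X ↔ z = x ∨ z = y) → x ≠ y →
        M.bin 0 x y) := by
    intro v V
    simp [f4, sat_modF, Function.update]
  unfold Models Good ph
  simp only [sat_and, h1, h2, h3, h4]
  obtain ⟨x0⟩ := ‹Nonempty A›
  constructor
  · intro hh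
    obtain ⟨⟨⟨a1, a2⟩, a3⟩, ⟨a4, a5⟩, a6⟩ := hh (fun _ => x0) (fun _ => ∅)
    exact ⟨a1, a2, a3, a4, a5, (sat_f5 h (hex a3)).mp a6⟩
  · rintro ⟨a1, a2, a3, a4, a5, a6⟩ v V
    exact ⟨⟨⟨a1, a2⟩, a3⟩, ⟨a4, a5⟩, (sat_f5 h (hex a3)).mpr a6⟩

end R209.CM
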