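import Pool.Agent.R209.CMSent

/-!
# Lengths and scopes of the sentences
-/

namespace R209.CM

theorem len_leF (u w : ℕ) : (leF u w).len ≤ u + w + 400 := by
  simp only [leF, modF, Fm.imp, Fm.iff, Fm.ex, inn, rel, Fm.len, Tm.len]
  norm_num
  omega

theorem len_inF (n u k : ℕ) : (inF n u k).len ≤ 4 * n + 2 * u + k + 1000 := by
  have h1 := len_leF u n
  have h2 := len_leF n u
  simp only [inF, Fm.ex, inn, Fm.len, Tm.len]
  omega

theorem len_coverF (D : ℕ → ℕ → Fm gr) (o p q : ℕ) (ho : o ≤ 20) (hp : p ≤ 20) (hq : q ≤ 20) :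
    (coverF D o p q).len ≤ (D o (o + 1)).len + (D (o + 2) (o + 3)).len + 20000 := by
  have a1 := len_inF (o + 5) o 2
  have a2 := len_inF (o + 5) (o + 1) 2
  have a3 := len_inF (o + 5) (o + 4) 2
  have a4 := len_inF (o + 5) (o + 4) 1
  have b1 := len_leF p (o + 2)
  have b2 := len_leF (o + 3) q
  have b3 := len_leF (o + 2) (o + 4)
  have b4 := len_leF (o + 3) (o + 4)
  simp only [coverF, Fm.imp, Fm.iff, Fm.ex, Fm.exS, Fm.len]
  omega

theorem off_le (b : Bool) : off b ≤ 12 := by cases b <;> simp [off]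

theorem len_dl (h : ℕ) : ∀ (b : Bool) (u w : ℕ), u ≤ 20 → w ≤ 20 →
    (dl h b u w).len + 20000 ≤ 60000 * 4 ^ h := by
  induction h with
  | zero =>
    intro b u w hu hw
    have hb := off_le b
    have a1 := len_leF u w
    have a2 := len_leF w u
    have a3 := len_leF (off b) u
    have a4 := len_leF w (off b)
    simp only [dl, Fm.or, Fm.len]
    omega
  | succ h ih =>
    intro b p q hp hq
    have hb := off_le b
    have c1 := len_coverF (dl h (!b)) (off b) p q (by omega) hp hq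
    have c2 := len_coverF (dl h (!b)) (off b) p (off b + 6) (by omega) hp (by omega)
    have d1 := ih (!b) (off b) (off b + 1) (by omega) (by omega)
    have d2 := ih (!b) (off b + 2) (off b + 3) (by omega) (by omega)
    have a1 := len_leF (off b + 6) q
    have a2 := len_leF q (off b + 6)
    simp only [dl, Fm.imp, Fm.len, pow_succ]
    omega

theorem len_modF (k : ℕ) : (modF k).len = 4 * k + 152 := by
  simp [modF, Fm.imp, Fm.iff, Fm.ex, inn, rel, Fm.len, Tm.len]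
  ring

theorem len_f1 : f1.len ≤ 400 := by
  simp [f1, Fm.imp, rel, Fm.len, Tm.len]

theorem len_f2 : f2.len ≤ 1000 := by
  simp [f2, subF, Fm.imp, Fm.or, Fm.ex, inn, Fm.len, Tm.len, len_modF]

theorem len_f3 : f3.len ≤ 2000 := by
  simp [f3, eqq, Fm.imp, Fm.iff, Fm.or, Fm.ex, Fm.exS, inn, Fm.len, Tm.len, len_modF]

theorem len_f4 : f4.len ≤ 1000 := by
  simp [f4, eqq, rel, Fm.imp, Fm.iff, Fm.or, inn, Fm.len, Tm.len, len_modF]

theorem len_ph (h : ℕ) : (ph h).len ≤ 100000 * 4 ^ h := by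
  have h1 := len_dl h false 3 20 (by norm_num) (by norm_num)
  have h2 := len_leF 21 20
  have h3 : 1 ≤ 4 ^ h := Nat.one_le_pow _ _ (by norm_num)
  have e1 := len_f1
  have e2 := len_f2
  have e3 := len_f3
  have e4 := len_f4
  simp only [ph, f5, Fm.imp, Fm.len]
  generalize (dl h false 3 20).len = x1 at *
  generalize (leF 21 20).len = x2 at *
  generalize f1.len = x3 at *
  generalize f2.len = x4 at *
  generalize f3.len = x5 at *
  generalize f4.len = x6 at *
  generalize 4 ^ h = x7 at *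
  omega

theorem plain_leF (u w : ℕ) : (leF u w).Plain := by
  simp [leF, modF, Fm.imp, Fm.iff, Fm.ex, inn, rel, Fm.Plain]

theorem plain_inF (n u k : ℕ) : (inF n u k).Plain := by
  simp [inF, Fm.ex, inn, Fm.Plain, plain_leF]

theorem plain_coverF (D : ℕ → ℕ → Fm gr) (hD : ∀ u w, (D u w).Plain) (o p q : ℕ) :
    (coverF D o p q).Plain := by
  simp [coverF, Fm.imp, Fm.iff, Fm.ex, Fm.exS, Fm.Plain, plain_leF, plain_inF, hD]

theorem plain_dl (h : ℕ) : ∀ (b : Bool) (u w : ℕ), (dl h b u w).Plain := by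
  induction h with
  | zero =>
    intro b u w
    simp [dl, Fm.or, Fm.Plain, plain_leF]
  | succ h ih =>
    intro b u w
    simp [dl, Fm.imp, Fm.Plain, plain_leF, plain_coverF _ (ih (!b))]

theorem plain_ph (h : ℕ) : (ph h).Plain := by
  simp [ph, f1, f2, f3, f4, f5, subF, modF, eqq, inn, rel, Fm.imp, Fm.iff, Fm.or, Fm.ex, Fm.exS,
    Fm.Plain, plain_leF, plain_dl]

theorem scoped_modF (E F : Set ℕ) (k : ℕ) (hk : k ∈ F) : (modF k).Scoped E F := by
  simp [modF, Fm.imp, Fm.iff, Fm.ex, inn, rel, Fm.Scoped, Tm.Scoped, hk]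

theorem scoped_leF (E F : Set ℕ) (u w : ℕ) (h3 : 3 ∈ E) (hu : u ∈ E) (hw : w ∈ E) :
    (leF u w).Scoped E F := by
  have := scoped_modF E (insert 0 F) 0 (by simp)
  simp [leF, Fm.imp, inn, Fm.Scoped, Tm.Scoped, h3, hu, hw, this]

theorem scoped_inF (E F : Set ℕ) (n u k : ℕ) (h3 : 3 ∈ E) (hu : u ∈ E) (hk : k ∈ F) :
    (inF n u k).Scoped E F := by
  have h1 := scoped_leF (insert n E) F u n (by simp [h3]) (by simp [hu]) (by simp)
  have h2 := scoped_leF (insert n E) F n u (by simp [h3]) (by simp) (by simp [hu])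
  simp [inF, Fm.ex, inn, Fm.Scoped, Tm.Scoped, hk, h1, h2]

theorem scoped_coverF (D : ℕ → ℕ → Fm gr)
    (hD : ∀ (E F : Set ℕ) (u w : ℕ), 3 ∈ E → u ∈ E → w ∈ E → (D u w).Scoped E F)
    (E F : Set ℕ) (o p q : ℕ) (h3 : 3 ∈ E) (hp : p ∈ E) (hq : q ∈ E) :
    (coverF D o p q).Scoped E F := by
  simp only [coverF, Fm.imp, Fm.iff, Fm.ex, Fm.exS, Fm.Scoped]
  refine ⟨⟨?_, ⟨?_, ?_⟩, ?_, ?_⟩, ?_, ?_, ?_, ⟨?_, ?_⟩, ⟨?_, ?_⟩, ?_, ?_⟩
  all_goals first
    | apply hD <;> simp [h3]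
    | apply scoped_leF <;> simp [h3, hp, hq]
    | apply scoped_inF <;> simp [h3]

theorem scoped_dl (h : ℕ) : ∀ (b : Bool) (E F : Set ℕ) (u w : ℕ), 3 ∈ E → u ∈ E → w ∈ E →
    (dl h b u w).Scoped E F := by
  induction h with
  | zero =>
    intro b E F u w h3 hu hw
    simp only [dl, Fm.or, Fm.Scoped]
    refine ⟨⟨?_, ?_⟩, ?_, ?_⟩
    all_goals apply scoped_leF <;> simp [h3, hu, hw]
  | succ h ih =>
    intro b E F u w h3 hu hw
    simp only [dl, Fm.imp, Fm.Scoped]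
    refine ⟨?_, ⟨?_, ?_⟩, ?_⟩
    · exact scoped_coverF _ (ih (!b)) _ _ _ _ _ h3 hu hw
    · apply scoped_leF <;> simp [h3, hw]
    · apply scoped_leF <;> simp [h3, hw]
    · apply scoped_coverF _ (ih (!b)) <;> simp [h3, hu]

theorem sentence_ph (h : ℕ) : (ph h).Sentence := by
  have h1 : (dl h false 3 20).Scoped (insert 20 (insert 3 ∅)) ∅ := by
    apply scoped_dl <;> simp
  have h2 : (leF 21 20).Scoped (insert 21 (insert 20 (insert 3 ∅))) ∅ := by
    apply scoped_leF <;> simp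
  have m1 : ∀ (E F : Set ℕ) (k : ℕ), k ∈ F → (modF k).Scoped E F := scoped_modF
  simp [ph, f1, f2, f3, f4, f5, subF, eqq, inn, rel, Fm.imp, Fm.iff, Fm.or, Fm.ex, Fm.exS,
    Fm.Sentence, Fm.Scoped, Tm.Scoped, m1]
  exact ⟨by simpa using h2, by simpa using h1⟩

end R209.CM
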