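import Pool.Agent.R209.CMMod

/-!
# The full binary tree: balls, the alternating graph, the two-group
-/

namespace R209.CM

variable {A : Type} {L : ℕ}

/-- Binary coordinates of length `L` on `A`. -/
structure Co (A : Type) (L : ℕ) where
  co : A → ℕ → Bool
  ext' : ∀ x y, (∀ i, i < L → co x i = co y i) → x = y
  mk' : ∀ f : ℕ → Bool, ∃ x, ∀ i, i < L → co x i = f i

variable (C : Co A L)

/-- Agreement of all coordinates from `j` on. -/
def Co.ag (j : ℕ) (x y : A) : Prop := ∀ i, j ≤ i → i < L → C.co x i = C.co y i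

theorem Co.ag_refl (j : ℕ) (x : A) : C.ag j x x := fun _ _ _ => rfl

theorem Co.ag_symm {j : ℕ} {x y : A} (h : C.ag j x y) : C.ag j y x :=
  fun i h1 h2 => (h i h1 h2).symm

theorem Co.ag_trans {j : ℕ} {x y z : A} (h : C.ag j x y) (h' : C.ag j y z) : C.ag j x z :=
  fun i h1 h2 => (h i h1 h2).trans (h' i h1 h2)

theorem Co.ag_mono {j k : ℕ} {x y : A} (h : C.ag j x y) (hjk : j ≤ k) : C.ag k x y :=
  fun i h1 h2 => h i (by omega) h2

theorem Co.ag_L (x y : A) : C.ag L x y := fun i h1 h2 => absurd h2 (by omega)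

theorem Co.ag_zero {x y : A} : C.ag 0 x y ↔ x = y :=
  ⟨fun h => C.ext' x y (fun i hi => h i (Nat.zero_le _) hi), fun h => h ▸ C.ag_refl 0 x⟩

/-- The ultrametric distance. -/
noncomputable def Co.d (x y : A) : ℕ := sInf {j | C.ag j x y}

theorem Co.d_le {x y : A} {j : ℕ} : C.d x y ≤ j ↔ C.ag j x y := by
  constructor
  · intro h
    have h1 : C.ag (C.d x y) x y := Nat.sInf_mem (s := {j | C.ag j x y}) ⟨L, C.ag_L x y⟩
    exact C.ag_mono h1 h
  · intro h
    exact Nat.sInf_le h

theorem Co.d_le_L (x y : A) : C.d x y ≤ L := C.d_le.mpr (C.ag_L x y)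

theorem Co.d_self (x : A) : C.d x x = 0 := Nat.le_zero.mp (C.d_le.mpr (C.ag_refl 0 x))

theorem Co.d_eq_of {x y x' y' : A} (h : ∀ j, C.ag j x y ↔ C.ag j x' y') : C.d x y = C.d x' y' := by
  apply le_antisymm
  · rw [C.d_le, h]; exact C.d_le.mp le_rfl
  · rw [C.d_le, ← h]; exact C.d_le.mp le_rfl

theorem Co.d_comm (x y : A) : C.d x y = C.d y x :=
  C.d_eq_of fun _ => ⟨C.ag_symm, C.ag_symm⟩

theorem Co.d_ball {j : ℕ} {y y' z : A} (h : C.ag j y y') (hz : ¬ C.ag j y z) :
    C.d y z = C.d y' z := by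
  apply C.d_eq_of
  intro k
  rcases le_total j k with hk | hk
  · exact ⟨fun h1 => C.ag_trans (C.ag_symm (C.ag_mono h hk)) h1,
      fun h1 => C.ag_trans (C.ag_mono h hk) h1⟩
  · constructor
    · intro h1
      exact absurd (C.ag_mono h1 hk) hz
    · intro h1
      exact absurd (C.ag_trans h (C.ag_mono h1 hk)) hz

theorem Co.d_succ {x y : A} {j : ℕ} :
    C.d x y = j + 1 ↔ (C.ag (j + 1) x y ∧ j < L ∧ C.co x j ≠ C.co y j) := by
  constructor
  · intro h
    have h1 : C.ag (j + 1) x y := C.d_le.mp h.le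
    have h2 : j < L := by have := C.d_le_L x y; omega
    refine ⟨h1, h2, fun h3 => ?_⟩
    have h4 : C.ag j x y := by
      intro i hi hL
      rcases Nat.eq_or_lt_of_le hi with h5 | h5
      · rw [← h5]; exact h3
      · exact h1 i h5 hL
    have := C.d_le.mpr h4
    omega
  · rintro ⟨h1, h2, h3⟩
    apply le_antisymm (C.d_le.mpr h1)
    by_contra hc
    have : C.ag j x y := C.d_le.mp (by omega)
    exact h3 (this j le_rfl h2)

theorem Co.exists_flip (x : A) {j : ℕ} (hj : j < L) : ∃ y, C.d x y = j + 1 := by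
  obtain ⟨y, hy⟩ := C.mk' (fun i => if i = j then !(C.co x i) else C.co x i)
  refine ⟨y, C.d_succ.mpr ⟨fun i h1 h2 => ?_, hj, ?_⟩⟩
  · rw [hy i h2, if_neg (by omega)]
  · rw [hy j hj, if_pos rfl]
    cases C.co x j <;> simp

theorem Co.halves {x y z : A} {j : ℕ} (hy : C.d x y = j + 1) :
    C.ag (j + 1) x z ↔ (C.ag j x z ∨ C.ag j y z) := by
  obtain ⟨h1, h2, h3⟩ := C.d_succ.mp hy
  constructor
  · intro h
    by_cases h4 : C.co x j = C.co z j
    · left
      intro i hi hL
      rcases Nat.eq_or_lt_of_le hi with h5 | h5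
      · rw [← h5]; exact h4
      · exact h i h5 hL
    · right
      have h6 : C.co y j = C.co z j := by
        revert h3 h4
        cases C.co x j <;> cases C.co y j <;> cases C.co z j <;> simp
      intro i hi hL
      rcases Nat.eq_or_lt_of_le hi with h5 | h5
      · rw [← h5]; exact h6
      · exact (h1 i h5 hL).symm.trans (h i h5 hL)
  · rintro (h | h)
    · exact C.ag_mono h (Nat.le_succ j)
    · exact C.ag_trans h1 (C.ag_mono h (Nat.le_succ j))

/-- Balls are modules of every relation depending only on the distance. -/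
theorem Co.ball_isMod {R : A → A → Prop} (hR : ∀ x y x' y', C.d x y = C.d x' y' → (R x y ↔ R x' y'))
    (j : ℕ) (x : A) : IsMod R {y | C.ag j x y} := by
  refine ⟨⟨x, C.ag_refl j x⟩, ?_⟩
  intro a b z ha hb hz
  apply hR
  have hab : C.ag j a b := C.ag_trans (C.ag_symm ha) hb
  exact C.d_ball hab (fun h => hz (C.ag_trans ha h))

/-- The alternating graph. -/
def Co.alt (x y : A) : Prop := Odd (C.d x y)

theorem Co.alt_congr (x y x' y' : A) (h : C.d x y = C.d x' y') : C.alt x y ↔ C.alt x' y' := by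
  unfold Co.alt
  rw [h]

/-- Modules of the alternating graph are balls. -/
theorem Co.mod_ball [Finite A] {S : Set A} (hS : IsMod C.alt S) {x : A} (hx : x ∈ S) :
    ∃ j, j ≤ L ∧ ∀ y, y ∈ S ↔ C.ag j x y := by
  obtain ⟨y, hy, hmax⟩ := (Set.toFinite S).exists_maximalFor (fun y => C.d x y) S hS.1
  have hmax' : ∀ z ∈ S, C.d x z ≤ C.d x y := by
    intro z hz
    rcases le_total (C.d x z) (C.d x y) with h | h
    · exact h
    · exact hmax hz h
  refine ⟨C.d x y, C.d_le_L x y, fun z => ⟨fun hz => C.d_le.mp (hmax' z hz), fun hz => ?_⟩⟩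
  by_contra hzS
  -- general statement
  have key : ∀ x y : A, x ∈ S → y ∈ S → C.d x z < C.d x y → False := by
    intro x y hx hy hlt
    have hzx : x ≠ z := fun h => hzS (h ▸ hx)
    have hi : C.d x z ≠ 0 := fun h => hzx (C.ag_zero.mp (C.d_le.mp h.le))
    have hzy : C.d z y = C.d x y := by
      have h1 : C.ag (C.d x z) x z := C.d_le.mp le_rfl
      refine (C.d_ball h1 (fun h => ?_)).symm
      have := C.d_le.mpr h
      omega
    have h1 := hS.2 x y z hx hy hzS
    have h2 : Odd (C.d x z) ↔ Odd (C.d x y) := by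
      rw [← hzy, C.d_comm z y]
      exact h1
    have hlt2 : C.d x z + 1 < C.d x y := by
      by_contra hc
      have h3 : C.d x y = C.d x z + 1 := by omega
      rw [h3, Nat.odd_add_one] at h2
      tauto
    obtain ⟨w, hw⟩ := C.exists_flip x (j := C.d x z) (by have := C.d_le_L x y; omega)
    by_cases hwS : w ∈ S
    · have h3 := hS.2 x w z hx hwS hzS
      have h4 : C.d w z = C.d x z + 1 := by
        have h1 : C.ag (C.d x z) x z := C.d_le.mp le_rfl
        have : C.d x w = C.d z w := C.d_ball h1 (fun h => by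
          have := C.d_le.mpr h
          omega)
        rw [C.d_comm w z, ← this, hw]
      have h5 : Odd (C.d x z) ↔ Odd (C.d w z) := h3
      rw [h4, Nat.odd_add_one] at h5
      tauto
    · have h3 := hS.2 x y w hx hy hwS
      have h4 : C.d y w = C.d x y := by
        have h1 : C.ag (C.d x w) x w := C.d_le.mp le_rfl
        have : C.d x y = C.d w y := C.d_ball h1 (fun h => by
          have := C.d_le.mpr h
          omega)
        rw [C.d_comm y w, ← this]
      have h5 : Odd (C.d x w) ↔ Odd (C.d y w) := h3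
      rw [h4, hw, Nat.odd_add_one] at h5
      tauto
  have hne : C.d x y ≠ 0 := by
    intro h
    rw [h] at hz
    exact hzS (C.ag_zero.mp hz ▸ hx)
  obtain ⟨j, hj⟩ := Nat.exists_eq_succ_of_ne_zero hne
  rw [hj] at hz
  rcases (C.halves (show C.d x y = j + 1 from hj)).mp hz with h | h
  · exact key x y hx hy (by have := C.d_le.mpr h; omega)
  · exact key y x hy hx (by have := C.d_le.mpr h; rw [C.d_comm y x]; omega)

theorem Co.alt_rk [Finite A] (x : A) : Rk C.alt x (fun y => C.d x y) L := by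
  refine ⟨fun y z => ⟨fun h => ?_, fun h S hS hx hz => ?_⟩, fun y => C.d_le_L x y, fun i hi => ?_⟩
  · exact C.d_le.mpr (h _ (C.ball_isMod C.alt_congr (C.d x z) x) (C.ag_refl _ x)
      (C.d_le.mp le_rfl))
  · obtain ⟨j, _, hj⟩ := C.mod_ball hS hx
    rw [hj] at hz ⊢
    have := C.d_le.mpr hz
    exact C.d_le.mp (by omega)
  · rcases i with _ | i
    · exact ⟨x, C.d_self x⟩
    · exact C.exists_flip x (by omega)

/-- The alternating graph is good. -/
theorem Co.alt_good [Finite A] : Good A C.alt L := by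
  refine ⟨?_, ?_, ?_, ?_, ?_, ?_⟩
  · intro x y h
    exact (C.alt_congr x y y x (C.d_comm x y)).mp h
  · intro x h
    unfold Co.alt at h
    rw [C.d_self] at h
    exact absurd h (by decide)
  · rintro X Y hX hY ⟨z, hz1, hz2⟩
    obtain ⟨j, _, hj⟩ := C.mod_ball hX hz1
    obtain ⟨k, _, hk⟩ := C.mod_ball hY hz2
    rcases le_total j k with h | h
    · left
      intro y hy
      rw [hk]
      exact C.ag_mono ((hj y).mp hy) h
    · right
      intro y hy
      rw [hj]
      exact C.ag_mono ((hk y).mp hy) h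
  · rintro X hX ⟨x, y, hxy, hx, hy⟩
    obtain ⟨j, hjL, hj⟩ := C.mod_ball hX hx
    rcases j with _ | j
    · exact absurd (C.ag_zero.mp ((hj y).mp hy)) hxy
    · obtain ⟨w, hw⟩ := C.exists_flip x (j := j) (by omega)
      refine ⟨{y | C.ag j x y}, {y | C.ag j w y}, C.ball_isMod C.alt_congr j x,
        C.ball_isMod C.alt_congr j w, fun z => ?_, fun z => ?_⟩
      · rw [hj]
        exact C.halves hw
      · rintro ⟨h1, h2⟩
        have h3 : C.ag j x w := C.ag_trans h1 (C.ag_symm h2)
        have := C.d_le.mpr h3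
        omega
  · intro x y X hX hXy hxy
    have hx : x ∈ X := (hXy x).mpr (Or.inl rfl)
    have hy : y ∈ X := (hXy y).mpr (Or.inr rfl)
    obtain ⟨j, hjL, hj⟩ := C.mod_ball hX hx
    rcases j with _ | j
    · exact absurd (C.ag_zero.mp ((hj y).mp hy)) hxy
    · obtain ⟨w, hw⟩ := C.exists_flip x (j := 0) (by omega)
      have h1 : w ∈ X := by
        rw [hj]
        exact C.ag_mono (C.d_le.mp hw.le) (by omega)
      rcases (hXy w).mp h1 with h | h
      · rw [h, C.d_self] at hw
        omega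
      · unfold Co.alt
        rw [← h, hw]
        exact odd_one
  · intro x ρ a h
    exact rk_unique h (C.alt_rk x)

end R209.CM
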