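import Mathlib

/-!
# Patterns whose first two entries are adjacent, descents, descent polynomials
-/

namespace R209.DW

/-- The permutation `σ` of `{0, ..., n-1}` contains the pattern `p` of length four with its
first two entries adjacent: there are positions `f 0 < f 1 < f 2 < f 3` with
`f 1 = f 0 + 1` such that the entries of `σ` there are in the same relative order as
`p 0, p 1, p 2, p 3`. -/
def Contains {n : ℕ} (p : Fin 4 → ℕ) (σ : Equiv.Perm (Fin n)) : Prop :=
  ∃ f : Fin 4 → Fin n, StrictMono f ∧ (f 1 : ℕ) = (f 0 : ℕ) + 1 ∧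
    ∀ a b, σ (f a) < σ (f b) ↔ p a < p b

open Classical in
/-- The number of descents of `σ`. -/
noncomputable def des {n : ℕ} (σ : Equiv.Perm (Fin n)) : ℕ :=
  (Finset.univ.filter (fun i : Fin n => ∃ h : i.1 + 1 < n, σ ⟨i.1 + 1, h⟩ < σ i)).card

open Classical in
/-- The descent polynomial of the avoidance class of `p`:
the sum of `q ^ des σ` over the permutations `σ` of length `n` avoiding `p`. -/
noncomputable def F (p : Fin 4 → ℕ) (n : ℕ) : Polynomial ℤ :=
  ∑ σ ∈ Finset.univ.filter (fun σ : Equiv.Perm (Fin n) => ¬ Contains p σ), Polynomial.X ^ des σ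

end R209.DW
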