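import Pool.Agent.R209.DWWord

/-!
# The two pairs of classes
-/

namespace R209.DW

open Classical

variable {K : Type*} [CommRing K]

theorem lastO_lt {N : ℕ} (p : List ℕ) : ∀ prev : Option ℕ, (∀ b ∈ prev, b < N) →
    (∀ x ∈ p, x < N) → ∀ b ∈ lastO prev p, b < N := by
  induction p with
  | nil => intro prev h _; exact h
  | cons c p ih =>
    intro prev _ hp
    refine ih (some c) ?_ (fun x hx => hp x (by simp [hx]))
    intro b hb
    simp only [Option.mem_def, Option.some.injEq] at hb
    rw [← hb]
    exact hp c (by simp)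

theorem not_dnn {N : ℕ} {prev : Option ℕ} (h : ∀ b ∈ prev, b < N) : ¬ dnn prev N := by
  rintro ⟨b, hb, hn⟩
  exact hn (h b hb)

theorem dnn_some {N a : ℕ} (h : a < N) : dnn (some N) a := ⟨N, rfl, by omega⟩

theorem nup_append (b a : ℕ) (p v v' : List ℕ) : nup b (p ++ a :: v) ↔ nup b (p ++ a :: v') := by
  cases p <;> exact Iff.rfl

/-! ### First pair -/

/-- `x < y < a` -/
def L1 (a x y : ℕ) : Prop := x < y ∧ y < a

/-- Weakly decreasing. -/
def wd (w : List ℕ) : Prop := w.Pairwise (fun x y => ¬ x < y)

noncomputable def zA1 (a : ℕ) (w : List ℕ) : Bool := decide (wd (a :: w))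
noncomputable def zB1 (_ : ℕ) (w : List ℕ) : Bool := decide (wd w)

theorem cnd1_insert {b N : ℕ} (h : b < N) (p r : List ℕ) :
    cnd L1 b (p ++ N :: r) ↔ cnd L1 b (p ++ r) := by
  unfold cnd
  rw [List.pairwise_append, List.pairwise_append, List.pairwise_cons]
  constructor
  · rintro ⟨h1, ⟨_, h2⟩, h3⟩
    exact ⟨h1, h2, fun x hx y hy => h3 x hx y (by simp [hy])⟩
  · rintro ⟨h1, h2, h3⟩
    refine ⟨h1, ⟨?_, h2⟩, ?_⟩
    · rintro y _ ⟨h4, h5⟩
      omega
    · intro x hx y hy
      rcases List.mem_cons.mp hy with rfl | hy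
      · rintro ⟨_, h5⟩
        omega
      · exact h3 x hx y hy

theorem cnd1_max {N : ℕ} {w : List ℕ} (h : ∀ x ∈ w, x < N) : cnd L1 N w ↔ wd w := by
  unfold cnd wd
  apply List.Pairwise.iff_of_mem
  intro x y _ hy
  have := h y hy
  unfold L1
  tauto

theorem wd_max {N : ℕ} {w : List ℕ} (h : ∀ x ∈ w, x < N) : wd (N :: w) ↔ wd w := by
  unfold wd
  rw [List.pairwise_cons]
  constructor
  · exact fun h => h.2
  · exact fun h' => ⟨fun y hy => by have := h y hy; omega, h'⟩

theorem wd_bad {b N : ℕ} (h : b < N) (p r : List ℕ) : ¬ wd (b :: (p ++ N :: r)) := by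
  unfold wd
  rw [List.pairwise_cons]
  rintro ⟨h1, _⟩
  exact h1 N (by simp) h

theorem slA1 {N a : ℕ} {w : List ℕ} (p : List ℕ) : ∀ prev : Option ℕ, (∀ x ∈ p, x < N) →
    slA L1 zA1 prev p (N :: a :: w) = (slA L1 zA1 prev p (a :: w)).map unz := by
  induction p with
  | nil => intro prev _; rfl
  | cons b p ih =>
    intro prev hp
    have hb : b < N := hp b (by simp)
    simp only [slA, List.map_append]
    rw [ih (some b) (fun x hx => hp x (by simp [hx]))]
    congr 1
    have h1 := cnd1_insert hb p (a :: w)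
    by_cases h2 : cnd L1 b (p ++ a :: w)
    · rw [if_pos h2, if_pos (h1.mpr h2)]
      have h3 : zA1 b (p ++ N :: a :: w) = false := decide_eq_false (wd_bad hb p (a :: w))
      rw [h3]
      rfl
    · rw [if_neg h2, if_neg (fun h => h2 (h1.mp h))]
      rfl

theorem HA1 (p : List ℕ) (a : ℕ) (w : List ℕ) (N : ℕ) (hN : ∀ x ∈ p ++ a :: w, x < N)
    (hc : cnd L1 a w) : stA L1 zA1 none (p ++ N :: a :: w) =
      nw1 YA1 (slA L1 zA1 none p (a :: w)) (zA1 a w, decide (dnn (lastO none p) a))
        (stA L1 zA1 (some a) w) := by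
  have hp : ∀ x ∈ p, x < N := fun x hx => hN x (by simp [hx])
  have haw : ∀ x ∈ a :: w, x < N := fun x hx => hN x (List.mem_append_right _ hx)
  have ha : a < N := haw a (by simp)
  rw [stA_split, slA1 p none hp, nw1]
  congr 1
  have e1 : decide (dnn (lastO none p) N) = false :=
    decide_eq_false (not_dnn (lastO_lt p none (by simp) hp))
  have e2 : decide (dnn (some N) a) = true := decide_eq_true (dnn_some ha)
  have e3 : zA1 N (a :: w) = zA1 a w := by
    unfold zA1
    rw [decide_eq_decide]
    exact wd_max haw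
  simp only [stA, if_pos hc, e1, e2, e3]
  by_cases h : wd (a :: w)
  · rw [if_pos ((cnd1_max haw).mpr h)]
    have e4 : zA1 a w = true := decide_eq_true h
    rw [e4]
    rfl
  · rw [if_neg (fun h' => h ((cnd1_max haw).mp h'))]
    have e4 : zA1 a w = false := decide_eq_false h
    rw [e4]
    rfl

theorem slB1 {N a : ℕ} (ha : a < N) {w : List ℕ} (p : List ℕ) (hp : ∀ x ∈ p, x < N) :
    slB L1 zB1 p (a :: N :: w) = (slB L1 zB1 p (a :: w)).map unz := by
  induction p with
  | nil => rfl
  | cons b p ih =>
    have hb : b < N := hp b (by simp)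
    simp only [slB, List.map_append]
    rw [ih (fun x hx => hp x (by simp [hx]))]
    congr 1
    have h1 : cnd L1 b (p ++ a :: N :: w) ↔ cnd L1 b (p ++ a :: w) := by
      have := cnd1_insert hb (p ++ [a]) w
      simpa using this
    have h4 : decide (nup b (p ++ a :: N :: w)) = decide (nup b (p ++ a :: w)) := by
      rw [decide_eq_decide]
      exact nup_append b a p _ _
    by_cases h2 : cnd L1 b (p ++ a :: w)
    · rw [if_pos h2, if_pos (h1.mpr h2), h4]
      have h3 : zB1 b (p ++ a :: N :: w) = false := by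
        apply decide_eq_false
        intro h5
        unfold wd at h5
        rw [List.pairwise_append] at h5
        exact wd_bad ha [] w h5.2.1
      rw [h3]
      rfl
    · rw [if_neg h2, if_neg (fun h => h2 (h1.mp h))]
      rfl

theorem HB1 (p : List ℕ) (a : ℕ) (w : List ℕ) (N : ℕ) (hN : ∀ x ∈ p ++ a :: w, x < N)
    (hc : cnd L1 a w) : stB L1 zB1 (p ++ a :: N :: w) =
      nw1 YB1 (slB L1 zB1 p (a :: w)) (zB1 a w, decide (nup a w)) (stB L1 zB1 w) := by
  have hp : ∀ x ∈ p, x < N := fun x hx => hN x (by simp [hx])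
  have hw : ∀ x ∈ w, x < N := fun x hx => hN x (by simp [hx])
  have ha : a < N := hN a (by simp)
  rw [stB_split, slB1 ha p hp, nw1]
  congr 1
  have e1 : decide (nup N w) = false := by
    apply decide_eq_false
    rcases w with _ | ⟨b, v⟩
    · exact fun h => h
    · exact fun h => h (hw b (by simp))
  have e2 : decide (nup a (N :: w)) = true := by
    apply decide_eq_true
    show ¬ N < a
    omega
  have e3 : zB1 a (N :: w) = zB1 a w := by
    unfold zB1
    rw [decide_eq_decide]
    exact wd_max hw
  have e5 : zB1 N w = zB1 a w := rfl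
  have hc' : cnd L1 a (N :: w) := (cnd1_insert ha [] w).mpr hc
  simp only [stB, if_pos hc', e1, e2, e3, e5]
  by_cases h : wd w
  · rw [if_pos ((cnd1_max hw).mpr h)]
    have e4 : zB1 a w = true := decide_eq_true h
    rw [e4]
    rfl
  · rw [if_neg (fun h' => h ((cnd1_max hw).mp h'))]
    have e4 : zB1 a w = false := decide_eq_false h
    rw [e4]
    rfl

theorem words1 [IsDomain K] {q : K} (hq : q ≠ 0) (n : ℕ) :
    ((TA L1 n).map (fun l => q ^ ascA none l)).sum = ((TB L1 n).map (fun l => q ^ desB l)).sum := by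
  have h1 := sum_TA L1 q n 0
  have h2 := sum_TB L1 q n 0
  have g1 : (fun l => q ^ ascA none l) = DA L1 q 0 (n + 1) := rfl
  have g2 : (fun l => q ^ desB l) = DB L1 q 0 (n + 1) := rfl
  rw [g1, g2, h1, h2, DA_eq L1 q zA1 (nw1 YA1) HA1 _ 1 [0] (by simp),
    DB_eq L1 q zB1 (nw1 YB1) HB1 _ 1 [0] (by simp), machine1 hq]
  have s1 : stA L1 zA1 none [0] = [(true, false)] := by
    have e1 : cnd L1 0 [] := List.Pairwise.nil
    have e2 : zA1 0 [] = true := decide_eq_true (List.pairwise_singleton _ _)
    have e3 : decide (dnn none 0) = false := decide_eq_false (not_dnn (by simp))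
    simp only [stA, if_pos e1, e2, e3]
    rfl
  have s2 : stB L1 zB1 [0] = [(true, false)] := by
    have e1 : cnd L1 0 [] := List.Pairwise.nil
    have e2 : zB1 0 [] = true := decide_eq_true List.Pairwise.nil
    have e3 : decide (nup 0 []) = false := decide_eq_false (fun h => h)
    simp only [stB, if_pos e1, e2, e3]
    rfl
  have a1 : ascA none [0] = 0 := by
    have : ¬ upp none 0 := by
      rintro ⟨b, hb, _⟩
      simp at hb
    simp [ascA, this]
  rw [s1, s2, a1]
  simp [desB]

/-! ### Second pair -/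

/-- `x < a < y` -/
def L2 (a x y : ℕ) : Prop := x < a ∧ a < y

/-- Number of admissible entries. -/
noncomputable def ac : List ℕ → ℕ
  | [] => 0
  | a :: w => (if cnd L2 a w then 1 else 0) + ac w

theorem ac_append_le (p r : List ℕ) : ac r ≤ ac (p ++ r) := by
  induction p with
  | nil => exact le_rfl
  | cons b p ih =>
    rw [List.cons_append, ac]
    omega

theorem ac_suffix {r w : List ℕ} (h : r <:+ w) : ac r ≤ ac w := by
  obtain ⟨p, rfl⟩ := h
  exact ac_append_le p r

theorem stA_length (dat : ℕ → List ℕ → ℕ) (w : List ℕ) : ∀ prev,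
    (stA L2 dat prev w).length = ac w := by
  induction w with
  | nil => intro prev; rfl
  | cons a w ih =>
    intro prev
    simp only [stA, ac, List.length_append, ih]
    congr 1
    split_ifs <;> rfl

theorem stB_length (dat : ℕ → List ℕ → ℕ) (w : List ℕ) : (stB L2 dat w).length = ac w := by
  induction w with
  | nil => rfl
  | cons a w ih =>
    simp only [stB, ac, List.length_append, ih]
    congr 1
    split_ifs <;> rfl

/-- Remove the initial entries which are at least `b`. -/
noncomputable def dw (b : ℕ) : List ℕ → List ℕ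
  | [] => []
  | x :: w => if b ≤ x then dw b w else x :: w

theorem dw_suffix (b : ℕ) (w : List ℕ) : dw b w <:+ w := by
  induction w with
  | nil => exact List.suffix_rfl
  | cons x w ih =>
    unfold dw
    split_ifs
    · exact ih.trans (List.suffix_cons x w)
    · exact List.suffix_rfl

theorem dw_all {b : ℕ} {p : List ℕ} (h : ∀ x ∈ p, b ≤ x) (r : List ℕ) :
    dw b (p ++ r) = dw b r := by
  induction p with
  | nil => rfl
  | cons x p ih =>
    rw [List.cons_append, dw, if_pos (h x (by simp)), ih (fun x hx => h x (by simp [hx]))]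

theorem dw_not {b : ℕ} {p : List ℕ} (h : ¬ ∀ x ∈ p, b ≤ x) :
    ∃ c p3, ∀ r, dw b (p ++ r) = c :: (p3 ++ r) := by
  induction p with
  | nil => exact absurd (by simp) h
  | cons x p ih =>
    by_cases hx : b ≤ x
    · have h1 : ¬ ∀ y ∈ p, b ≤ y := by
        intro h2
        apply h
        intro y hy
        rcases List.mem_cons.mp hy with rfl | hy
        · exact hx
        · exact h2 y hy
      obtain ⟨c, p3, h3⟩ := ih h1
      refine ⟨c, p3, fun r => ?_⟩
      rw [List.cons_append, dw, if_pos hx, h3]
    · refine ⟨x, p, fun r => ?_⟩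
      rw [List.cons_append, dw, if_neg hx]

noncomputable def zA2 (a : ℕ) (w : List ℕ) : ℕ := ac (dw a w).tail
noncomputable def zB2 (a : ℕ) (w : List ℕ) : ℕ := ac (dw a w)

theorem cnd2_insert {b N : ℕ} (h : b < N) (p r : List ℕ) :
    cnd L2 b (p ++ N :: r) ↔ (cnd L2 b (p ++ r) ∧ ∀ x ∈ p, b ≤ x) := by
  unfold cnd
  rw [List.pairwise_append, List.pairwise_append, List.pairwise_cons]
  constructor
  · rintro ⟨h1, ⟨_, h2⟩, h3⟩
    refine ⟨⟨h1, h2, fun x hx y hy => h3 x hx y (by simp [hy])⟩, fun x hx => ?_⟩
    have := h3 x hx N (by simp)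
    by_contra hc
    exact this ⟨by omega, h⟩
  · rintro ⟨⟨h1, h2, h3⟩, h4⟩
    refine ⟨h1, ⟨?_, h2⟩, ?_⟩
    · rintro y _ ⟨h5, _⟩
      omega
    · intro x hx y hy
      rcases List.mem_cons.mp hy with rfl | hy
      · rintro ⟨h5, _⟩
        have := h4 x hx
        omega
      · exact h3 x hx y hy

theorem cnd2_max {N : ℕ} {w : List ℕ} (h : ∀ x ∈ w, x < N) : cnd L2 N w := by
  unfold cnd
  apply List.Pairwise.imp_of_mem (R := fun _ _ => True)
  · rintro x y _ hy _ ⟨_, h2⟩
    have := h y hy
    omega
  · exact List.pairwise_of_forall (fun _ _ => trivial)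

theorem slA2 {N a : ℕ} {w : List ℕ} (hc : cnd L2 a w) (p : List ℕ) : ∀ prev : Option ℕ,
    (∀ x ∈ p, x < N) →
    slA L2 zA2 prev p (N :: a :: w) = sv (ac w) (slA L2 zA2 prev p (a :: w)) := by
  induction p with
  | nil => intro prev _; rfl
  | cons b p ih =>
    intro prev hp
    have hb : b < N := hp b (by simp)
    simp only [slA, sv_append]
    rw [ih (some b) (fun x hx => hp x (by simp [hx]))]
    congr 1
    have h1 := cnd2_insert hb p (a :: w)
    by_cases hall : ∀ x ∈ p, b ≤ x
    · have e1 : zA2 b (p ++ N :: a :: w) = zA2 b (p ++ a :: w) := by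
        unfold zA2
        rw [dw_all hall, dw_all hall, dw, if_pos hb.le]
      have e2 : zA2 b (p ++ a :: w) ≤ ac w := by
        unfold zA2
        rw [dw_all hall, dw]
        split_ifs
        · exact ac_suffix ((List.tail_suffix _).trans (dw_suffix b w))
        · exact le_rfl
      by_cases h2 : cnd L2 b (p ++ a :: w)
      · rw [if_pos h2, if_pos (h1.mpr ⟨h2, hall⟩), e1, sv_cons_pos e2]
        rfl
      · rw [if_neg h2, if_neg (fun h => h2 (h1.mp h).1)]
        rfl
    · rw [if_neg (fun h => hall (h1.mp h).2)]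
      split_ifs
      · obtain ⟨c, p3, h3⟩ := dw_not hall
        have e2 : ¬ zA2 b (p ++ a :: w) ≤ ac w := by
          unfold zA2
          rw [h3]
          have h4 := ac_append_le p3 (a :: w)
          rw [ac, if_pos hc] at h4
          simp only [List.tail_cons]
          omega
        rw [sv_cons_neg e2]
        rfl
      · rfl

theorem HA2 (p : List ℕ) (a : ℕ) (w : List ℕ) (N : ℕ) (hN : ∀ x ∈ p ++ a :: w, x < N)
    (hc : cnd L2 a w) : stA L2 zA2 none (p ++ N :: a :: w) =
      nw2 YA2 (slA L2 zA2 none p (a :: w)) (zA2 a w, decide (dnn (lastO none p) a))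
        (stA L2 zA2 (some a) w) := by
  have hp : ∀ x ∈ p, x < N := fun x hx => hN x (by simp [hx])
  have haw : ∀ x ∈ a :: w, x < N := fun x hx => hN x (List.mem_append_right _ hx)
  have ha : a < N := haw a (by simp)
  rw [stA_split, slA2 hc p none hp, nw2, stA_length]
  congr 1
  have e1 : decide (dnn (lastO none p) N) = false :=
    decide_eq_false (not_dnn (lastO_lt p none (by simp) hp))
  have e2 : decide (dnn (some N) a) = true := decide_eq_true (dnn_some ha)
  have e3 : zA2 N (a :: w) = ac w := by
    unfold zA2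
    rw [dw, if_neg (by omega)]
    rfl
  simp only [stA, if_pos hc, if_pos (cnd2_max haw), e1, e2, e3]
  rfl

theorem slB2 {N a : ℕ} {w : List ℕ} (_ha : a < N) (hc : cnd L2 a w) (p : List ℕ)
    (hp : ∀ x ∈ p, x < N) :
    slB L2 zB2 p (a :: N :: w) = sv (ac w) (slB L2 zB2 p (a :: w)) := by
  induction p with
  | nil => rfl
  | cons b p ih =>
    have hb : b < N := hp b (by simp)
    simp only [slB, sv_append]
    rw [ih (fun x hx => hp x (by simp [hx]))]
    congr 1
    have h1 : cnd L2 b (p ++ a :: N :: w) ↔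
        (cnd L2 b (p ++ a :: w) ∧ ∀ x ∈ p ++ [a], b ≤ x) := by
      have := cnd2_insert hb (p ++ [a]) w
      simpa only [List.append_assoc, List.cons_append, List.nil_append] using this
    have h4 : decide (nup b (p ++ a :: N :: w)) = decide (nup b (p ++ a :: w)) := by
      rw [decide_eq_decide]
      exact nup_append b a p _ _
    have g1 : p ++ a :: N :: w = (p ++ [a]) ++ N :: w := by simp
    have g2 : p ++ a :: w = (p ++ [a]) ++ w := by simp
    by_cases hall : ∀ x ∈ p ++ [a], b ≤ x
    · have e1 : zB2 b (p ++ a :: N :: w) = zB2 b (p ++ a :: w) := by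
        unfold zB2
        rw [g1, g2, dw_all hall, dw_all hall, dw, if_pos hb.le]
      have e2 : zB2 b (p ++ a :: w) ≤ ac w := by
        unfold zB2
        rw [g2, dw_all hall]
        exact ac_suffix (dw_suffix b w)
      by_cases h2 : cnd L2 b (p ++ a :: w)
      · rw [if_pos h2, if_pos (h1.mpr ⟨h2, hall⟩), e1, h4, sv_cons_pos e2]
        rfl
      · rw [if_neg h2, if_neg (fun h => h2 (h1.mp h).1)]
        rfl
    · rw [if_neg (fun h => hall (h1.mp h).2)]
      split_ifs
      · have e2 : ¬ zB2 b (p ++ a :: w) ≤ ac w := by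
          unfold zB2
          have h5 : ac (a :: w) = 1 + ac w := by rw [ac, if_pos hc]
          by_cases hp' : ∀ x ∈ p, b ≤ x
          · have hab : ¬ b ≤ a := by
              intro hab
              apply hall
              intro x hx
              rcases List.mem_append.mp hx with hx | hx
              · exact hp' x hx
              · have : x = a := by simpa using hx
                rw [this]
                exact hab
            rw [dw_all hp', dw, if_neg hab]
            omega
          · obtain ⟨c, p3, h3⟩ := dw_not hp'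
            rw [h3]
            have h6 := ac_append_le (c :: p3) (a :: w)
            rw [List.cons_append] at h6
            omega
        rw [sv_cons_neg e2]
        rfl
      · rfl

theorem HB2 (p : List ℕ) (a : ℕ) (w : List ℕ) (N : ℕ) (hN : ∀ x ∈ p ++ a :: w, x < N)
    (hc : cnd L2 a w) : stB L2 zB2 (p ++ a :: N :: w) =
      nw2 YB2 (slB L2 zB2 p (a :: w)) (zB2 a w, decide (nup a w)) (stB L2 zB2 w) := by
  have hp : ∀ x ∈ p, x < N := fun x hx => hN x (by simp [hx])
  have hw : ∀ x ∈ w, x < N := fun x hx => hN x (by simp [hx])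
  have ha : a < N := hN a (by simp)
  rw [stB_split, slB2 ha hc p hp, nw2, stB_length]
  congr 1
  have e1 : decide (nup N w) = false := by
    apply decide_eq_false
    rcases w with _ | ⟨b, v⟩
    · exact fun h => h
    · exact fun h => h (hw b (by simp))
  have e2 : decide (nup a (N :: w)) = true := by
    apply decide_eq_true
    show ¬ N < a
    omega
  have e3 : zB2 a (N :: w) = zB2 a w := by
    unfold zB2
    rw [dw, if_pos ha.le]
  have e4 : zB2 N w = ac w := by
    unfold zB2
    rcases w with _ | ⟨b, v⟩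
    · rfl
    · rw [dw, if_neg (by have := hw b (by simp); omega)]
  have hc' : cnd L2 a (N :: w) := (cnd2_insert ha [] w).mpr ⟨hc, by simp⟩
  simp only [stB, if_pos hc', if_pos (cnd2_max hw), e1, e2, e3, e4]
  rfl

theorem words2 [IsDomain K] {q : K} (hq : q ≠ 0) (n : ℕ) :
    ((TA L2 n).map (fun l => q ^ ascA none l)).sum = ((TB L2 n).map (fun l => q ^ desB l)).sum := by
  have h1 := sum_TA L2 q n 0
  have h2 := sum_TB L2 q n 0
  have g1 : (fun l => q ^ ascA none l) = DA L2 q 0 (n + 1) := rfl
  have g2 : (fun l => q ^ desB l) = DB L2 q 0 (n + 1) := rfl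
  have s1 : stA L2 zA2 none [0] = [(0, false)] := by
    have e1 : cnd L2 0 [] := List.Pairwise.nil
    have e2 : zA2 0 [] = 0 := rfl
    have e3 : decide (dnn none 0) = false := decide_eq_false (not_dnn (by simp))
    simp only [stA, if_pos e1, e2, e3]
    rfl
  have s2 : stB L2 zB2 [0] = [(0, false)] := by
    have e1 : cnd L2 0 [] := List.Pairwise.nil
    have e2 : zB2 0 [] = 0 := rfl
    have e3 : decide (nup 0 []) = false := decide_eq_false (fun h => h)
    simp only [stB, if_pos e1, e2, e3]
    rfl
  rw [g1, g2, h1, h2, DA_eq L2 q zA2 (nw2 YA2) HA2 _ 1 [0] (by simp),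
    DB_eq L2 q zB2 (nw2 YB2) HB2 _ 1 [0] (by simp), s1, s2,
    machine2 hq _ _ (show Inv [(0, false)] from ⟨le_rfl, trivial⟩)]
  have a1 : ascA none [0] = 0 := by
    have : ¬ upp none 0 := by
      rintro ⟨b, hb, _⟩
      simp at hb
    simp [ascA, this]
  rw [a1]
  simp [desB]

end R209.DW
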