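import Mathlib

/-!
# Insertion machines and their equivalences

States are lists of active sites.  A machine replaces a site and its left part; `Mc` sums the
weights of all runs.
-/

namespace R209.DW

variable {K : Type*} [CommRing K] {σ : Type*}

/-- Sum over all ways to write a list as `p ++ t :: r`. -/
def sp : (List σ → σ → List σ → K) → List σ → K
  | _, [] => 0
  | F, s :: S => F [] s S + sp (fun p t r => F (s :: p) t r) S

theorem sp_append (S1 : List σ) : ∀ (F : List σ → σ → List σ → K) (S2 : List σ),
    sp F (S1 ++ S2) = sp (fun p t r => F p t (r ++ S2)) S1 + sp (fun p t r => F (S1 ++ p) t r) S2 := by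
  induction S1 with
  | nil => intro F S2; simp [sp]
  | cons s S1 ih =>
    intro F S2
    simp only [List.cons_append, sp, ih, add_assoc]

theorem sp_congr {F G : List σ → σ → List σ → K} {S : List σ}
    (h : ∀ p t r, S = p ++ t :: r → F p t r = G p t r) : sp F S = sp G S := by
  induction S generalizing F G with
  | nil => rfl
  | cons s S ih =>
    simp only [sp]
    rw [h [] s S rfl, ih (fun p t r hS => h (s :: p) t r (by rw [hS]; rfl))]

theorem sp_add (F G : List σ → σ → List σ → K) (S : List σ) :
    sp (fun p t r => F p t r + G p t r) S = sp F S + sp G S := by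
  induction S generalizing F G with
  | nil => simp [sp]
  | cons s S ih =>
    simp only [sp, ih]
    ring

theorem sp_mul (c : K) (F : List σ → σ → List σ → K) (S : List σ) :
    sp (fun p t r => c * F p t r) S = c * sp F S := by
  induction S generalizing F with
  | nil => simp [sp]
  | cons s S ih =>
    simp only [sp, ih]
    ring

theorem sp_map (g : σ → σ) (F : List σ → σ → List σ → K) (S : List σ) :
    sp F (S.map g) = sp (fun p t r => F (p.map g) (g t) (r.map g)) S := by
  induction S generalizing F with
  | nil => rfl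
  | cons s S ih =>
    simp only [List.map_cons, sp, ih, List.map_nil]

/-- A machine: weights `w`, new states `nw`; total weight of all runs of `k` steps. -/
def Mc (w : σ → K) (nw : List σ → σ → List σ → List σ) : ℕ → List σ → K
  | 0, _ => 1
  | k + 1, S => sp (fun p s r => w s * Mc w nw k (nw p s r)) S

variable {δ : Type*}

/-- The weight of a site: `q` for the type `true`, else `1`. -/
def wt (q : K) (s : δ × Bool) : K := if s.2 then q else 1

/-! ### The first machine -/

/-- Forget the zone flag. -/
def unz (s : Bool × Bool) : Bool × Bool := (false, s.2)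

def nw1 (Y : Bool → List (Bool × Bool)) (p : List (Bool × Bool)) (s : Bool × Bool)
    (r : List (Bool × Bool)) : List (Bool × Bool) := p.map unz ++ (Y s.1 ++ r)

theorem R1 (q : K) (Y : Bool → List (Bool × Bool)) (k : ℕ) :
    ∀ (S1 : List (Bool × Bool)) (z : Bool) (S2 : List (Bool × Bool)),
      q * Mc (wt q) (nw1 Y) k (S1 ++ (z, false) :: S2) =
        Mc (wt q) (nw1 Y) k (S1 ++ (z, true) :: S2) + (q - 1) * Mc (wt q) (nw1 Y) k (S1 ++ S2) := by
  induction k with
  | zero => intro S1 z S2; simp [Mc]
  | succ k ih =>
    intro S1 z S2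
    simp only [Mc, sp_append, sp]
    have e1 : ∀ (p : List (Bool × Bool)) (t : Bool × Bool) (r : List (Bool × Bool)),
        q * (wt q t * Mc (wt q) (nw1 Y) k (nw1 Y p t (r ++ (z, false) :: S2))) =
        wt q t * Mc (wt q) (nw1 Y) k (nw1 Y p t (r ++ (z, true) :: S2)) +
        (q - 1) * (wt q t * Mc (wt q) (nw1 Y) k (nw1 Y p t (r ++ S2))) := by
      intro p t r
      have := ih (p.map unz ++ (Y t.1 ++ r)) z S2
      simp only [nw1]
      simp only [List.append_assoc] at this ⊢
      linear_combination (wt q t) * this
    have e2 : ∀ (p : List (Bool × Bool)) (t : Bool × Bool) (r : List (Bool × Bool)),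
        q * (wt q t * Mc (wt q) (nw1 Y) k (nw1 Y (S1 ++ (z, false) :: p) t r)) =
        wt q t * Mc (wt q) (nw1 Y) k (nw1 Y (S1 ++ (z, true) :: p) t r) +
        (q - 1) * (wt q t * Mc (wt q) (nw1 Y) k (nw1 Y (S1 ++ p) t r)) := by
      intro p t r
      have := ih (S1.map unz) false (p.map unz ++ (Y t.1 ++ r))
      simp only [nw1, List.map_append, List.map_cons, unz]
      simp only [List.append_assoc, List.cons_append] at this ⊢
      linear_combination (wt q t) * this
    have f1 := sp_congr (S := S1) (F := fun p t r => q * (wt q t *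
      Mc (wt q) (nw1 Y) k (nw1 Y p t (r ++ (z, false) :: S2)))) (fun p t r _ => e1 p t r)
    have f2 := sp_congr (S := S2) (F := fun p t r => q * (wt q t *
      Mc (wt q) (nw1 Y) k (nw1 Y (S1 ++ (z, false) :: p) t r))) (fun p t r _ => e2 p t r)
    rw [sp_mul, sp_add, sp_mul] at f1 f2
    have e3 : nw1 Y (S1 ++ []) (z, false) S2 = nw1 Y (S1 ++ []) (z, true) S2 := rfl
    have e4 : wt q ((z, false) : Bool × Bool) = 1 := rfl
    have e5 : wt q ((z, true) : Bool × Bool) = q := rfl
    rw [e3, e4, e5]
    linear_combination f1 + f2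

/-- New sites, machine A. -/
def YA1 : Bool → List (Bool × Bool)
  | true => [(true, false), (true, true)]
  | false => [(false, true)]

/-- New sites, machine B. -/
def YB1 : Bool → List (Bool × Bool)
  | true => [(true, true), (true, false)]
  | false => [(false, true)]

theorem machine1 [IsDomain K] {q : K} (hq : q ≠ 0) (k : ℕ) :
    ∀ S : List (Bool × Bool), Mc (wt q) (nw1 YA1) k S = Mc (wt q) (nw1 YB1) k S := by
  induction k with
  | zero => intro S; rfl
  | succ k ih =>
    intro S
    simp only [Mc]
    apply sp_congr
    intro p s r _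
    rw [ih]
    congr 1
    obtain ⟨z, b⟩ := s
    cases z
    · rfl
    · apply mul_left_cancel₀ hq
      have h1 := R1 q YB1 k (p.map unz) true ((true, true) :: r)
      have h2 := R1 q YB1 k (p.map unz ++ [(true, true)]) true r
      simp only [nw1, YA1, YB1]
      simp only [List.append_assoc, List.cons_append, List.nil_append] at h1 h2 ⊢
      rw [h1, h2]

/-! ### The second machine -/

/-- Removal of the site with index `j` lowers larger thresholds. -/
def dec (j : ℕ) (s : ℕ × Bool) : ℕ × Bool := (if j < s.1 then s.1 - 1 else s.1, s.2)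

/-- The sites which survive an insertion at index `i`. -/
def sv (i : ℕ) (p : List (ℕ × Bool)) : List (ℕ × Bool) := p.filter (fun s => decide (s.1 ≤ i))

def nw2 (Y : ℕ → ℕ → List (ℕ × Bool)) (p : List (ℕ × Bool)) (s : ℕ × Bool)
    (r : List (ℕ × Bool)) : List (ℕ × Bool) := sv r.length p ++ (Y r.length s.1 ++ r)

theorem sv_append (i : ℕ) (p p' : List (ℕ × Bool)) : sv i (p ++ p') = sv i p ++ sv i p' := by
  simp [sv]

theorem sv_cons_pos {i : ℕ} {s : ℕ × Bool} (h : s.1 ≤ i) (p : List (ℕ × Bool)) :
    sv i (s :: p) = s :: sv i p := by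
  simp [sv, h]

theorem sv_cons_neg {i : ℕ} {s : ℕ × Bool} (h : ¬ s.1 ≤ i) (p : List (ℕ × Bool)) :
    sv i (s :: p) = sv i p := by
  simp only [sv]
  rw [List.filter_cons_of_neg]
  simpa using h

theorem mem_sv {i : ℕ} {p : List (ℕ × Bool)} {s : ℕ × Bool} (h : s ∈ sv i p) : s.1 ≤ i := by
  simpa [sv] using (List.mem_filter.mp h).2

theorem sv_dec_lt {i j : ℕ} (h : i < j) (p : List (ℕ × Bool)) : sv i (p.map (dec j)) = sv i p := by
  induction p with
  | nil => rfl
  | cons s p ih =>
    rw [List.map_cons]
    by_cases h1 : j < s.1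
    · have h2 : ¬ (dec j s).1 ≤ i := by
        simp only [dec, h1, if_true]
        omega
      rw [sv_cons_neg h2, sv_cons_neg (by omega), ih]
    · have h2 : dec j s = s := by
        simp only [dec, h1, if_false]
      rw [h2]
      by_cases h3 : s.1 ≤ i
      · rw [sv_cons_pos h3, sv_cons_pos h3, ih]
      · rw [sv_cons_neg h3, sv_cons_neg h3, ih]

theorem sv_dec_ge {i j : ℕ} (h : j ≤ i) (p : List (ℕ × Bool)) :
    sv i (p.map (dec j)) = (sv (i + 1) p).map (dec j) := by
  induction p with
  | nil => rfl
  | cons s p ih =>
    rw [List.map_cons]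
    by_cases h3 : s.1 ≤ i + 1
    · have h2 : (dec j s).1 ≤ i := by
        simp only [dec]
        split_ifs <;> omega
      rw [sv_cons_pos h2, sv_cons_pos h3, ih, List.map_cons]
    · have h2 : ¬ (dec j s).1 ≤ i := by
        simp only [dec]
        split_ifs <;> omega
      rw [sv_cons_neg h2, sv_cons_neg h3, ih]

theorem map_dec_id {j : ℕ} {p : List (ℕ × Bool)} (h : ∀ s ∈ p, s.1 ≤ j) : p.map (dec j) = p := by
  induction p with
  | nil => rfl
  | cons s p ih =>
    have h1 := h s (by simp)
    have h2 : dec j s = s := by
      simp only [dec, if_neg (show ¬ j < s.1 by omega)]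
    rw [List.map_cons, h2, ih (fun s hs => h s (by simp [hs]))]

theorem wt_dec (q : K) (j : ℕ) (s : ℕ × Bool) : wt q (dec j s) = wt q s := rfl

theorem R2 (q : K) (Y : ℕ → ℕ → List (ℕ × Bool))
    (hY : ∀ i j t, j ≤ i → (Y (i + 1) t).map (dec j) = Y i (dec j (t, true)).1) (k : ℕ) :
    ∀ (S1 : List (ℕ × Bool)) (t : ℕ) (S2 : List (ℕ × Bool)),
      q * Mc (wt q) (nw2 Y) k (S1 ++ (t, false) :: S2) =
        Mc (wt q) (nw2 Y) k (S1 ++ (t, true) :: S2) +
        (q - 1) * Mc (wt q) (nw2 Y) k (S1.map (dec S2.length) ++ S2) := by
  induction k with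
  | zero => intro S1 t S2; simp [Mc]
  | succ k ih =>
    intro S1 t S2
    simp only [Mc, sp_append, sp, sp_map]
    have e1 : ∀ (p : List (ℕ × Bool)) (u : ℕ × Bool) (r : List (ℕ × Bool)),
        q * (wt q u * Mc (wt q) (nw2 Y) k (nw2 Y p u (r ++ (t, false) :: S2))) =
        wt q u * Mc (wt q) (nw2 Y) k (nw2 Y p u (r ++ (t, true) :: S2)) +
        (q - 1) * (wt q (dec S2.length u) * Mc (wt q) (nw2 Y) k
          (nw2 Y (p.map (dec S2.length)) (dec S2.length u) (r.map (dec S2.length) ++ S2))) := by
      intro p u r
      have h1 := ih (sv (r.length + S2.length + 1) p ++ (Y (r.length + S2.length + 1) u.1 ++ r)) t S2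
      have l1 : (r ++ (t, false) :: S2).length = r.length + S2.length + 1 := by
        simp [add_assoc]
      have l2 : (r ++ (t, true) :: S2).length = r.length + S2.length + 1 := by
        simp [add_assoc]
      have l3 : (r.map (dec S2.length) ++ S2).length = r.length + S2.length := by
        simp
      simp only [nw2, l1, l2, l3, wt_dec]
      rw [sv_dec_ge (by omega)]
      have e : Y (r.length + S2.length) (dec S2.length u).1 =
          (Y (r.length + S2.length + 1) u.1).map (dec S2.length) := by
        rw [hY _ _ _ (by omega)]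
        rfl
      rw [e]
      simp only [List.append_assoc, List.map_append] at h1 ⊢
      linear_combination (wt q u) * h1
    have e2 : ∀ (p : List (ℕ × Bool)) (u : ℕ × Bool) (r : List (ℕ × Bool)), S2 = p ++ u :: r →
        q * (wt q u * Mc (wt q) (nw2 Y) k (nw2 Y (S1 ++ (t, false) :: p) u r)) =
        wt q u * Mc (wt q) (nw2 Y) k (nw2 Y (S1 ++ (t, true) :: p) u r) +
        (q - 1) * (wt q u * Mc (wt q) (nw2 Y) k (nw2 Y (S1.map (dec S2.length) ++ p) u r)) := by
      intro p u r hS
      have hl : r.length < S2.length := by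
        rw [hS]
        simp
        omega
      simp only [nw2, sv_append]
      rw [sv_dec_lt hl]
      by_cases ht : t ≤ r.length
      · rw [sv_cons_pos (s := (t, false)) ht, sv_cons_pos (s := (t, true)) ht]
        have h1 := ih (sv r.length S1) t (sv r.length p ++ (Y r.length u.1 ++ r))
        rw [map_dec_id (p := sv r.length S1) (fun s hs => le_trans (mem_sv hs) (by
          simp only [List.length_append]; omega))] at h1
        simp only [List.append_assoc, List.cons_append] at h1 ⊢
        linear_combination (wt q u) * h1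
      · rw [sv_cons_neg (s := (t, false)) ht, sv_cons_neg (s := (t, true)) ht]
        ring
    have f1 := sp_congr (S := S1) (F := fun p u r => q * (wt q u *
      Mc (wt q) (nw2 Y) k (nw2 Y p u (r ++ (t, false) :: S2)))) (fun p u r _ => e1 p u r)
    have f2 := sp_congr (S := S2) (F := fun p u r => q * (wt q u *
      Mc (wt q) (nw2 Y) k (nw2 Y (S1 ++ (t, false) :: p) u r))) e2
    rw [sp_mul, sp_add, sp_mul] at f1 f2
    have e3 : nw2 Y (S1 ++ []) (t, false) S2 = nw2 Y (S1 ++ []) (t, true) S2 := rfl
    have e4 : wt q ((t, false) : ℕ × Bool) = 1 := rfl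
    have e5 : wt q ((t, true) : ℕ × Bool) = q := rfl
    rw [e3, e4, e5]
    linear_combination f1 + f2

/-- New sites, machine A. -/
def YA2 (i t : ℕ) : List (ℕ × Bool) := [(i, false), (t, true)]

/-- New sites, machine B. -/
def YB2 (i t : ℕ) : List (ℕ × Bool) := [(t, true), (i, false)]

theorem YB2_dec (i j t : ℕ) (h : j ≤ i) :
    (YB2 (i + 1) t).map (dec j) = YB2 i (dec j (t, true)).1 := by
  simp only [YB2, List.map_cons, List.map_nil, dec]
  rw [if_pos (show j < i + 1 by omega)]
  rfl

theorem swap2 [IsDomain K] {q : K} (hq : q ≠ 0) (k : ℕ) :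
    ∀ (P : List (ℕ × Bool)) (x y : ℕ) (S : List (ℕ × Bool)), x ≤ S.length → y ≤ S.length →
      Mc (wt q) (nw2 YB2) k (P ++ (x, true) :: (y, true) :: S) =
        Mc (wt q) (nw2 YB2) k (P ++ (y, true) :: (x, true) :: S) := by
  induction k with
  | zero => intro P x y S _ _; rfl
  | succ k ih =>
    intro P x y S hx hy
    simp only [Mc, sp_append, sp]
    have f1 : sp (fun p u r => wt q u * Mc (wt q) (nw2 YB2) k
          (nw2 YB2 p u (r ++ (x, true) :: (y, true) :: S))) P =
        sp (fun p u r => wt q u * Mc (wt q) (nw2 YB2) k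
          (nw2 YB2 p u (r ++ (y, true) :: (x, true) :: S))) P := by
      apply sp_congr
      intro p u r _
      congr 1
      have l : (r ++ (x, true) :: (y, true) :: S).length =
          (r ++ (y, true) :: (x, true) :: S).length := by simp
      simp only [nw2, l]
      have := ih (sv (r ++ (y, true) :: (x, true) :: S).length p ++
        (YB2 (r ++ (y, true) :: (x, true) :: S).length u.1 ++ r)) x y S hx hy
      simpa only [List.append_assoc] using this
    have f2 : sp (fun p u r => wt q u * Mc (wt q) (nw2 YB2) k
          (nw2 YB2 (P ++ (x, true) :: (y, true) :: p) u r)) S =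
        sp (fun p u r => wt q u * Mc (wt q) (nw2 YB2) k
          (nw2 YB2 (P ++ (y, true) :: (x, true) :: p) u r)) S := by
      apply sp_congr
      intro p u r _
      congr 1
      simp only [nw2, sv_append]
      by_cases h1 : x ≤ r.length
      · by_cases h2 : y ≤ r.length
        · rw [sv_cons_pos (s := (x, true)) h1, sv_cons_pos (s := (y, true)) h2,
            sv_cons_pos (s := (y, true)) h2, sv_cons_pos (s := (x, true)) h1]
          have := ih (sv r.length P) x y (sv r.length p ++ (YB2 r.length u.1 ++ r))
            (by simp only [List.length_append]; omega) (by simp only [List.length_append]; omega)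
          simpa only [List.append_assoc, List.cons_append] using this
        · rw [sv_cons_pos (s := (x, true)) h1, sv_cons_neg (s := (y, true)) h2,
            sv_cons_neg (s := (y, true)) h2, sv_cons_pos (s := (x, true)) h1]
      · by_cases h2 : y ≤ r.length
        · rw [sv_cons_neg (s := (x, true)) h1, sv_cons_pos (s := (y, true)) h2,
            sv_cons_pos (s := (y, true)) h2, sv_cons_neg (s := (x, true)) h1]
        · rw [sv_cons_neg (s := (x, true)) h1, sv_cons_neg (s := (y, true)) h2,
            sv_cons_neg (s := (y, true)) h2, sv_cons_neg (s := (x, true)) h1]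
    -- the insertions at the two sites
    set i := S.length with hi
    have g1 : ∀ x y : ℕ, x ≤ i → y ≤ i → nw2 YB2 (P ++ []) (x, true) ((y, true) :: S) =
        sv (i + 1) P ++ (x, true) :: (i + 1, false) :: (y, true) :: S := by
      intro x y _ _
      simp [nw2, YB2, hi]
    have g2 : ∀ x y : ℕ, x ≤ i → y ≤ i → nw2 YB2 (P ++ [(x, true)]) (y, true) S =
        sv i P ++ (x, true) :: (y, true) :: (i, false) :: S := by
      intro x y hx _
      simp only [nw2, sv_append]
      rw [sv_cons_pos (s := (x, true)) hx]
      simp [YB2, sv, ← hi]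
    have g3 : Mc (wt q) (nw2 YB2) k (sv i P ++ (x, true) :: (y, true) :: (i, false) :: S) =
        Mc (wt q) (nw2 YB2) k (sv i P ++ (y, true) :: (x, true) :: (i, false) :: S) :=
      ih _ _ _ _ (by simp; omega) (by simp; omega)
    have g4 : Mc (wt q) (nw2 YB2) k
          (sv (i + 1) P ++ (x, true) :: (i + 1, false) :: (y, true) :: S) =
        Mc (wt q) (nw2 YB2) k
          (sv (i + 1) P ++ (y, true) :: (i + 1, false) :: (x, true) :: S) := by
      apply mul_left_cancel₀ hq
      set P' := sv (i + 1) P with hP'
      have r1 : ∀ x y : ℕ, x ≤ i → q * Mc (wt q) (nw2 YB2) k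
          (P' ++ (x, true) :: (i + 1, false) :: (y, true) :: S) =
          Mc (wt q) (nw2 YB2) k (P' ++ (x, true) :: (i + 1, true) :: (y, true) :: S) +
          (q - 1) * Mc (wt q) (nw2 YB2) k (P' ++ (x, true) :: (y, true) :: S) := by
        intro x y hx
        have h := R2 q YB2 YB2_dec k (P' ++ [(x, true)]) (i + 1) ((y, true) :: S)
        rw [map_dec_id (p := P' ++ [(x, true)]) (by
          intro s hs
          rcases List.mem_append.mp hs with h1 | h1
          · have := mem_sv h1
            simpa [hi] using this
          · have : s = (x, true) := by simpa using h1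
            rw [this]
            simp only [List.length_cons]
            omega)] at h
        simpa only [List.append_assoc, List.cons_append, List.nil_append] using h
      rw [r1 x y hx, r1 y x hy]
      have s1 := ih P' x (i + 1) ((y, true) :: S) (by simp; omega) (by simp [hi])
      have s2 := ih (P' ++ [(i + 1, true)]) x y S hx hy
      have s3 := ih P' (i + 1) y ((x, true) :: S) (by simp [hi]) (by simp; omega)
      simp only [List.append_assoc, List.cons_append, List.nil_append] at s2
      rw [s1, s2, s3, ih P' x y S hx hy]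
    have a1 := g1 x y hx hy
    have a2 := g2 x y hx hy
    have b1 := g1 y x hy hx
    have b2 := g2 y x hy hx
    have f2' : sp (fun p u r => wt q u * Mc (wt q) (nw2 YB2) k
          (nw2 YB2 (P ++ (x, true) :: (y, true) :: p) u r)) S =
        sp (fun p u r => wt q u * Mc (wt q) (nw2 YB2) k
          (nw2 YB2 (P ++ (y, true) :: (x, true) :: p) u r)) S := f2
    rw [f1, f2', a1, a2, b1, b2, g3, g4]
    have w1 : wt q ((x, true) : ℕ × Bool) = q := rfl
    have w2 : wt q ((y, true) : ℕ × Bool) = q := rfl
    rw [w1, w2]

/-- Every threshold is at most the number of sites to the right. -/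
def Inv : List (ℕ × Bool) → Prop
  | [] => True
  | s :: S => s.1 ≤ S.length ∧ Inv S

theorem Inv.append {p r : List (ℕ × Bool)} : Inv (p ++ r) → Inv r := by
  induction p with
  | nil => exact id
  | cons s p ih => exact fun h => ih h.2

theorem inv_append_of {i : ℕ} {p r : List (ℕ × Bool)} (hp : ∀ s ∈ p, s.1 ≤ i) (hi : i ≤ r.length)
    (hr : Inv r) : Inv (p ++ r) := by
  induction p with
  | nil => exact hr
  | cons s p ih =>
    refine ⟨?_, ih (fun s hs => hp s (by simp [hs]))⟩
    have := hp s (by simp)
    show s.1 ≤ (p ++ r).length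
    rw [List.length_append]
    omega

theorem machine2 [IsDomain K] {q : K} (hq : q ≠ 0) (k : ℕ) :
    ∀ S : List (ℕ × Bool), Inv S → Mc (wt q) (nw2 YA2) k S = Mc (wt q) (nw2 YB2) k S := by
  induction k with
  | zero => intro S _; rfl
  | succ k ih =>
    intro S hS
    simp only [Mc]
    apply sp_congr
    rintro p ⟨t, b⟩ r hs
    rw [hs] at hS
    obtain ⟨ht, hr⟩ := Inv.append hS
    simp only at ht
    have hinv : Inv (nw2 YA2 p (t, b) r) := by
      refine inv_append_of (i := r.length) (fun s hs => mem_sv hs) (by simp) ?_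
      exact ⟨by simp, ⟨ht, hr⟩⟩
    rw [ih _ hinv]
    congr 1
    apply mul_left_cancel₀ hq
    have hid1 : (sv r.length p).map (dec ((t, true) :: r).length) = sv r.length p :=
      map_dec_id (fun s hs => le_trans (mem_sv hs) (by simp))
    have hid2 : (sv r.length p ++ [(t, true)]).map (dec r.length) = sv r.length p ++ [(t, true)] := by
      apply map_dec_id
      intro s hs
      rcases List.mem_append.mp hs with h1 | h1
      · exact mem_sv h1
      · have : s = (t, true) := by simpa using h1
        rw [this]
        exact ht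
    have h1 := R2 q YB2 YB2_dec k (sv r.length p) r.length ((t, true) :: r)
    have h2 := R2 q YB2 YB2_dec k (sv r.length p ++ [(t, true)]) r.length r
    rw [hid1] at h1
    rw [hid2] at h2
    have gA : nw2 YA2 p (t, b) r = sv r.length p ++ (r.length, false) :: (t, true) :: r := rfl
    have gB : nw2 YB2 p (t, b) r = sv r.length p ++ (t, true) :: (r.length, false) :: r := rfl
    rw [gA, gB]
    simp only [List.append_assoc, List.cons_append, List.nil_append] at h2
    rw [h1, h2]
    have h3 := swap2 hq k (sv r.length p) r.length t r le_rfl ht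
    rw [h3]

end R209.DW
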