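import Pool.Agent.R209.DWPerm

/-!
# The four patterns
-/

namespace R209.DW

variable {n : ℕ}

theorem ord1243 (a b c d : ℕ) : (∀ x y : Fin 4, ![a, b, c, d] x < ![a, b, c, d] y ↔
    (![1, 2, 4, 3] : Fin 4 → ℕ) x < (![1, 2, 4, 3] : Fin 4 → ℕ) y) ↔ (a < b ∧ b < d ∧ d < c) := by
  constructor
  · intro h
    have h1 := h 0 1
    have h2 := h 1 3
    have h3 := h 3 2
    simp at h1 h2 h3
    exact ⟨h1, h2, h3⟩
  · rintro ⟨h1, h2, h3⟩ x y
    fin_cases x <;> fin_cases y <;> simp <;> omega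

theorem ord3412 (a b c d : ℕ) : (∀ x y : Fin 4, ![a, b, c, d] x < ![a, b, c, d] y ↔
    (![3, 4, 1, 2] : Fin 4 → ℕ) x < (![3, 4, 1, 2] : Fin 4 → ℕ) y) ↔ (c < d ∧ d < a ∧ a < b) := by
  constructor
  · intro h
    have h1 := h 2 3
    have h2 := h 3 0
    have h3 := h 0 1
    simp at h1 h2 h3
    exact ⟨h1, h2, h3⟩
  · rintro ⟨h1, h2, h3⟩ x y
    fin_cases x <;> fin_cases y <;> simp <;> omega

theorem ord1342 (a b c d : ℕ) : (∀ x y : Fin 4, ![a, b, c, d] x < ![a, b, c, d] y ↔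
    (![1, 3, 4, 2] : Fin 4 → ℕ) x < (![1, 3, 4, 2] : Fin 4 → ℕ) y) ↔ (a < d ∧ d < b ∧ b < c) := by
  constructor
  · intro h
    have h1 := h 0 3
    have h2 := h 3 1
    have h3 := h 1 2
    simp at h1 h2 h3
    exact ⟨h1, h2, h3⟩
  · rintro ⟨h1, h2, h3⟩ x y
    fin_cases x <;> fin_cases y <;> simp <;> omega

theorem ord2413 (a b c d : ℕ) : (∀ x y : Fin 4, ![a, b, c, d] x < ![a, b, c, d] y ↔
    (![2, 4, 1, 3] : Fin 4 → ℕ) x < (![2, 4, 1, 3] : Fin 4 → ℕ) y) ↔ (c < a ∧ a < d ∧ d < b) := by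
  constructor
  · intro h
    have h1 := h 2 0
    have h2 := h 0 3
    have h3 := h 3 1
    simp at h1 h2 h3
    exact ⟨h1, h2, h3⟩
  · rintro ⟨h1, h2, h3⟩ x y
    fin_cases x <;> fin_cases y <;> simp <;> omega

theorem contains_A {Q : ℕ → ℕ → ℕ → ℕ → Prop} (p : Fin 4 → ℕ) (σ : Equiv.Perm (Fin n))
    (H : ∀ a b c d, a < n → b < n → c < n → d < n →
      ((∀ x y : Fin 4, ![a, b, c, d] x < ![a, b, c, d] y ↔ p x < p y) ↔
        (n - b < n - a ∧ Q (n - b) (n - a) (n - c) (n - d)))) :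
    Contains p σ ↔ ¬ ClA Q (lA σ) := by
  rw [contains_iff, clA_getD]
  push Not
  rw [lA_length]
  constructor
  · rintro ⟨i, j, k, h1, h2, h3, h4⟩
    have h5 := (H _ _ _ _ (sg_lt σ (by omega)) (sg_lt σ (by omega)) (sg_lt σ (by omega))
      (sg_lt σ h3)).mp h4
    refine ⟨i, j, k, h1, h2, h3, ?_⟩
    rw [lA_getD σ (by omega : i < n), lA_getD σ (by omega : i + 1 < n),
      lA_getD σ (by omega : j < n), lA_getD σ h3]
    exact h5
  · rintro ⟨i, j, k, h1, h2, h3, h4⟩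
    rw [lA_getD σ (by omega : i < n), lA_getD σ (by omega : i + 1 < n),
      lA_getD σ (by omega : j < n), lA_getD σ h3] at h4
    exact ⟨i, j, k, h1, h2, h3, (H _ _ _ _ (sg_lt σ (by omega)) (sg_lt σ (by omega))
      (sg_lt σ (by omega)) (sg_lt σ h3)).mpr h4⟩

theorem contains_B {Q : ℕ → ℕ → ℕ → ℕ → Prop} (p : Fin 4 → ℕ) (σ : Equiv.Perm (Fin n))
    (H : ∀ a b c d : ℕ,
      ((∀ x y : Fin 4, ![a, b, c, d] x < ![a, b, c, d] y ↔ p x < p y) ↔
        (a + 1 < b + 1 ∧ Q (a + 1) (b + 1) (c + 1) (d + 1)))) :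
    Contains p σ ↔ ¬ ClB Q (lB σ) := by
  rw [contains_iff, clB_getD]
  push Not
  rw [lB_length]
  constructor
  · rintro ⟨i, j, k, h1, h2, h3, h4⟩
    refine ⟨i, j, k, h1, h2, h3, ?_⟩
    rw [lB_getD σ (by omega : i < n), lB_getD σ (by omega : i + 1 < n),
      lB_getD σ (by omega : j < n), lB_getD σ h3]
    exact (H _ _ _ _).mp h4
  · rintro ⟨i, j, k, h1, h2, h3, h4⟩
    rw [lB_getD σ (by omega : i < n), lB_getD σ (by omega : i + 1 < n),
      lB_getD σ (by omega : j < n), lB_getD σ h3] at h4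
    exact ⟨i, j, k, h1, h2, h3, (H _ _ _ _).mpr h4⟩

theorem equiv_1243_3412 (n : ℕ) : F ![1, 2, 4, 3] n = F ![3, 4, 1, 2] n := by
  rw [F_eq_A pat1 _ n (fun σ => contains_A _ σ (fun a b c d ha hb hc hd => by
      rw [ord1243]; unfold Q1; omega)),
    F_eq_B pat1 _ n (fun σ => contains_B _ σ (fun a b c d => by
      rw [ord3412]; unfold Q1; omega))]
  exact words1 Polynomial.X_ne_zero n

theorem equiv_1342_2413 (n : ℕ) : F ![1, 3, 4, 2] n = F ![2, 4, 1, 3] n := by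
  rw [F_eq_A pat2 _ n (fun σ => contains_A _ σ (fun a b c d ha hb hc hd => by
      rw [ord1342]; unfold Q2; omega)),
    F_eq_B pat2 _ n (fun σ => contains_B _ σ (fun a b c d => by
      rw [ord2413]; unfold Q2; omega))]
  exact words2 Polynomial.X_ne_zero n

end R209.DW
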