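import Pool.Agent.R209.DWTree
import Pool.Agent.R209.DWDefs

/-!
# Permutations and words
-/

namespace R209.DW

open Classical

variable {Q : ℕ → ℕ → ℕ → ℕ → Prop} {L : ℕ → ℕ → ℕ → Prop}

theorem Cc_getD {m M : ℕ} {R : List ℕ} : Cc Q m M R ↔
    ∀ j k, j < k → k < R.length → ¬ Q m M (R.getD j 0) (R.getD k 0) := by
  unfold Cc
  rw [List.pairwise_iff_getElem]
  constructor
  · intro h j k hjk hk
    rw [List.getD_eq_getElem _ _ hk, List.getD_eq_getElem _ _ (hjk.trans hk)]
    exact h j k _ _ hjk
  · intro h j k hj hk hjk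
    have := h j k hjk hk
    rwa [List.getD_eq_getElem _ _ hk, List.getD_eq_getElem _ _ hj] at this

theorem clA_getD (l : List ℕ) : ClA Q l ↔ ∀ i j k, i + 1 < j → j < k → k < l.length →
    l.getD (i + 1) 0 < l.getD i 0 →
      ¬ Q (l.getD (i + 1) 0) (l.getD i 0) (l.getD j 0) (l.getD k 0) := by
  induction l with
  | nil => simp [ClA]
  | cons M l ih =>
    rcases l with _ | ⟨m, R⟩
    · simp only [ClA, true_iff]
      intro i j k h1 h2 h3
      simp at h3
      omega
    · simp only [ClA]
      rw [ih, Cc_getD]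
      constructor
      · rintro ⟨h1, h2⟩ i j k hij hjk hk hlt
        obtain ⟨j', rfl⟩ : ∃ j', j = j' + 1 := ⟨j - 1, by omega⟩
        obtain ⟨k', rfl⟩ : ∃ k', k = k' + 1 := ⟨k - 1, by omega⟩
        rcases i with _ | i
        · obtain ⟨j'', rfl⟩ : ∃ j'', j' = j'' + 1 := ⟨j' - 1, by omega⟩
          obtain ⟨k'', rfl⟩ : ∃ k'', k' = k'' + 1 := ⟨k' - 1, by omega⟩
          simp only [List.getD_cons_succ, List.getD_cons_zero, List.length_cons] at hlt hk ⊢
          exact h1 hlt j'' k'' (by omega) (by omega)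
        · simp only [List.getD_cons_succ] at hlt ⊢
          exact h2 i j' k' (by omega) (by omega) (by simpa using hk) hlt
      · intro h
        refine ⟨fun hlt j k hjk hk => ?_, fun i j k hij hjk hk hlt => ?_⟩
        · have := h 0 (j + 2) (k + 2) (by omega) (by omega) (by simpa using hk)
          simp only [List.getD_cons_succ, List.getD_cons_zero] at this
          exact this hlt
        · have := h (i + 1) (j + 1) (k + 1) (by omega) (by omega) (by simpa using hk)
          simp only [List.getD_cons_succ] at this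
          exact this hlt

theorem clB_getD (l : List ℕ) : ClB Q l ↔ ∀ i j k, i + 1 < j → j < k → k < l.length →
    l.getD i 0 < l.getD (i + 1) 0 →
      ¬ Q (l.getD i 0) (l.getD (i + 1) 0) (l.getD j 0) (l.getD k 0) := by
  induction l with
  | nil => simp [ClB]
  | cons M l ih =>
    rcases l with _ | ⟨m, R⟩
    · simp only [ClB, true_iff]
      intro i j k h1 h2 h3
      simp at h3
      omega
    · simp only [ClB]
      rw [ih, Cc_getD]
      constructor
      · rintro ⟨h1, h2⟩ i j k hij hjk hk hlt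
        obtain ⟨j', rfl⟩ : ∃ j', j = j' + 1 := ⟨j - 1, by omega⟩
        obtain ⟨k', rfl⟩ : ∃ k', k = k' + 1 := ⟨k - 1, by omega⟩
        rcases i with _ | i
        · obtain ⟨j'', rfl⟩ : ∃ j'', j' = j'' + 1 := ⟨j' - 1, by omega⟩
          obtain ⟨k'', rfl⟩ : ∃ k'', k' = k'' + 1 := ⟨k' - 1, by omega⟩
          simp only [List.getD_cons_succ, List.getD_cons_zero, List.length_cons] at hlt hk ⊢
          exact h1 hlt j'' k'' (by omega) (by omega)
        · simp only [List.getD_cons_succ] at hlt ⊢
          exact h2 i j' k' (by omega) (by omega) (by simpa using hk) hlt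
      · intro h
        refine ⟨fun hlt j k hjk hk => ?_, fun i j k hij hjk hk hlt => ?_⟩
        · have := h 0 (j + 2) (k + 2) (by omega) (by omega) (by simpa using hk)
          simp only [List.getD_cons_succ, List.getD_cons_zero] at this
          exact this hlt
        · have := h (i + 1) (j + 1) (k + 1) (by omega) (by omega) (by simpa using hk)
          simp only [List.getD_cons_succ] at this
          exact this hlt

theorem clA_zero (h : Pat Q L) (l : List ℕ) : ClA Q (l ++ [0]) ↔ ClA Q l := by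
  induction l with
  | nil => exact Iff.rfl
  | cons M l ih =>
    rcases l with _ | ⟨m, R⟩
    · simp only [List.cons_append, List.nil_append, ClA, iff_true, and_true]
      intro _
      exact List.Pairwise.nil
    · simp only [List.cons_append, ClA] at ih ⊢
      have e : Cc Q m M (R ++ [0]) ↔ Cc Q m M R := by
        unfold Cc
        rw [List.pairwise_append]
        constructor
        · exact fun h => h.1
        · intro h'
          refine ⟨h', List.pairwise_singleton _ _, fun x _ y hy => ?_⟩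
          have : y = 0 := by simpa using hy
          rw [this]
          exact h.h0 m M x
      constructor
      · rintro ⟨h1, h2⟩
        exact ⟨fun h3 => e.mp (h1 h3), ih.mp h2⟩
      · rintro ⟨h1, h2⟩
        exact ⟨fun h3 => e.mpr (h1 h3), ih.mpr h2⟩

theorem clB_zero (h : Pat Q L) (l : List ℕ) : ClB Q (0 :: l) ↔ ClB Q l := by
  rcases l with _ | ⟨M, R⟩
  · exact Iff.rfl
  · simp only [ClB]
    constructor
    · exact fun h => h.2
    · intro h'
      refine ⟨fun _ => ?_, h'⟩
      exact List.pairwise_of_forall (fun x y => h.h0' M x y)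

theorem ascA_zero (l : List ℕ) : ∀ prev, ascA prev (l ++ [0]) = ascA prev l := by
  induction l with
  | nil =>
    intro prev
    have : ¬ upp prev 0 := by
      rintro ⟨b, _, hb⟩
      omega
    simp [ascA, this]
  | cons a l ih =>
    intro prev
    simp only [List.cons_append, ascA, ih]

theorem desB_zero (l : List ℕ) : desB (0 :: l) = desB l := by
  rcases l with _ | ⟨b, w⟩
  · rfl
  · simp [desB]

/-- Number of adjacent pairs in relation `r`. -/
noncomputable def G (r : ℕ → ℕ → Prop) (l : List ℕ) : ℕ :=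
  ∑ i ∈ Finset.range l.length, if i + 1 < l.length ∧ r (l.getD i 0) (l.getD (i + 1) 0) then 1 else 0

theorem G_cons (r : ℕ → ℕ → Prop) (b c : ℕ) (l : List ℕ) :
    G r (b :: c :: l) = (if r b c then 1 else 0) + G r (c :: l) := by
  unfold G
  rw [List.length_cons, Finset.sum_range_succ', add_comm]
  congr 1
  · simp
  · apply Finset.sum_congr rfl
    intro i _
    simp only [List.getD_cons_succ, Nat.add_lt_add_iff_right]

theorem ascA_eq (l : List ℕ) : ascA none l = G (fun x y => x < y) l := by
  have key : ∀ (l : List ℕ) (b : ℕ), ascA (some b) l = G (fun x y => x < y) (b :: l) := by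
    intro l
    induction l with
    | nil => intro b; simp [ascA, G]
    | cons c l ih =>
      intro b
      rw [G_cons, ascA, ih]
      congr 1
      have : upp (some b) c ↔ b < c := by
        constructor
        · rintro ⟨d, hd, h⟩
          simp only [Option.mem_def, Option.some.injEq] at hd
          omega
        · exact fun h => ⟨b, rfl, h⟩
      by_cases hbc : b < c
      · rw [if_pos (this.mpr hbc), if_pos hbc]
      · rw [if_neg (fun h => hbc (this.mp h)), if_neg hbc]
  rcases l with _ | ⟨a, w⟩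
  · simp [ascA, G]
  · rw [ascA, key]
    have : ¬ upp none a := by
      rintro ⟨b, hb, _⟩
      simp at hb
    simp [this]

theorem desB_eq (l : List ℕ) : desB l = G (fun x y => y < x) l := by
  induction l with
  | nil => simp [desB, G]
  | cons b l ih =>
    rcases l with _ | ⟨c, l⟩
    · simp [desB, G]
    · rw [G_cons, desB, ih]
      congr 1
      by_cases hcb : c < b
      · rw [if_pos hcb, if_pos hcb]
      · rw [if_neg hcb, if_neg hcb]

/-! ### Words of permutations -/

variable {n : ℕ}

/-- Entries of `σ` as a function on the naturals. -/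
noncomputable def sg (σ : Equiv.Perm (Fin n)) (i : ℕ) : ℕ := if h : i < n then (σ ⟨i, h⟩ : ℕ) else 0

theorem sg_eq (σ : Equiv.Perm (Fin n)) (i : Fin n) : sg σ i = σ i := by
  unfold sg
  rw [dif_pos i.2]

theorem sg_lt (σ : Equiv.Perm (Fin n)) {i : ℕ} (h : i < n) : sg σ i < n := by
  unfold sg
  rw [dif_pos h]
  exact (σ ⟨i, h⟩).2

theorem des_sum (σ : Equiv.Perm (Fin n)) : des σ =
    ∑ i ∈ Finset.range n, if i + 1 < n ∧ sg σ (i + 1) < sg σ i then 1 else 0 := by
  unfold des
  rw [Finset.card_filter, ← Fin.sum_univ_eq_sum_range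
    (fun i => if i + 1 < n ∧ sg σ (i + 1) < sg σ i then 1 else 0) n]
  apply Finset.sum_congr rfl
  intro i _
  have e : (∃ h : i.1 + 1 < n, σ ⟨i.1 + 1, h⟩ < σ i) ↔
      (i.1 + 1 < n ∧ sg σ (i.1 + 1) < sg σ i.1) := by
    constructor
    · rintro ⟨h, h1⟩
      refine ⟨h, ?_⟩
      rw [sg_eq, show i.1 + 1 = ((⟨i.1 + 1, h⟩ : Fin n) : ℕ) from rfl, sg_eq]
      exact h1
    · rintro ⟨h, h1⟩
      refine ⟨h, ?_⟩
      rw [sg_eq, show i.1 + 1 = ((⟨i.1 + 1, h⟩ : Fin n) : ℕ) from rfl, sg_eq] at h1
      exact h1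
  simp only [e]

/-- Complemented word. -/
def lA (σ : Equiv.Perm (Fin n)) : List ℕ := List.ofFn (fun i : Fin n => n - (σ i : ℕ))

/-- Shifted word. -/
def lB (σ : Equiv.Perm (Fin n)) : List ℕ := List.ofFn (fun i : Fin n => (σ i : ℕ) + 1)

theorem lA_length (σ : Equiv.Perm (Fin n)) : (lA σ).length = n := by simp [lA]
theorem lB_length (σ : Equiv.Perm (Fin n)) : (lB σ).length = n := by simp [lB]

theorem lA_getD (σ : Equiv.Perm (Fin n)) {i : ℕ} (h : i < n) : (lA σ).getD i 0 = n - sg σ i := by
  rw [List.getD_eq_getElem _ _ (by rw [lA_length]; exact h)]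
  simp only [lA, List.getElem_ofFn, sg, dif_pos h]

theorem lB_getD (σ : Equiv.Perm (Fin n)) {i : ℕ} (h : i < n) : (lB σ).getD i 0 = sg σ i + 1 := by
  rw [List.getD_eq_getElem _ _ (by rw [lB_length]; exact h)]
  simp only [lB, List.getElem_ofFn, sg, dif_pos h]

theorem des_lA (σ : Equiv.Perm (Fin n)) : ascA none (lA σ ++ [0]) = des σ := by
  rw [ascA_zero, ascA_eq, des_sum, G, lA_length]
  apply Finset.sum_congr rfl
  intro i hi
  have hi' := Finset.mem_range.mp hi
  by_cases h : i + 1 < n
  · have h1 := sg_lt σ hi'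
    have h2 := sg_lt σ h
    rw [lA_getD σ hi', lA_getD σ h]
    have e : (i + 1 < n ∧ n - sg σ i < n - sg σ (i + 1)) ↔ (i + 1 < n ∧ sg σ (i + 1) < sg σ i) := by
      omega
    simp only [e]
  · simp [h]

theorem des_lB (σ : Equiv.Perm (Fin n)) : desB (0 :: lB σ) = des σ := by
  rw [desB_zero, desB_eq, des_sum, G, lB_length]
  apply Finset.sum_congr rfl
  intro i hi
  have hi' := Finset.mem_range.mp hi
  by_cases h : i + 1 < n
  · rw [lB_getD σ hi', lB_getD σ h]
    have e : (i + 1 < n ∧ sg σ (i + 1) + 1 < sg σ i + 1) ↔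
        (i + 1 < n ∧ sg σ (i + 1) < sg σ i) := by
      omega
    simp only [e]
  · simp [h]

theorem lA_perm (σ : Equiv.Perm (Fin n)) : (lA σ ++ [0]).Perm (List.range (n + 1)) := by
  have hmem : ∀ x, x ∈ lA σ ↔ (1 ≤ x ∧ x ≤ n) := by
    intro x
    simp only [lA, List.mem_ofFn]
    constructor
    · rintro ⟨i, rfl⟩
      have := (σ i).2
      omega
    · rintro ⟨h1, h2⟩
      refine ⟨σ.symm ⟨n - x, by omega⟩, ?_⟩
      rw [Equiv.apply_symm_apply]
      simp only
      omega
  have hnd : (lA σ).Nodup := by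
    rw [lA, List.nodup_ofFn]
    intro i j hij
    have h1 := (σ i).2
    have h2 := (σ j).2
    simp only at hij
    apply σ.injective
    apply Fin.ext
    omega
  rw [List.perm_ext_iff_of_nodup ?_ List.nodup_range]
  · intro x
    rw [List.mem_append, hmem, List.mem_range, List.mem_singleton]
    omega
  · refine List.Nodup.append hnd (List.nodup_singleton _) ?_
    intro x hx hx'
    have h1 := (hmem x).mp hx
    have h2 := List.mem_singleton.mp hx'
    omega

theorem lB_perm (σ : Equiv.Perm (Fin n)) : (0 :: lB σ).Perm (List.range (n + 1)) := by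
  have hmem : ∀ x, x ∈ lB σ ↔ (1 ≤ x ∧ x ≤ n) := by
    intro x
    simp only [lB, List.mem_ofFn]
    constructor
    · rintro ⟨i, rfl⟩
      have := (σ i).2
      omega
    · rintro ⟨h1, h2⟩
      refine ⟨σ.symm ⟨x - 1, by omega⟩, ?_⟩
      rw [Equiv.apply_symm_apply]
      simp only
      omega
  have hnd : (lB σ).Nodup := by
    rw [lB, List.nodup_ofFn]
    intro i j hij
    simp only at hij
    apply σ.injective
    apply Fin.ext
    omega
  rw [List.perm_ext_iff_of_nodup ?_ List.nodup_range]
  · intro x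
    rw [List.mem_cons, hmem, List.mem_range]
    omega
  · refine List.nodup_cons.mpr ⟨?_, hnd⟩
    intro hx
    have h1 := (hmem 0).mp hx
    omega

theorem lA_inj {σ τ : Equiv.Perm (Fin n)} (h : lA σ = lA τ) : σ = τ := by
  unfold lA at h
  have h' := List.ofFn_injective h
  apply Equiv.ext
  intro i
  have h1 : n - (σ i : ℕ) = n - (τ i : ℕ) := congrFun h' i
  have h2 := (σ i).2
  have h3 := (τ i).2
  apply Fin.ext
  omega

theorem lB_inj {σ τ : Equiv.Perm (Fin n)} (h : lB σ = lB τ) : σ = τ := by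
  unfold lB at h
  have h' := List.ofFn_injective h
  apply Equiv.ext
  intro i
  have h1 : (σ i : ℕ) + 1 = (τ i : ℕ) + 1 := congrFun h' i
  apply Fin.ext
  omega

theorem lA_surj {l0 : List ℕ} (h : (l0 ++ [0]).Perm (List.range (n + 1))) :
    ∃ σ : Equiv.Perm (Fin n), lA σ = l0 := by
  have hlen : l0.length = n := by
    have := h.length_eq
    simpa using this
  subst hlen
  have hnd : (l0 ++ [0]).Nodup := h.nodup_iff.mpr List.nodup_range
  have hnd0 : l0.Nodup := (List.nodup_append.mp hnd).1
  have hpos : ∀ x ∈ l0, 1 ≤ x ∧ x ≤ l0.length := by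
    intro x hx
    have h1 : x ∈ List.range (l0.length + 1) := h.mem_iff.mp (by simp [hx])
    have h2 := List.mem_range.mp h1
    refine ⟨?_, by omega⟩
    by_contra hc
    have hx0 : x = 0 := by omega
    rw [hx0] at hx
    have := (List.nodup_append.mp hnd).2.2 0 hx 0 (by simp)
    exact this rfl
  let g : Fin l0.length → Fin l0.length := fun i => ⟨l0.length - l0[i], by
    have := hpos l0[i] (List.getElem_mem _)
    omega⟩
  have hg : Function.Injective g := by
    intro i j hij
    have h1 : l0.length - l0[i] = l0.length - l0[j] := congrArg Fin.val hij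
    have h2 := hpos l0[i] (List.getElem_mem _)
    have h3 := hpos l0[j] (List.getElem_mem _)
    have h4 : l0[i] = l0[j] := by omega
    apply Fin.ext
    exact (List.Nodup.getElem_inj_iff hnd0).mp h4
  refine ⟨Equiv.ofBijective g (Finite.injective_iff_bijective.mp hg), ?_⟩
  unfold lA
  apply List.ext_getElem
  · simp
  · intro i h1 h2
    simp only [List.getElem_ofFn, Equiv.ofBijective_apply, g]
    have := hpos l0[i] (List.getElem_mem _)
    simp only [Fin.getElem_fin]
    omega

theorem lB_surj {l0 : List ℕ} (h : (0 :: l0).Perm (List.range (n + 1))) :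
    ∃ σ : Equiv.Perm (Fin n), lB σ = l0 := by
  have hlen : l0.length = n := by
    have := h.length_eq
    simpa using this
  subst hlen
  have hnd : (0 :: l0).Nodup := h.nodup_iff.mpr List.nodup_range
  have hnd0 : l0.Nodup := (List.nodup_cons.mp hnd).2
  have hpos : ∀ x ∈ l0, 1 ≤ x ∧ x ≤ l0.length := by
    intro x hx
    have h1 : x ∈ List.range (l0.length + 1) := h.mem_iff.mp (by simp [hx])
    have h2 := List.mem_range.mp h1
    refine ⟨?_, by omega⟩
    by_contra hc
    have hx0 : x = 0 := by omega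
    rw [hx0] at hx
    exact (List.nodup_cons.mp hnd).1 hx
  let g : Fin l0.length → Fin l0.length := fun i => ⟨l0[i] - 1, by
    have := hpos l0[i] (List.getElem_mem _)
    omega⟩
  have hg : Function.Injective g := by
    intro i j hij
    have h1 : l0[i] - 1 = l0[j] - 1 := congrArg Fin.val hij
    have h2 := hpos l0[i] (List.getElem_mem _)
    have h3 := hpos l0[j] (List.getElem_mem _)
    have h4 : l0[i] = l0[j] := by omega
    apply Fin.ext
    exact (List.Nodup.getElem_inj_iff hnd0).mp h4
  refine ⟨Equiv.ofBijective g (Finite.injective_iff_bijective.mp hg), ?_⟩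
  unfold lB
  apply List.ext_getElem
  · simp
  · intro i h1 h2
    simp only [List.getElem_ofFn, Equiv.ofBijective_apply, g]
    have := hpos l0[i] (List.getElem_mem _)
    simp only [Fin.getElem_fin]
    omega

theorem F_eq_A (h : Pat Q L) (p : Fin 4 → ℕ) (n : ℕ)
    (hp : ∀ σ : Equiv.Perm (Fin n), Contains p σ ↔ ¬ ClA Q (lA σ)) :
    F p n = ((TA L n).map (fun l => (Polynomial.X : Polynomial ℤ) ^ ascA none l)).sum := by
  rw [← List.sum_toFinset _ (nodup_TA h n)]
  unfold F
  refine Finset.sum_bij (fun σ _ => lA σ ++ [0]) ?_ ?_ ?_ ?_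
  · intro σ hσ
    rw [List.mem_toFinset, mem_TA h]
    refine ⟨lA_perm σ, ⟨_, rfl⟩, (clA_zero h _).mpr ?_⟩
    have := (Finset.mem_filter.mp hσ).2
    rw [hp] at this
    exact not_not.mp this
  · intro σ _ τ _ hst
    exact lA_inj (List.append_cancel_right hst)
  · intro l hl
    rw [List.mem_toFinset, mem_TA h] at hl
    obtain ⟨h1, ⟨l0, rfl⟩, h3⟩ := hl
    obtain ⟨σ, hσ⟩ := lA_surj h1
    refine ⟨σ, Finset.mem_filter.mpr ⟨Finset.mem_univ _, ?_⟩, by rw [hσ]⟩
    rw [hp, not_not, hσ]
    exact (clA_zero h _).mp h3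
  · intro σ _
    rw [des_lA]

theorem F_eq_B (h : Pat Q L) (p : Fin 4 → ℕ) (n : ℕ)
    (hp : ∀ σ : Equiv.Perm (Fin n), Contains p σ ↔ ¬ ClB Q (lB σ)) :
    F p n = ((TB L n).map (fun l => (Polynomial.X : Polynomial ℤ) ^ desB l)).sum := by
  rw [← List.sum_toFinset _ (nodup_TB h n)]
  unfold F
  refine Finset.sum_bij (fun σ _ => 0 :: lB σ) ?_ ?_ ?_ ?_
  · intro σ hσ
    rw [List.mem_toFinset, mem_TB h]
    refine ⟨lB_perm σ, ⟨_, rfl⟩, (clB_zero h _).mpr ?_⟩
    have := (Finset.mem_filter.mp hσ).2
    rw [hp] at this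
    exact not_not.mp this
  · intro σ _ τ _ hst
    exact lB_inj (List.cons.inj hst).2
  · intro l hl
    rw [List.mem_toFinset, mem_TB h] at hl
    obtain ⟨h1, ⟨l0, rfl⟩, h3⟩ := hl
    obtain ⟨σ, hσ⟩ := lB_surj h1
    refine ⟨σ, Finset.mem_filter.mpr ⟨Finset.mem_univ _, ?_⟩, by rw [hσ]⟩
    rw [hp, not_not, hσ]
    exact (clB_zero h _).mp h3
  · intro σ _
    rw [des_lB]

/-- Containment in terms of four positions. -/
theorem contains_iff (p : Fin 4 → ℕ) (σ : Equiv.Perm (Fin n)) : Contains p σ ↔
    ∃ i j k, i + 1 < j ∧ j < k ∧ k < n ∧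
      ∀ a b : Fin 4, ![sg σ i, sg σ (i + 1), sg σ j, sg σ k] a <
        ![sg σ i, sg σ (i + 1), sg σ j, sg σ k] b ↔ p a < p b := by
  constructor
  · rintro ⟨f, hf, h1, h2⟩
    have h3 : f 1 < f 2 := hf (by decide)
    have h4 : f 2 < f 3 := hf (by decide)
    refine ⟨f 0, f 2, f 3, ?_, h4, (f 3).2, ?_⟩
    · rw [← h1]
      exact h3
    · have e : ∀ a : Fin 4, ![sg σ (f 0), sg σ ((f 0 : ℕ) + 1), sg σ (f 2), sg σ (f 3)] a =
          (σ (f a) : ℕ) := by
        intro a
        rw [← h1]
        fin_cases a <;> exact sg_eq σ _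
      intro a b
      rw [e, e, ← h2]
      exact Iff.rfl
  · rintro ⟨i, j, k, h1, h2, h3, h4⟩
    let f : Fin 4 → Fin n := ![⟨i, by omega⟩, ⟨i + 1, by omega⟩, ⟨j, by omega⟩, ⟨k, h3⟩]
    refine ⟨f, ?_, rfl, ?_⟩
    · apply Fin.strictMono_iff_lt_succ.mpr
      intro a
      fin_cases a
      · show (⟨i, _⟩ : Fin n) < ⟨i + 1, _⟩
        exact Fin.mk_lt_mk.mpr (by omega)
      · show (⟨i + 1, _⟩ : Fin n) < ⟨j, _⟩
        exact Fin.mk_lt_mk.mpr h1
      · show (⟨j, _⟩ : Fin n) < ⟨k, _⟩
        exact Fin.mk_lt_mk.mpr h2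
    · intro a b
      rw [← h4]
      have e : ∀ a : Fin 4, ![sg σ i, sg σ (i + 1), sg σ j, sg σ k] a = (σ (f a) : ℕ) := by
        intro a
        fin_cases a
        · exact sg_eq σ ⟨i, by omega⟩
        · exact sg_eq σ ⟨i + 1, by omega⟩
        · exact sg_eq σ ⟨j, by omega⟩
        · exact sg_eq σ ⟨k, h3⟩
      rw [e, e]
      exact Iff.rfl

end R209.DW
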