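import Pool.Agent.R209.DWInst

/-!
# The classes of words and their generating trees
-/

namespace R209.DW

open Classical

/-- Abstract properties of the forbidden configurations `Q m M x y` (an adjacent pair with
entries `m < M`, followed later by `x` and then `y`). -/
structure Pat (Q : ℕ → ℕ → ℕ → ℕ → Prop) (L : ℕ → ℕ → ℕ → Prop) : Prop where
  hN1 : ∀ m M N y, m < M → M < N → ¬ Q m M N y
  hN2 : ∀ m M N x, m < M → M < N → ¬ Q m M x N
  hL : ∀ a N x y, x < N → y < N → (Q a N x y ↔ L a x y)
  hQL : ∀ m M x y, Q m M x y → L m x y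
  h0 : ∀ m M x, ¬ Q m M x 0
  h0' : ∀ M x y, ¬ Q 0 M x y

def Q1 (m _M x y : ℕ) : Prop := x < y ∧ y < m
def Q2 (m M x y : ℕ) : Prop := x < m ∧ m < y ∧ y < M

theorem pat1 : Pat Q1 L1 where
  hN1 m M N y h1 h2 h := by unfold Q1 at h; omega
  hN2 m M N x h1 h2 h := by unfold Q1 at h; omega
  hL a N x y h1 h2 := by unfold Q1 L1; rfl
  hQL m M x y h := h
  h0 m M x h := by unfold Q1 at h; omega
  h0' M x y h := by unfold Q1 at h; omega

theorem pat2 : Pat Q2 L2 where
  hN1 m M N y h1 h2 h := by unfold Q2 at h; omega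
  hN2 m M N x h1 h2 h := by unfold Q2 at h; omega
  hL a N x y h1 h2 := by unfold Q2 L2; tauto
  hQL m M x y h := ⟨h.1, h.2.1⟩
  h0 m M x h := by unfold Q2 at h; omega
  h0' M x y h := by unfold Q2 at h; omega

/-- No forbidden pair in the tail. -/
def Cc (Q : ℕ → ℕ → ℕ → ℕ → Prop) (m M : ℕ) (R : List ℕ) : Prop :=
  R.Pairwise (fun x y => ¬ Q m M x y)

def ClA (Q : ℕ → ℕ → ℕ → ℕ → Prop) : List ℕ → Prop
  | [] => True
  | [_] => True
  | M :: m :: R => (m < M → Cc Q m M R) ∧ ClA Q (m :: R)

def ClB (Q : ℕ → ℕ → ℕ → ℕ → Prop) : List ℕ → Prop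
  | [] => True
  | [_] => True
  | m :: M :: R => (m < M → Cc Q m M R) ∧ ClB Q (M :: R)

variable {Q : ℕ → ℕ → ℕ → ℕ → Prop} {L : ℕ → ℕ → ℕ → Prop}

theorem Cc_insert (h : Pat Q L) {m M N : ℕ} (h1 : m < M) (h2 : M < N) (p r : List ℕ) :
    Cc Q m M (p ++ N :: r) ↔ Cc Q m M (p ++ r) := by
  unfold Cc
  rw [List.pairwise_append, List.pairwise_append, List.pairwise_cons]
  constructor
  · rintro ⟨h3, ⟨_, h4⟩, h5⟩
    exact ⟨h3, h4, fun x hx y hy => h5 x hx y (by simp [hy])⟩
  · rintro ⟨h3, h4, h5⟩
    refine ⟨h3, ⟨fun y _ => h.hN1 m M N y h1 h2, h4⟩, fun x hx y hy => ?_⟩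
    rcases List.mem_cons.mp hy with rfl | hy
    · exact h.hN2 m M y x h1 h2
    · exact h5 x hx y hy

theorem Cc_of_cnd (h : Pat Q L) {m M : ℕ} {w : List ℕ} (hw : cnd L m w) : Cc Q m M w :=
  List.Pairwise.imp (fun hn hq => hn (h.hQL _ _ _ _ hq)) hw

theorem Cc_max (h : Pat Q L) {a N : ℕ} {w : List ℕ} (hN : ∀ x ∈ w, x < N) :
    Cc Q a N w ↔ cnd L a w := by
  apply List.Pairwise.iff_of_mem
  intro x y hx hy
  exact not_congr (h.hL a N x y (hN x hx) (hN y hy))

theorem clA_insert (h : Pat Q L) {N a : ℕ} {w : List ℕ} (p : List ℕ)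
    (hN : ∀ x ∈ p ++ a :: w, x < N) :
    ClA Q (p ++ N :: a :: w) ↔ (ClA Q (p ++ a :: w) ∧ cnd L a w) := by
  have ha : a < N := hN a (by simp)
  have hw : ∀ x ∈ w, x < N := fun x hx => hN x (by simp [hx])
  induction p with
  | nil =>
    simp only [List.nil_append, ClA]
    constructor
    · rintro ⟨h1, h2⟩
      exact ⟨h2, (Cc_max h hw).mp (h1 ha)⟩
    · rintro ⟨h1, h2⟩
      exact ⟨fun _ => (Cc_max h hw).mpr h2, h1⟩
  | cons b p ih =>
    have ih' := ih (fun x hx => hN x (by
      rw [List.cons_append]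
      exact List.mem_cons_of_mem _ hx))
    have hb : b < N := hN b (by simp)
    rcases p with _ | ⟨c, p⟩
    · simp only [List.cons_append, List.nil_append, ClA] at ih' ⊢
      constructor
      · rintro ⟨_, h2⟩
        have h3 := ih'.mp h2
        exact ⟨⟨fun _ => Cc_of_cnd h h3.2, h3.1⟩, h3.2⟩
      · rintro ⟨⟨_, h2⟩, h3⟩
        exact ⟨fun h4 => by omega, ih'.mpr ⟨h2, h3⟩⟩
    · simp only [List.cons_append, ClA] at ih' ⊢
      constructor
      · rintro ⟨h1, h2⟩
        have h3 := ih'.mp h2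
        exact ⟨⟨fun h4 => (Cc_insert h h4 hb p _).mp (h1 h4), h3.1⟩, h3.2⟩
      · rintro ⟨⟨h1, h2⟩, h3⟩
        exact ⟨fun h4 => (Cc_insert h h4 hb p _).mpr (h1 h4), ih'.mpr ⟨h2, h3⟩⟩

theorem clB_max {N : ℕ} {w : List ℕ} (hw : ∀ x ∈ w, x < N) : ClB Q (N :: w) ↔ ClB Q w := by
  rcases w with _ | ⟨b, v⟩
  · exact Iff.rfl
  · simp only [ClB]
    constructor
    · exact fun h => h.2
    · exact fun h => ⟨fun h1 => by have := hw b (by simp); omega, h⟩

theorem clB_insert (h : Pat Q L) {N a : ℕ} {w : List ℕ} (p : List ℕ)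
    (hN : ∀ x ∈ p ++ a :: w, x < N) :
    ClB Q (p ++ a :: N :: w) ↔ (ClB Q (p ++ a :: w) ∧ cnd L a w) := by
  have ha : a < N := hN a (by simp)
  have hw : ∀ x ∈ w, x < N := fun x hx => hN x (by simp [hx])
  induction p with
  | nil =>
    simp only [List.nil_append]
    have e1 : ClB Q (a :: N :: w) ↔ ((a < N → Cc Q a N w) ∧ ClB Q (N :: w)) := Iff.rfl
    rw [e1, clB_max hw]
    constructor
    · rintro ⟨h1, h2⟩
      have h3 := (Cc_max h hw).mp (h1 ha)
      refine ⟨?_, h3⟩
      rcases w with _ | ⟨b, v⟩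
      · trivial
      · refine ⟨fun _ => ?_, h2⟩
        unfold cnd at h3
        rw [List.pairwise_cons] at h3
        exact Cc_of_cnd h h3.2
    · rintro ⟨h1, h2⟩
      refine ⟨fun _ => (Cc_max h hw).mpr h2, ?_⟩
      rcases w with _ | ⟨b, v⟩
      · trivial
      · exact h1.2
  | cons b p ih =>
    have ih' := ih (fun x hx => hN x (by
      rw [List.cons_append]
      exact List.mem_cons_of_mem _ hx))
    have hb : b < N := hN b (by simp)
    rcases p with _ | ⟨c, p⟩
    · simp only [List.cons_append, List.nil_append] at ih' ⊢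
      have e1 : ClB Q (b :: a :: N :: w) ↔ ((b < a → Cc Q b a (N :: w)) ∧ ClB Q (a :: N :: w)) :=
        Iff.rfl
      have e2 : ClB Q (b :: a :: w) ↔ ((b < a → Cc Q b a w) ∧ ClB Q (a :: w)) := Iff.rfl
      rw [e1, e2]
      constructor
      · rintro ⟨h1, h2'⟩
        have h3 := ih'.mp h2'
        exact ⟨⟨fun h4 => (Cc_insert h h4 ha [] w).mp (h1 h4), h3.1⟩, h3.2⟩
      · rintro ⟨⟨h1, h2⟩, h3⟩
        exact ⟨fun h4 => (Cc_insert h h4 ha [] w).mpr (h1 h4), ih'.mpr ⟨h2, h3⟩⟩
    · have hc : c < N := hN c (by simp)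
      simp only [List.cons_append] at ih' ⊢
      have e1 : ClB Q (b :: c :: (p ++ a :: N :: w)) ↔
        ((b < c → Cc Q b c (p ++ a :: N :: w)) ∧ ClB Q (c :: (p ++ a :: N :: w))) := Iff.rfl
      have e2 : ClB Q (b :: c :: (p ++ a :: w)) ↔
        ((b < c → Cc Q b c (p ++ a :: w)) ∧ ClB Q (c :: (p ++ a :: w))) := Iff.rfl
      have e3 : b < c → (Cc Q b c (p ++ a :: N :: w) ↔ Cc Q b c (p ++ a :: w)) := by
        intro h4
        have := Cc_insert h h4 hc (p ++ [a]) w
        simpa only [List.append_assoc, List.cons_append, List.nil_append] using this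
      rw [e1, e2]
      constructor
      · rintro ⟨h1, h2'⟩
        have h3 := ih'.mp h2'
        exact ⟨⟨fun h4 => (e3 h4).mp (h1 h4), h3.1⟩, h3.2⟩
      · rintro ⟨⟨h1, h2⟩, h3⟩
        exact ⟨fun h4 => (e3 h4).mpr (h1 h4), ih'.mpr ⟨h2, h3⟩⟩

theorem mem_chA {N : ℕ} (l : List ℕ) : ∀ l' : List ℕ, l' ∈ chA L N l ↔
    ∃ p a w, l = p ++ a :: w ∧ cnd L a w ∧ l' = p ++ N :: a :: w := by
  induction l with
  | nil =>
    intro l'
    simp [chA]
  | cons b v ih =>
    intro l'
    simp only [chA, List.mem_append, List.mem_map, ih]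
    constructor
    · rintro (h | ⟨l'', ⟨p, a, w, h1, h2, h3⟩, h4⟩)
      · by_cases hc : cnd L b v
        · rw [if_pos hc] at h
          exact ⟨[], b, v, rfl, hc, by simpa using h⟩
        · rw [if_neg hc] at h
          simp at h
      · exact ⟨b :: p, a, w, by rw [h1]; rfl, h2, by rw [← h4, h3]; rfl⟩
    · rintro ⟨p, a, w, h1, h2, h3⟩
      rcases p with _ | ⟨c, p⟩
      · simp only [List.nil_append, List.cons.injEq] at h1 h3
        obtain ⟨rfl, rfl⟩ := h1
        left
        rw [if_pos h2, h3]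
        simp
      · simp only [List.cons_append, List.cons.injEq] at h1 h3
        obtain ⟨rfl, h1⟩ := h1
        exact Or.inr ⟨p ++ N :: a :: w, ⟨p, a, w, h1, h2, rfl⟩, h3.symm⟩

theorem mem_chB {N : ℕ} (l : List ℕ) : ∀ l' : List ℕ, l' ∈ chB L N l ↔
    ∃ p a w, l = p ++ a :: w ∧ cnd L a w ∧ l' = p ++ a :: N :: w := by
  induction l with
  | nil =>
    intro l'
    simp [chB]
  | cons b v ih =>
    intro l'
    simp only [chB, List.mem_append, List.mem_map, ih]
    constructor
    · rintro (h | ⟨l'', ⟨p, a, w, h1, h2, h3⟩, h4⟩)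
      · by_cases hc : cnd L b v
        · rw [if_pos hc] at h
          exact ⟨[], b, v, rfl, hc, by simpa using h⟩
        · rw [if_neg hc] at h
          simp at h
      · exact ⟨b :: p, a, w, by rw [h1]; rfl, h2, by rw [← h4, h3]; rfl⟩
    · rintro ⟨p, a, w, h1, h2, h3⟩
      rcases p with _ | ⟨c, p⟩
      · simp only [List.nil_append, List.cons.injEq] at h1 h3
        obtain ⟨rfl, rfl⟩ := h1
        left
        rw [if_pos h2, h3]
        simp
      · simp only [List.cons_append, List.cons.injEq] at h1 h3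
        obtain ⟨rfl, h1⟩ := h1
        exact Or.inr ⟨p ++ a :: N :: w, ⟨p, a, w, h1, h2, rfl⟩, h3.symm⟩

theorem range_perm (n : ℕ) : ((n + 1) :: List.range (n + 1)).Perm (List.range (n + 1 + 1)) := by
  rw [List.range_succ (n := n + 1)]
  exact (List.perm_append_singleton (n + 1) (List.range (n + 1))).symm

theorem lt_of_perm {n : ℕ} {l : List ℕ} (h : l.Perm (List.range (n + 1))) : ∀ x ∈ l, x < n + 1 := by
  intro x hx
  exact List.mem_range.mp (h.mem_iff.mp hx)

theorem mem_TA (h : Pat Q L) (n : ℕ) : ∀ l : List ℕ, l ∈ TA L n ↔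
    (l.Perm (List.range (n + 1)) ∧ (∃ l0, l = l0 ++ [0]) ∧ ClA Q l) := by
  induction n with
  | zero =>
    intro l
    constructor
    · intro hl
      have : l = [0] := by simpa [TA] using hl
      subst this
      exact ⟨List.Perm.refl _, ⟨[], rfl⟩, trivial⟩
    · rintro ⟨h1, _, _⟩
      have : l = [0] := List.perm_singleton.mp (by simpa using h1)
      simp [TA, this]
  | succ n ih =>
    intro l'
    rw [TA, List.mem_flatMap]
    constructor
    · rintro ⟨l, hl, hl'⟩
      obtain ⟨p, a, w, h1, h2, h3⟩ := (mem_chA l l').mp hl'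
      obtain ⟨g1, ⟨l0, g2⟩, g3⟩ := (ih l).mp hl
      have hlt := lt_of_perm g1
      subst h3
      rw [h1] at hlt g1 g3
      refine ⟨?_, ?_, (clA_insert h p hlt).mpr ⟨g3, h2⟩⟩
      · exact List.perm_middle.trans ((List.Perm.cons (n + 1) g1).trans (range_perm n))
      · have hne : a :: w ≠ [] := by simp
        have hlast : (a :: w).getLast hne = 0 := by
          have e1 : (p ++ a :: w).getLast (by simp) = (a :: w).getLast hne :=
            List.getLast_append_of_ne_nil _ hne
          rw [← e1]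
          have e2 : p ++ a :: w = l0 ++ [0] := by rw [← h1, g2]
          simp only [e2]
          simp
        refine ⟨p ++ (n + 1) :: (a :: w).dropLast, ?_⟩
        have e3 := List.dropLast_append_getLast hne
        rw [hlast] at e3
        rw [List.append_assoc, List.cons_append, e3]
    · rintro ⟨g1, ⟨l0, g2⟩, g3⟩
      have hmem : (n + 1) ∈ l' := g1.mem_iff.mpr (by simp)
      obtain ⟨p, v, hv⟩ := List.append_of_mem hmem
      rcases v with _ | ⟨a, w⟩
      · exfalso
        rw [hv] at g2
        have := List.append_inj_right' g2 rfl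
        simp at this
      · have h4 : (p ++ a :: w).Perm (List.range (n + 1)) := by
          have h5 : ((n + 1) :: (p ++ a :: w)).Perm ((n + 1) :: List.range (n + 1)) :=
            (List.perm_middle.symm.trans (hv ▸ g1)).trans (range_perm n).symm
          exact h5.cons_inv
        have hlt := lt_of_perm h4
        rw [hv] at g3
        have h6 := (clA_insert h p hlt).mp g3
        refine ⟨p ++ a :: w, (ih _).mpr ⟨h4, ?_, h6.1⟩, (mem_chA _ _).mpr
          ⟨p, a, w, rfl, h6.2, hv⟩⟩
        have hne : a :: w ≠ [] := by simp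
        have hlast : (a :: w).getLast hne = 0 := by
          have e1 : (p ++ (n + 1) :: a :: w).getLast (by simp) = (a :: w).getLast hne := by
            rw [List.getLast_append_of_ne_nil _ (by simp : (n + 1) :: a :: w ≠ [])]
            rw [List.getLast_cons hne]
          rw [← e1]
          have e2 : p ++ (n + 1) :: a :: w = l0 ++ [0] := by rw [← hv, g2]
          simp only [e2]
          simp
        refine ⟨p ++ (a :: w).dropLast, ?_⟩
        have e3 := List.dropLast_append_getLast hne
        rw [hlast] at e3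
        rw [List.append_assoc, e3]

theorem mem_TB (h : Pat Q L) (n : ℕ) : ∀ l : List ℕ, l ∈ TB L n ↔
    (l.Perm (List.range (n + 1)) ∧ (∃ l0, l = 0 :: l0) ∧ ClB Q l) := by
  induction n with
  | zero =>
    intro l
    constructor
    · intro hl
      have : l = [0] := by simpa [TB] using hl
      subst this
      exact ⟨List.Perm.refl _, ⟨[], rfl⟩, trivial⟩
    · rintro ⟨h1, _, _⟩
      have : l = [0] := List.perm_singleton.mp (by simpa using h1)
      simp [TB, this]
  | succ n ih =>
    intro l'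
    rw [TB, List.mem_flatMap]
    constructor
    · rintro ⟨l, hl, hl'⟩
      obtain ⟨p, a, w, h1, h2, h3⟩ := (mem_chB l l').mp hl'
      obtain ⟨g1, ⟨l0, g2⟩, g3⟩ := (ih l).mp hl
      have hlt := lt_of_perm g1
      subst h3
      rw [h1] at hlt g1 g3
      refine ⟨?_, ?_, (clB_insert h p hlt).mpr ⟨g3, h2⟩⟩
      · have e : p ++ a :: (n + 1) :: w = (p ++ [a]) ++ (n + 1) :: w := by simp
        have e' : p ++ a :: w = (p ++ [a]) ++ w := by simp
        rw [e]
        rw [e'] at g1
        exact List.perm_middle.trans ((List.Perm.cons (n + 1) g1).trans (range_perm n))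
      · rcases p with _ | ⟨c, p⟩
        · rw [g2] at h1
          simp only [List.nil_append, List.cons.injEq] at h1
          exact ⟨(n + 1) :: w, by rw [← h1.1]; rfl⟩
        · rw [g2] at h1
          simp only [List.cons_append, List.cons.injEq] at h1
          exact ⟨p ++ a :: (n + 1) :: w, by rw [← h1.1]; rfl⟩
    · rintro ⟨g1, ⟨l0, g2⟩, g3⟩
      have hmem : (n + 1) ∈ l' := g1.mem_iff.mpr (by simp)
      obtain ⟨p', w, hv⟩ := List.append_of_mem hmem
      rcases List.eq_nil_or_concat p' with hp | ⟨p, a, hp⟩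
      · exfalso
        rw [hv, hp] at g2
        simp at g2
      · have hv' : l' = p ++ a :: (n + 1) :: w := by rw [hv, hp]; simp
        have h4 : (p ++ a :: w).Perm (List.range (n + 1)) := by
          have e' : p ++ a :: w = p' ++ w := by rw [hp]; simp
          rw [e']
          have h5 : ((n + 1) :: (p' ++ w)).Perm ((n + 1) :: List.range (n + 1)) :=
            (List.perm_middle.symm.trans (hv ▸ g1)).trans (range_perm n).symm
          exact h5.cons_inv
        have hlt := lt_of_perm h4
        rw [hv'] at g3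
        have h6 := (clB_insert h p hlt).mp g3
        refine ⟨p ++ a :: w, (ih _).mpr ⟨h4, ?_, h6.1⟩, (mem_chB _ _).mpr
          ⟨p, a, w, rfl, h6.2, hv'⟩⟩
        rw [hv'] at g2
        rcases p with _ | ⟨c, p⟩
        · simp only [List.nil_append, List.cons.injEq] at g2
          exact ⟨w, by rw [← g2.1]; rfl⟩
        · simp only [List.cons_append, List.cons.injEq] at g2
          exact ⟨p ++ a :: w, by rw [← g2.1]; rfl⟩

theorem nodup_chA {N : ℕ} (l : List ℕ) (hN : N ∉ l) : (chA L N l).Nodup := by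
  induction l with
  | nil => exact List.nodup_nil
  | cons a w ih =>
    have h1 : (chA L N w).Nodup := ih (fun h => hN (by simp [h]))
    have h2 : N ≠ a := fun h => hN (by simp [h])
    have h3 : ((chA L N w).map (fun l => a :: l)).Nodup :=
      h1.map (fun x y h => (List.cons.inj h).2)
    simp only [chA]
    split_ifs
    · refine List.Nodup.append (List.nodup_singleton _) h3 ?_
      intro x hx hx'
      rw [List.mem_singleton] at hx
      obtain ⟨y, _, hy⟩ := List.mem_map.mp hx'
      rw [hx] at hy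
      exact h2 (List.cons.inj hy).1.symm
    · simpa using h3

theorem nodup_chB {N : ℕ} (l : List ℕ) (hN : N ∉ l) : (chB L N l).Nodup := by
  induction l with
  | nil => exact List.nodup_nil
  | cons a w ih =>
    have hNw : N ∉ w := fun h => hN (by simp [h])
    have h1 : (chB L N w).Nodup := ih hNw
    have h3 : ((chB L N w).map (fun l => a :: l)).Nodup :=
      h1.map (fun x y h => (List.cons.inj h).2)
    simp only [chB]
    split_ifs
    · refine List.Nodup.append (List.nodup_singleton _) h3 ?_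
      intro x hx hx'
      rw [List.mem_singleton] at hx
      obtain ⟨y, hy1, hy⟩ := List.mem_map.mp hx'
      rw [hx] at hy
      have hy2 := (List.cons.inj hy).2
      obtain ⟨p, b, v, h4, _, h5⟩ := (mem_chB w y).mp hy1
      rw [hy2] at h5
      rcases p with _ | ⟨c, p⟩
      · simp only [List.nil_append, List.cons.injEq] at h5
        apply hNw
        rw [h4, h5.1]
        simp
      · simp only [List.cons_append, List.cons.injEq] at h5
        apply hNw
        rw [h4, h5.1]
        simp
    · simpa using h3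

theorem erase_mid {N : ℕ} {p w : List ℕ} (h : N ∉ p ++ w) : (p ++ N :: w).erase N = p ++ w := by
  have hp : N ∉ p := fun h' => h (by simp [h'])
  rw [List.erase_append_right _ hp, List.erase_cons_head]

theorem not_mem_of_perm {n : ℕ} {l : List ℕ} (h : l.Perm (List.range (n + 1))) : (n + 1) ∉ l := by
  intro hm
  have := lt_of_perm h _ hm
  omega

theorem nodup_TA (h : Pat Q L) (n : ℕ) : (TA L n).Nodup := by
  induction n with
  | zero => simp [TA]
  | succ n ih =>
    rw [TA, List.nodup_flatMap]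
    refine ⟨fun l hl => nodup_chA l (not_mem_of_perm ((mem_TA h n l).mp hl).1), ?_⟩
    refine ih.imp_of_mem ?_
    intro l1 l2 h1 h2 hne x hx1 hx2
    apply hne
    have key : ∀ l, l ∈ TA L n → x ∈ chA L (n + 1) l → x.erase (n + 1) = l := by
      intro l hl hx
      obtain ⟨p, a, w, e1, _, e3⟩ := (mem_chA l x).mp hx
      have hn := not_mem_of_perm ((mem_TA h n l).mp hl).1
      rw [e3, e1]
      rw [e1] at hn
      exact erase_mid hn
    rw [← key l1 h1 hx1, key l2 h2 hx2]

theorem nodup_TB (h : Pat Q L) (n : ℕ) : (TB L n).Nodup := by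
  induction n with
  | zero => simp [TB]
  | succ n ih =>
    rw [TB, List.nodup_flatMap]
    refine ⟨fun l hl => nodup_chB l (not_mem_of_perm ((mem_TB h n l).mp hl).1), ?_⟩
    refine ih.imp_of_mem ?_
    intro l1 l2 h1 h2 hne x hx1 hx2
    apply hne
    have key : ∀ l, l ∈ TB L n → x ∈ chB L (n + 1) l → x.erase (n + 1) = l := by
      intro l hl hx
      obtain ⟨p, a, w, e1, _, e3⟩ := (mem_chB l x).mp hx
      have hn := not_mem_of_perm ((mem_TB h n l).mp hl).1
      have e4 : p ++ a :: (n + 1) :: w = (p ++ [a]) ++ (n + 1) :: w := by simp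
      have e5 : p ++ a :: w = (p ++ [a]) ++ w := by simp
      rw [e3, e1, e4, e5]
      rw [e1, e5] at hn
      exact erase_mid hn
    rw [← key l1 h1 hx1, key l2 h2 hx2]

end R209.DW
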