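import Pool.Agent.R209.DWMach

/-!
# Words, insertions of the maximum, and the machines
-/

namespace R209.DW

open Classical

/-- `a` can be used: no forbidden pair after it. -/
def cnd (L : ℕ → ℕ → ℕ → Prop) (a : ℕ) (w : List ℕ) : Prop := w.Pairwise (fun x y => ¬ L a x y)

/-- Children in the first class: the new maximum `N` is put before an admissible entry. -/
noncomputable def chA (L : ℕ → ℕ → ℕ → Prop) (N : ℕ) : List ℕ → List (List ℕ)
  | [] => []
  | a :: w => (if cnd L a w then [N :: a :: w] else []) ++ (chA L N w).map (fun l => a :: l)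

/-- Children in the second class: the new maximum `N` is put after an admissible entry. -/
noncomputable def chB (L : ℕ → ℕ → ℕ → Prop) (N : ℕ) : List ℕ → List (List ℕ)
  | [] => []
  | a :: w => (if cnd L a w then [a :: N :: w] else []) ++ (chB L N w).map (fun l => a :: l)

noncomputable def TA (L : ℕ → ℕ → ℕ → Prop) : ℕ → List (List ℕ)
  | 0 => [[0]]
  | n + 1 => (TA L n).flatMap (chA L (n + 1))

noncomputable def TB (L : ℕ → ℕ → ℕ → Prop) : ℕ → List (List ℕ)
  | 0 => [[0]]
  | n + 1 => (TB L n).flatMap (chB L (n + 1))

variable {K : Type*} [CommRing K] {δ : Type*}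

theorem sum_chA (L : ℕ → ℕ → ℕ → Prop) (N : ℕ) (l : List ℕ) : ∀ f : List ℕ → K,
    ((chA L N l).map f).sum =
      sp (fun p a w => if cnd L a w then f (p ++ N :: a :: w) else 0) l := by
  induction l with
  | nil => intro f; simp [chA, sp]
  | cons a w ih =>
    intro f
    simp only [chA, List.map_append, List.sum_append, List.map_map, sp]
    have := ih (fun l => f (a :: l))
    simp only [Function.comp_def] at this ⊢
    rw [this]
    congr 1
    split_ifs <;> simp

theorem sum_chB (L : ℕ → ℕ → ℕ → Prop) (N : ℕ) (l : List ℕ) : ∀ f : List ℕ → K,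
    ((chB L N l).map f).sum =
      sp (fun p a w => if cnd L a w then f (p ++ a :: N :: w) else 0) l := by
  induction l with
  | nil => intro f; simp [chB, sp]
  | cons a w ih =>
    intro f
    simp only [chB, List.map_append, List.sum_append, List.map_map, sp]
    have := ih (fun l => f (a :: l))
    simp only [Function.comp_def] at this ⊢
    rw [this]
    congr 1
    split_ifs <;> simp

/-! ### Class A -/

/-- The previous entry is smaller than `a`. -/
def upp (prev : Option ℕ) (a : ℕ) : Prop := ∃ b ∈ prev, b < a

/-- The previous entry exists and is not smaller than `a`. -/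
def dnn (prev : Option ℕ) (a : ℕ) : Prop := ∃ b ∈ prev, ¬ b < a

noncomputable def ascA : Option ℕ → List ℕ → ℕ
  | _, [] => 0
  | prev, a :: w => (if upp prev a then 1 else 0) + ascA (some a) w

noncomputable def stA (L : ℕ → ℕ → ℕ → Prop) (dat : ℕ → List ℕ → δ) :
    Option ℕ → List ℕ → List (δ × Bool)
  | _, [] => []
  | prev, a :: w => (if cnd L a w then [(dat a w, decide (dnn prev a))] else []) ++
      stA L dat (some a) w

noncomputable def slA (L : ℕ → ℕ → ℕ → Prop) (dat : ℕ → List ℕ → δ) :
    Option ℕ → List ℕ → List ℕ → List (δ × Bool)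
  | _, [], _ => []
  | prev, b :: p, rest => (if cnd L b (p ++ rest) then [(dat b (p ++ rest), decide (dnn prev b))]
      else []) ++ slA L dat (some b) p rest

def lastO : Option ℕ → List ℕ → Option ℕ
  | prev, [] => prev
  | _, b :: p => lastO (some b) p

theorem stA_split (L : ℕ → ℕ → ℕ → Prop) (dat : ℕ → List ℕ → δ) (rest : List ℕ) (p : List ℕ) :
    ∀ prev, stA L dat prev (p ++ rest) = slA L dat prev p rest ++ stA L dat (lastO prev p) rest := by
  induction p with
  | nil => intro prev; simp [slA, lastO]
  | cons b p ih => intro prev; simp only [List.cons_append, stA, slA, lastO, ih, List.append_assoc]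

theorem sp_stA (L : ℕ → ℕ → ℕ → Prop) (dat : ℕ → List ℕ → δ) (l : List ℕ) :
    ∀ (prev : Option ℕ) (Φ : List (δ × Bool) → δ × Bool → List (δ × Bool) → K),
    sp Φ (stA L dat prev l) = sp (fun p a w => if cnd L a w then
      Φ (slA L dat prev p (a :: w)) (dat a w, decide (dnn (lastO prev p) a))
        (stA L dat (some a) w) else 0) l := by
  induction l with
  | nil => intro prev Φ; rfl
  | cons a w ih =>
    intro prev Φ
    simp only [stA, sp_append, sp, slA, lastO]
    rw [ih (some a)]
    by_cases h : cnd L a w
    · simp only [if_pos h, sp, List.nil_append, add_zero]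
      congr 1
      apply sp_congr
      intro p b v hw
      subst hw
      rw [if_pos (show cnd L a (p ++ b :: v) from h)]
      rfl
    · simp only [if_neg h, sp, List.nil_append, zero_add]
      apply sp_congr
      intro p b v hw
      rw [hw] at h
      rw [if_neg (show ¬ cnd L a (p ++ b :: v) from h)]
      rfl

theorem ascA_insert {N a : ℕ} (haN : a < N) (w p : List ℕ) : ∀ prev : Option ℕ,
    (∀ b ∈ prev, b < N) → (∀ x ∈ p, x < N) →
    ascA prev (p ++ N :: a :: w) = ascA prev (p ++ a :: w) +
      (if dnn (lastO prev p) a then 1 else 0) := by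
  induction p with
  | nil =>
    intro prev hprev _
    simp only [List.nil_append, ascA, lastO]
    have h1 : ¬ upp (some N) a := by
      rintro ⟨b, hb, hlt⟩
      simp only [Option.mem_def, Option.some.injEq] at hb
      omega
    rw [if_neg h1]
    rcases prev with _ | b
    · have h2 : ∀ x, ¬ upp none x := by
        rintro x ⟨b, hb, _⟩
        simp at hb
      have h3 : ¬ dnn none a := by
        rintro ⟨b, hb, _⟩
        simp at hb
      rw [if_neg (h2 N), if_neg (h2 a), if_neg h3]
      omega
    · have hb := hprev b rfl
      have h2 : upp (some b) N := ⟨b, rfl, hb⟩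
      rw [if_pos h2]
      by_cases h : b < a
      · have h3 : ¬ dnn (some b) a := by
          rintro ⟨c, hc, hlt⟩
          simp only [Option.mem_def, Option.some.injEq] at hc
          omega
        rw [if_pos (show upp (some b) a from ⟨b, rfl, h⟩), if_neg h3]
        omega
      · have h3 : ¬ upp (some b) a := by
          rintro ⟨c, hc, hlt⟩
          simp only [Option.mem_def, Option.some.injEq] at hc
          omega
        rw [if_neg h3, if_pos (show dnn (some b) a from ⟨b, rfl, h⟩)]
        omega
  | cons b p ih =>
    intro prev hprev hp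
    have h := ih (some b) (by
      intro c hc
      simp only [Option.mem_def, Option.some.injEq] at hc
      rw [← hc]
      exact hp b (by simp)) (fun x hx => hp x (by simp [hx]))
    show (if upp prev b then 1 else 0) + ascA (some b) (p ++ N :: a :: w) =
      (if upp prev b then 1 else 0) + ascA (some b) (p ++ a :: w) +
        (if dnn (lastO (some b) p) a then 1 else 0)
    rw [h]
    omega

noncomputable def DA (L : ℕ → ℕ → ℕ → Prop) (q : K) : ℕ → ℕ → List ℕ → K
  | 0, _, l => q ^ ascA none l
  | k + 1, N, l => ((chA L N l).map (DA L q k (N + 1))).sum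

theorem DA_eq (L : ℕ → ℕ → ℕ → Prop) (q : K) (dat : ℕ → List ℕ → δ)
    (nw : List (δ × Bool) → δ × Bool → List (δ × Bool) → List (δ × Bool))
    (H : ∀ (p : List ℕ) (a : ℕ) (w : List ℕ) (N : ℕ), (∀ x ∈ p ++ a :: w, x < N) → cnd L a w →
      stA L dat none (p ++ N :: a :: w) = nw (slA L dat none p (a :: w))
        (dat a w, decide (dnn (lastO none p) a)) (stA L dat (some a) w)) (k : ℕ) :
    ∀ (N : ℕ) (l : List ℕ), (∀ x ∈ l, x < N) →
      DA L q k N l = q ^ ascA none l * Mc (wt q) nw k (stA L dat none l) := by
  induction k with
  | zero => intro N l _; simp [DA, Mc]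
  | succ k ih =>
    intro N l hl
    rw [DA, sum_chA, Mc, sp_stA, ← sp_mul]
    apply sp_congr
    intro p a w hS
    subst hS
    by_cases h : cnd L a w
    · rw [if_pos h, if_pos h, ih (N + 1) _ (by
        intro x hx
        simp only [List.mem_append, List.mem_cons] at hx
        rcases hx with hx | hx | hx | hx
        · have := hl x (by simp [hx]); omega
        · omega
        · have := hl x (by simp [hx]); omega
        · have := hl x (by simp [hx]); omega), H p a w N hl h,
        ascA_insert (hl a (by simp)) w p none (by simp) (fun x hx => hl x (by simp [hx]))]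
      by_cases hd : dnn (lastO none p) a
      · simp only [wt, hd, if_true, decide_true]
        ring
      · simp only [wt, hd, if_false, decide_false, Bool.false_eq_true]
        ring
    · rw [if_neg h, if_neg h, mul_zero]

theorem sum_TA (L : ℕ → ℕ → ℕ → Prop) (q : K) (n : ℕ) : ∀ k,
    ((TA L n).map (DA L q k (n + 1))).sum = DA L q (n + k) 1 [0] := by
  induction n with
  | zero => intro k; simp [TA]
  | succ n ih =>
    intro k
    have h := ih (k + 1)
    rw [show n + (k + 1) = n + 1 + k by ring] at h
    rw [← h, TA]
    generalize TA L n = T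
    induction T with
    | nil => simp
    | cons l T ihT =>
      rw [List.flatMap_cons, List.map_append, List.sum_append, ihT, List.map_cons, List.sum_cons]
      rfl

/-! ### Class B -/

/-- The next entry exists and is not smaller than `a`. -/
def nup (a : ℕ) : List ℕ → Prop
  | [] => False
  | b :: _ => ¬ b < a

noncomputable def desB : List ℕ → ℕ
  | [] => 0
  | [_] => 0
  | a :: b :: w => (if b < a then 1 else 0) + desB (b :: w)

noncomputable def stB (L : ℕ → ℕ → ℕ → Prop) (dat : ℕ → List ℕ → δ) : List ℕ → List (δ × Bool)
  | [] => []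
  | a :: w => (if cnd L a w then [(dat a w, decide (nup a w))] else []) ++ stB L dat w

noncomputable def slB (L : ℕ → ℕ → ℕ → Prop) (dat : ℕ → List ℕ → δ) :
    List ℕ → List ℕ → List (δ × Bool)
  | [], _ => []
  | b :: p, rest => (if cnd L b (p ++ rest) then [(dat b (p ++ rest), decide (nup b (p ++ rest)))]
      else []) ++ slB L dat p rest

theorem stB_split (L : ℕ → ℕ → ℕ → Prop) (dat : ℕ → List ℕ → δ) (rest : List ℕ) (p : List ℕ) :
    stB L dat (p ++ rest) = slB L dat p rest ++ stB L dat rest := by
  induction p with
  | nil => simp [slB]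
  | cons b p ih => simp only [List.cons_append, stB, slB, ih, List.append_assoc]

theorem sp_stB (L : ℕ → ℕ → ℕ → Prop) (dat : ℕ → List ℕ → δ) (l : List ℕ) :
    ∀ (Φ : List (δ × Bool) → δ × Bool → List (δ × Bool) → K),
    sp Φ (stB L dat l) = sp (fun p a w => if cnd L a w then
      Φ (slB L dat p (a :: w)) (dat a w, decide (nup a w)) (stB L dat w) else 0) l := by
  induction l with
  | nil => intro Φ; rfl
  | cons a w ih =>
    intro Φ
    simp only [stB, sp_append, sp, slB]
    rw [ih]
    by_cases h : cnd L a w
    · simp only [if_pos h, sp, List.nil_append, add_zero]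
      congr 1
      apply sp_congr
      intro p b v hw
      subst hw
      rw [if_pos (show cnd L a (p ++ b :: v) from h)]
    · simp only [if_neg h, sp, List.nil_append, zero_add]
      apply sp_congr
      intro p b v hw
      rw [hw] at h
      rw [if_neg (show ¬ cnd L a (p ++ b :: v) from h)]
      rfl

theorem desB_insert {N a : ℕ} (haN : a < N) (w p : List ℕ) (hw : ∀ x ∈ w, x < N) :
    desB (p ++ a :: N :: w) = desB (p ++ a :: w) + (if nup a w then 1 else 0) := by
  induction p with
  | nil =>
    rcases w with _ | ⟨b, v⟩
    · have : ¬ N < a := by omega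
      simp [desB, nup, this]
    · have hb := hw b (by simp)
      simp only [List.nil_append, desB, nup]
      rw [if_neg (show ¬ N < a by omega), if_pos hb]
      by_cases h : b < a
      · simp [h]
      · simp [h, Nat.add_comm]
  | cons c p ih =>
    rcases p with _ | ⟨c', p⟩
    · simp only [List.cons_append, List.nil_append] at ih ⊢
      rw [desB, ih, desB]
      omega
    · simp only [List.cons_append] at ih ⊢
      rw [desB, ih, desB]
      omega

noncomputable def DB (L : ℕ → ℕ → ℕ → Prop) (q : K) : ℕ → ℕ → List ℕ → K
  | 0, _, l => q ^ desB l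
  | k + 1, N, l => ((chB L N l).map (DB L q k (N + 1))).sum

theorem DB_eq (L : ℕ → ℕ → ℕ → Prop) (q : K) (dat : ℕ → List ℕ → δ)
    (nw : List (δ × Bool) → δ × Bool → List (δ × Bool) → List (δ × Bool))
    (H : ∀ (p : List ℕ) (a : ℕ) (w : List ℕ) (N : ℕ), (∀ x ∈ p ++ a :: w, x < N) → cnd L a w →
      stB L dat (p ++ a :: N :: w) = nw (slB L dat p (a :: w))
        (dat a w, decide (nup a w)) (stB L dat w)) (k : ℕ) :
    ∀ (N : ℕ) (l : List ℕ), (∀ x ∈ l, x < N) →
      DB L q k N l = q ^ desB l * Mc (wt q) nw k (stB L dat l) := by
  induction k with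
  | zero => intro N l _; simp [DB, Mc]
  | succ k ih =>
    intro N l hl
    rw [DB, sum_chB, Mc, sp_stB, ← sp_mul]
    apply sp_congr
    intro p a w hS
    subst hS
    by_cases h : cnd L a w
    · rw [if_pos h, if_pos h, ih (N + 1) _ (by
        intro x hx
        simp only [List.mem_append, List.mem_cons] at hx
        rcases hx with hx | hx | hx | hx
        · have := hl x (by simp [hx]); omega
        · have := hl x (by simp [hx]); omega
        · omega
        · have := hl x (by simp [hx]); omega), H p a w N hl h,
        desB_insert (hl a (by simp)) w p (fun x hx => hl x (by simp [hx]))]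
      by_cases hd : nup a w
      · simp only [wt, hd, if_true, decide_true]
        ring
      · simp only [wt, hd, if_false, decide_false, Bool.false_eq_true]
        ring
    · rw [if_neg h, if_neg h, mul_zero]

theorem sum_TB (L : ℕ → ℕ → ℕ → Prop) (q : K) (n : ℕ) : ∀ k,
    ((TB L n).map (DB L q k (n + 1))).sum = DB L q (n + k) 1 [0] := by
  induction n with
  | zero => intro k; simp [TB]
  | succ n ih =>
    intro k
    have h := ih (k + 1)
    rw [show n + (k + 1) = n + 1 + k by ring] at h
    rw [← h, TB]
    generalize TB L n = T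
    induction T with
    | nil => simp
    | cons l T ihT =>
      rw [List.flatMap_cons, List.map_append, List.sum_append, ihT, List.map_cons, List.sum_cons]
      rfl

end R209.DW
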