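import Mathlib
import Pool.Agent.Helper27.Har.P_global_ode

set_option autoImplicit false

open Set Real
open scoped NNReal

namespace Pool.Agent.R209

/-- bounded Lipschitz real functions -/
def BLip {X : Type*} [PseudoMetricSpace X] (f : X → ℝ) : Prop :=
  (∃ K : ℝ≥0, LipschitzWith K f) ∧ ∃ M : ℝ, ∀ x, |f x| ≤ M

lemma BLip.mul {X : Type*} [PseudoMetricSpace X] {f g : X → ℝ} (hf : BLip f) (hg : BLip g) :
    BLip (fun x => f x * g x) := by
  obtain ⟨⟨K, hK⟩, M, hM⟩ := hf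
  obtain ⟨⟨K', hK'⟩, M', hM'⟩ := hg
  refine ⟨⟨(M.toNNReal * K' + M'.toNNReal * K), ?_⟩, M.toNNReal * M'.toNNReal, ?_⟩
  · refine LipschitzWith.of_dist_le_mul fun x y => ?_
    rw [Real.dist_eq]
    have e : f x * g x - f y * g y = f x * (g x - g y) + g y * (f x - f y) := by ring
    rw [e]
    have h1 := hK.dist_le_mul x y
    have h2 := hK'.dist_le_mul x y
    rw [Real.dist_eq] at h1 h2
    have hMx : |f x| ≤ (M.toNNReal : ℝ) := (hM x).trans (Real.le_coe_toNNReal M)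
    have hMy : |g y| ≤ (M'.toNNReal : ℝ) := (hM' y).trans (Real.le_coe_toNNReal M')
    calc |f x * (g x - g y) + g y * (f x - f y)|
        ≤ |f x| * |g x - g y| + |g y| * |f x - f y| := by
          rw [← abs_mul, ← abs_mul]; exact abs_add_le _ _
      _ ≤ (M.toNNReal : ℝ) * (K' * dist x y) + (M'.toNNReal : ℝ) * (K * dist x y) := by
          gcongr
      _ = _ := by push_cast; ring
  · intro x
    rw [abs_mul]
    have hMx : |f x| ≤ (M.toNNReal : ℝ) := (hM x).trans (Real.le_coe_toNNReal M)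
    have hMy : |g x| ≤ (M'.toNNReal : ℝ) := (hM' x).trans (Real.le_coe_toNNReal M')
    gcongr

lemma BLip.neg {X : Type*} [PseudoMetricSpace X] {f : X → ℝ} (hf : BLip f) :
    BLip (fun x => - f x) := by
  obtain ⟨⟨K, hK⟩, M, hM⟩ := hf
  refine ⟨⟨K, ?_⟩, M, fun x => by simpa using hM x⟩
  refine LipschitzWith.of_dist_le_mul fun x y => ?_
  have := hK.dist_le_mul x y
  rw [Real.dist_eq] at *
  rw [show -f x - -f y = -(f x - f y) by ring, abs_neg]
  exact this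

lemma rpow_lip {r : ℝ} (hr : r ≤ 0) : LipschitzOnWith (-r).toNNReal (fun y : ℝ => y ^ r) (Ici 1) := by
  refine Convex.lipschitzOnWith_of_nnnorm_deriv_le (s := Ici (1:ℝ)) (fun x hx => ?_) (fun x hx => ?_)
    (convex_Ici 1)
  · have hx0 : (0:ℝ) < x := lt_of_lt_of_le one_pos hx
    exact (Real.hasDerivAt_rpow_const (Or.inl hx0.ne')).differentiableAt
  · have hx0 : (0:ℝ) < x := lt_of_lt_of_le one_pos hx
    rw [(Real.hasDerivAt_rpow_const (Or.inl hx0.ne')).deriv]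
    rw [← NNReal.coe_le_coe, coe_nnnorm, Real.norm_eq_abs, Real.coe_toNNReal _ (by linarith), abs_mul,
      abs_of_nonpos hr, abs_of_nonneg (Real.rpow_nonneg hx0.le _)]
    have : x ^ (r - 1) ≤ 1 := Real.rpow_le_one_of_one_le_of_nonpos hx (by linarith)
    nlinarith

lemma BLip.rpow {X : Type*} [PseudoMetricSpace X] {f : X → ℝ} (hf : ∃ K : ℝ≥0, LipschitzWith K f)
    (h1 : ∀ x, 1 ≤ f x) {r : ℝ} (hr : r ≤ 0) : BLip (fun x => f x ^ r) := by
  obtain ⟨K, hK⟩ := hf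
  refine ⟨⟨(-r).toNNReal * K, ?_⟩, 1, fun x => ?_⟩
  · have := (rpow_lip hr).comp (hK.lipschitzOnWith (s := univ)) (fun x _ => h1 x)
    exact lipschitzOnWith_univ.1 this
  · rw [abs_of_nonneg (Real.rpow_nonneg (by linarith [h1 x]) _)]
    exact Real.rpow_le_one_of_one_le_of_nonpos (h1 x) hr

/-- positions `(z, w, c)` -/
abbrev V3 : Type := ℝ × ℝ × ℝ

noncomputable def zt (p : V3) : ℝ := max p.1 1
noncomputable def ct (p : V3) : ℝ := max p.2.2 1
noncomputable def wt (p : V3) : ℝ := max (-(zt p / 2)) (min p.2.1 (zt p / 2))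
noncomputable def xt (p : V3) : ℝ := wt p / zt p

lemma one_le_zt (p : V3) : 1 ≤ zt p := le_max_right _ _
lemma one_le_ct (p : V3) : 1 ≤ ct p := le_max_right _ _
lemma zt_pos (p : V3) : 0 < zt p := lt_of_lt_of_le one_pos (one_le_zt p)
lemma ct_pos (p : V3) : 0 < ct p := lt_of_lt_of_le one_pos (one_le_ct p)

lemma zt_lip : LipschitzWith 1 zt := (LipschitzWith.prod_fst).max_const 1

lemma ct_lip : LipschitzWith 1 ct := by
  have h : LipschitzWith 1 (fun p : V3 => p.2.2) := by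
    have := LipschitzWith.comp (LipschitzWith.prod_snd (α := ℝ) (β := ℝ))
      (LipschitzWith.prod_snd (α := ℝ) (β := ℝ × ℝ))
    rw [one_mul] at this
    exact this
  exact h.max_const 1

lemma wt_lip : ∃ K : ℝ≥0, LipschitzWith K wt := by
  have h : LipschitzWith 1 (fun p : V3 => p.2.1) := by
    have := LipschitzWith.comp (LipschitzWith.prod_fst (α := ℝ) (β := ℝ))
      (LipschitzWith.prod_snd (α := ℝ) (β := ℝ × ℝ))
    rw [one_mul] at this
    exact this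
  have h2 : LipschitzWith 1 (fun p : V3 => zt p / 2) := by
    refine LipschitzWith.of_dist_le_mul fun x y => ?_
    have := zt_lip.dist_le_mul x y
    rw [Real.dist_eq] at *
    rw [show zt x / 2 - zt y / 2 = (zt x - zt y) / 2 by ring, abs_div, abs_of_pos (two_pos : (0:ℝ) < 2)]
    have h0 := abs_nonneg (zt x - zt y)
    linarith
  have h3 : LipschitzWith 1 (fun p : V3 => -(zt p / 2)) := by
    refine LipschitzWith.of_dist_le_mul fun x y => ?_
    have := h2.dist_le_mul x y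
    rw [Real.dist_eq] at *
    rw [show -(zt x / 2) - -(zt y / 2) = -(zt x / 2 - zt y / 2) by ring, abs_neg]
    exact this
  exact ⟨_, h3.max (h.min h2)⟩

lemma abs_wt_le (p : V3) : |wt p| ≤ zt p / 2 := by
  have h := zt_pos p
  rw [abs_le]
  refine ⟨le_max_left _ _, ?_⟩
  unfold wt
  exact max_le (by linarith) (min_le_right _ _)

lemma abs_xt_le (p : V3) : |xt p| ≤ 1 / 2 := by
  unfold xt
  rw [abs_div, abs_of_pos (zt_pos p), div_le_iff₀ (zt_pos p)]
  have := abs_wt_le p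
  linarith

lemma xt_blip : BLip xt := by
  obtain ⟨K, hK⟩ := wt_lip
  refine ⟨⟨K + 1, ?_⟩, 1 / 2, abs_xt_le⟩
  refine LipschitzWith.of_dist_le_mul fun x y => ?_
  have h1 := hK.dist_le_mul x y
  have h2 := zt_lip.dist_le_mul x y
  rw [Real.dist_eq] at *
  unfold xt
  have hx := zt_pos x
  have hy := zt_pos y
  have e : wt x / zt x - wt y / zt y = (wt x - wt y) / zt x - (wt y / zt y) * ((zt x - zt y) / zt x) := by
    field_simp
    ring
  rw [e]
  have a1 : |(wt x - wt y) / zt x| ≤ |wt x - wt y| := by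
    rw [abs_div, abs_of_pos hx]
    exact div_le_self (abs_nonneg _) (one_le_zt x)
  have a2 : |(wt y / zt y) * ((zt x - zt y) / zt x)| ≤ |zt x - zt y| := by
    rw [abs_mul, abs_div (zt x - zt y), abs_of_pos hx]
    have b1 : |wt y / zt y| ≤ 1 := (abs_xt_le y).trans (by norm_num)
    have b2 : |zt x - zt y| / zt x ≤ |zt x - zt y| := div_le_self (abs_nonneg _) (one_le_zt x)
    calc |wt y / zt y| * (|zt x - zt y| / zt x) ≤ 1 * |zt x - zt y| := by gcongr
      _ = _ := one_mul _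
  calc _ ≤ |(wt x - wt y) / zt x| + |(wt y / zt y) * ((zt x - zt y) / zt x)| := abs_sub _ _
    _ ≤ K * dist x y + 1 * dist x y := by
      refine add_le_add (a1.trans h1) (a2.trans ?_)
      simpa using h2
    _ = _ := by push_cast; ring

lemma xpow_blip (r : ℝ) : BLip (fun p : V3 => (1 - xt p ^ 2) ^ r) := by
  have hcd : ContDiffOn ℝ 1 (fun x : ℝ => (1 - x ^ 2) ^ r) (Icc (-(1/2)) (1/2)) := by
    intro x hx
    have : (1:ℝ) - x ^ 2 ≠ 0 := by
      have h1 : x ^ 2 ≤ (1/2) ^ 2 := by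
        apply sq_le_sq'  <;> linarith [hx.1, hx.2]
      have : (0:ℝ) < 1 - x ^ 2 := by nlinarith
      exact this.ne'
    have h2 : ContDiffAt ℝ 1 (fun x : ℝ => 1 - x ^ 2) x := by fun_prop
    exact (h2.rpow_const_of_ne this).contDiffWithinAt
  obtain ⟨K, hK⟩ := hcd.exists_lipschitzOnWith one_ne_zero (convex_Icc _ _) isCompact_Icc
  obtain ⟨M, hM⟩ := isCompact_Icc.exists_bound_of_continuousOn hcd.continuousOn
  obtain ⟨⟨K', hK'⟩, -⟩ := xt_blip
  have hm : ∀ p : V3, xt p ∈ Icc (-(1/2):ℝ) (1/2) := fun p => abs_le.1 (abs_xt_le p)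
  refine ⟨⟨K * K', ?_⟩, M, fun p => hM _ (hm p)⟩
  have := hK.comp (hK'.lipschitzOnWith (s := univ)) (fun x _ => hm x)
  exact lipschitzOnWith_univ.1 this

section Field

variable (γ δ : ℝ)

/-- the truncated forces -/
noncomputable def F1 (p : V3) : ℝ := (1 - xt p ^ 2) ^ (-γ) * zt p ^ (1 - 2 * γ) * ct p ^ (-δ)
noncomputable def F2 (p : V3) : ℝ := -(F1 γ δ p * xt p)
noncomputable def F3 (p : V3) : ℝ := (1 - xt p ^ 2) ^ (1 - γ) * zt p ^ (2 - 2 * γ) * ct p ^ (-δ - 1)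

variable {γ δ}

lemma F1_blip (hγ : 1 ≤ γ) (hδ : 0 ≤ δ) : BLip (F1 γ δ) :=
  ((xpow_blip _).mul (BLip.rpow ⟨1, zt_lip⟩ one_le_zt (by linarith))).mul
    (BLip.rpow ⟨1, ct_lip⟩ one_le_ct (by linarith))

lemma F2_blip (hγ : 1 ≤ γ) (hδ : 0 ≤ δ) : BLip (F2 γ δ) := ((F1_blip hγ hδ).mul xt_blip).neg

lemma F3_blip (hγ : 1 ≤ γ) (hδ : 0 ≤ δ) : BLip (F3 γ δ) :=
  ((xpow_blip _).mul (BLip.rpow ⟨1, zt_lip⟩ one_le_zt (by linarith))).mul
    (BLip.rpow ⟨1, ct_lip⟩ one_le_ct (by linarith))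

/-- the vector field of the first order system -/
noncomputable def Fld (γ δ : ℝ) (q : V3 × V3) : V3 × V3 :=
  (q.2, (F1 γ δ q.1, F2 γ δ q.1, F3 γ δ q.1))

lemma Fld_lip (hγ : 1 ≤ γ) (hδ : 0 ≤ δ) : ∃ K : ℝ≥0, LipschitzWith K (Fld γ δ) := by
  obtain ⟨⟨K1, h1⟩, -⟩ := F1_blip hγ hδ
  obtain ⟨⟨K2, h2⟩, -⟩ := F2_blip hγ hδ
  obtain ⟨⟨K3, h3⟩, -⟩ := F3_blip hγ hδ
  have hf : LipschitzWith 1 (fun q : V3 × V3 => q.1) := LipschitzWith.prod_fst
  have hs : LipschitzWith 1 (fun q : V3 × V3 => q.2) := LipschitzWith.prod_snd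
  exact ⟨_, hs.prodMk ((h1.comp hf).prodMk ((h2.comp hf).prodMk (h3.comp hf)))⟩

lemma exists_sol (hγ : 1 ≤ γ) (hδ : 0 ≤ δ) (s : ℝ) : ∃ ξ : ℝ → V3 × V3,
    ξ 0 = ((1, 0, 1), (0, s, 0)) ∧ ∀ t, HasDerivAt ξ (Fld γ δ (ξ t)) t := by
  obtain ⟨K, hK⟩ := Fld_lip (γ := γ) (δ := δ) hγ hδ
  exact Haraux.global_ode (fun _ => Fld γ δ) K (fun _ => hK)
    (hK.continuous.comp continuous_snd) _

end Field

end Pool.Agent.R209
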