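import Mathlib
import Pool.Agent.R209.GasField

set_option autoImplicit false

open Set Real
open scoped NNReal

namespace Pool.Agent.R209

lemma lower_bd {f f' : ℝ → ℝ} (hf : ∀ t, HasDerivAt f (f' t) t) {a b m : ℝ} (hab : a ≤ b)
    (h : ∀ t ∈ Icc a b, m ≤ f' t) : f a + m * (b - a) ≤ f b := by
  have := Convex.mul_sub_le_image_sub_of_le_deriv (convex_Icc a b)
    (f := f) (fun t _ => (hf t).continuousAt.continuousWithinAt)
    (fun t _ => (hf t).differentiableAt.differentiableWithinAt) (C := m) (by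
      intro x hx
      rw [interior_Icc] at hx
      rw [(hf x).deriv]
      exact h x (Ioo_subset_Icc_self hx)) a (left_mem_Icc.2 hab) b (right_mem_Icc.2 hab) hab
  linarith

lemma upper_bd {f f' : ℝ → ℝ} (hf : ∀ t, HasDerivAt f (f' t) t) {a b m : ℝ} (hab : a ≤ b)
    (h : ∀ t ∈ Icc a b, f' t ≤ m) : f b ≤ f a + m * (b - a) := by
  have := lower_bd (f := fun t => - f t) (f' := fun t => - f' t) (fun t => (hf t).neg) hab (m := -m)
    (fun t ht => by linarith [h t ht])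
  linarith

/-! ### symmetry of the truncated forces -/

lemma wt_neg (z w c : ℝ) : wt (z, -w, c) = - wt (z, w, c) := by
  have hz : (0:ℝ) ≤ max z 1 / 2 := by
    have : (1:ℝ) ≤ max z 1 := le_max_right _ _
    linarith
  simp only [wt, zt]
  rcases le_total w (max z 1 / 2) with h1 | h1
  · rcases le_total (-(max z 1 / 2)) w with h2 | h2
    · rw [min_eq_left h1, max_eq_right h2, min_eq_left (by linarith), max_eq_right (by linarith)]
    · rw [min_eq_left h1, max_eq_left h2, min_eq_right (by linarith), max_eq_right (by linarith)]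
      ring
  · have e1 : min (-w) (max z 1 / 2) = -w := min_eq_left (by linarith)
    have e2 : max (-(max z 1 / 2)) (-w) = -(max z 1 / 2) := max_eq_left (by linarith)
    have e3 : max (-(max z 1 / 2)) (max z 1 / 2) = max z 1 / 2 := max_eq_right (by linarith)
    rw [min_eq_right h1, e1, e2, e3]

lemma xt_neg (z w c : ℝ) : xt (z, -w, c) = - xt (z, w, c) := by
  unfold xt
  rw [wt_neg, neg_div]
  rfl

lemma F1_neg (γ δ z w c : ℝ) : F1 γ δ (z, -w, c) = F1 γ δ (z, w, c) := by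
  unfold F1
  rw [xt_neg, neg_sq]
  rfl

lemma F2_neg (γ δ z w c : ℝ) : F2 γ δ (z, -w, c) = - F2 γ δ (z, w, c) := by
  unfold F2
  rw [F1_neg, xt_neg]
  ring

lemma F3_neg (γ δ z w c : ℝ) : F3 γ δ (z, -w, c) = F3 γ δ (z, w, c) := by
  unfold F3
  rw [xt_neg, neg_sq]
  rfl

/-- The motion. -/
structure Sys (γ δ s : ℝ) (z w c zv wv cv : ℝ → ℝ) : Prop where
  hz : ∀ t, HasDerivAt z (zv t) t
  hw : ∀ t, HasDerivAt w (wv t) t
  hc : ∀ t, HasDerivAt c (cv t) t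
  hzv : ∀ t, HasDerivAt zv (F1 γ δ (z t, w t, c t)) t
  hwv : ∀ t, HasDerivAt wv (F2 γ δ (z t, w t, c t)) t
  hcv : ∀ t, HasDerivAt cv (F3 γ δ (z t, w t, c t)) t
  z0 : z 0 = 1
  w0 : w 0 = 0
  c0 : c 0 = 1
  zv0 : zv 0 = 0
  wv0 : wv 0 = s
  cv0 : cv 0 = 0
  sym : ∀ t, z (-t) = z t ∧ w (-t) = - w t ∧ c (-t) = c t

lemma exists_sys {γ δ : ℝ} (hγ : 1 ≤ γ) (hδ : 0 ≤ δ) (s : ℝ) :
    ∃ z w c zv wv cv : ℝ → ℝ, Sys γ δ s z w c zv wv cv := by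
  obtain ⟨ξ, h0, hξ⟩ := exists_sol (γ := γ) (δ := δ) hγ hδ s
  have c1 : ∀ t, HasDerivAt (fun t => (ξ t).1) ((ξ t).2) t := fun t => (hξ t).fst
  have c2 : ∀ t, HasDerivAt (fun t => (ξ t).2) (F1 γ δ (ξ t).1, F2 γ δ (ξ t).1, F3 γ δ (ξ t).1) t :=
    fun t => (hξ t).snd
  have d1 : ∀ t, HasDerivAt (fun t => (ξ t).1.1) ((ξ t).2.1) t := fun t => (c1 t).fst
  have d2 : ∀ t, HasDerivAt (fun t => (ξ t).1.2.1) ((ξ t).2.2.1) t := fun t => (c1 t).snd.fst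
  have d3 : ∀ t, HasDerivAt (fun t => (ξ t).1.2.2) ((ξ t).2.2.2) t := fun t => (c1 t).snd.snd
  have e1 : ∀ t, HasDerivAt (fun t => (ξ t).2.1) (F1 γ δ (ξ t).1) t := fun t => (c2 t).fst
  have e2 : ∀ t, HasDerivAt (fun t => (ξ t).2.2.1) (F2 γ δ (ξ t).1) t := fun t => (c2 t).snd.fst
  have e3 : ∀ t, HasDerivAt (fun t => (ξ t).2.2.2) (F3 γ δ (ξ t).1) t := fun t => (c2 t).snd.snd
  have hsym : ξ = fun t => (((ξ (-t)).1.1, -(ξ (-t)).1.2.1, (ξ (-t)).1.2.2),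
      (-(ξ (-t)).2.1, (ξ (-t)).2.2.1, -(ξ (-t)).2.2.2)) := by
    obtain ⟨K, hK⟩ := Fld_lip (γ := γ) (δ := δ) hγ hδ
    refine ODE_solution_unique_univ (v := fun _ => Fld γ δ) (s := fun _ => univ) (K := K) (t₀ := 0)
      (fun t => hK.lipschitzOnWith) (fun t => ⟨hξ t, mem_univ _⟩) (fun t => ⟨?_, mem_univ _⟩) ?_
    · have hn : HasDerivAt (fun t : ℝ => -t) (-1) t := hasDerivAt_neg t
      have a1 := (d1 (-t)).scomp t hn
      have a2 := ((d2 (-t)).scomp t hn).neg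
      have a3 := (d3 (-t)).scomp t hn
      have b1 := ((e1 (-t)).scomp t hn).neg
      have b2 := (e2 (-t)).scomp t hn
      have b3 := ((e3 (-t)).scomp t hn).neg
      have key := (a1.prodMk (a2.prodMk a3)).prodMk (b1.prodMk (b2.prodMk b3))
      refine key.congr_deriv ?_
      simp only [Fld, smul_eq_mul, neg_mul, one_mul, neg_neg, F1_neg, F2_neg, F3_neg, Prod.mk.eta]
    · simp [h0]
  refine ⟨fun t => (ξ t).1.1, fun t => (ξ t).1.2.1, fun t => (ξ t).1.2.2, fun t => (ξ t).2.1,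
    fun t => (ξ t).2.2.1, fun t => (ξ t).2.2.2, ⟨d1, d2, d3, e1, e2, e3, ?_, ?_, ?_, ?_, ?_, ?_, ?_⟩⟩
  · simp [h0]
  · simp [h0]
  · simp [h0]
  · simp [h0]
  · simp [h0]
  · simp [h0]
  · intro t
    have h := congrFun hsym t
    have h1 := congrArg (fun q => q.1.1) h
    have h2 := congrArg (fun q => q.1.2.1) h
    have h3 := congrArg (fun q => q.1.2.2) h
    simp only at h1 h2 h3
    exact ⟨h1.symm, by rw [h2]; ring, h3.symm⟩

section Analysis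

variable {γ δ : ℝ}

lemma one_sub_xt_pos (p : V3) : 3 / 4 ≤ 1 - xt p ^ 2 ∧ 1 - xt p ^ 2 ≤ 1 := by
  have h := abs_xt_le p
  have h2 : xt p ^ 2 ≤ (1/2) ^ 2 := by
    rw [← sq_abs (xt p)]
    gcongr
  constructor
  · norm_num at h2 ⊢; linarith
  · nlinarith [sq_nonneg (xt p)]

lemma F1_pos (p : V3) : 0 < F1 γ δ p := by
  have h := (one_sub_xt_pos p).1
  have h1 : 0 < 1 - xt p ^ 2 := by linarith
  unfold F1
  have := zt_pos p
  have := ct_pos p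
  positivity

lemma F3_pos (p : V3) : 0 < F3 γ δ p := by
  have h := (one_sub_xt_pos p).1
  have h1 : 0 < 1 - xt p ^ 2 := by linarith
  unfold F3
  have := zt_pos p
  have := ct_pos p
  positivity

/-- upper bounds for the forces -/
lemma F1_le (hγ : 1 < γ) (hδ : 0 ≤ δ) (p : V3) : F1 γ δ p ≤ (3/4 : ℝ) ^ (-γ) := by
  have h := (one_sub_xt_pos p).1
  have h1 : 0 < 1 - xt p ^ 2 := by linarith
  have a : (1 - xt p ^ 2) ^ (-γ) ≤ (3/4 : ℝ) ^ (-γ) :=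
    Real.rpow_le_rpow_of_nonpos (by norm_num) h (by linarith)
  have b : zt p ^ (1 - 2 * γ) ≤ 1 := Real.rpow_le_one_of_one_le_of_nonpos (one_le_zt p) (by linarith)
  have c : ct p ^ (-δ) ≤ 1 := Real.rpow_le_one_of_one_le_of_nonpos (one_le_ct p) (by linarith)
  have hz := zt_pos p
  have hc := ct_pos p
  unfold F1
  calc (1 - xt p ^ 2) ^ (-γ) * zt p ^ (1 - 2 * γ) * ct p ^ (-δ) ≤ (3/4 : ℝ) ^ (-γ) * 1 * 1 := by
        gcongr
    _ = _ := by ring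

lemma F3_le (hγ : 1 < γ) (hδ : 0 ≤ δ) (p : V3) : F3 γ δ p ≤ (3/4 : ℝ) ^ (1 - γ) := by
  have h := (one_sub_xt_pos p).1
  have h1 : 0 < 1 - xt p ^ 2 := by linarith
  have a : (1 - xt p ^ 2) ^ (1 - γ) ≤ (3/4 : ℝ) ^ (1 - γ) :=
    Real.rpow_le_rpow_of_nonpos (by norm_num) h (by linarith)
  have b : zt p ^ (2 - 2 * γ) ≤ 1 := Real.rpow_le_one_of_one_le_of_nonpos (one_le_zt p) (by linarith)
  have c : ct p ^ (-δ - 1) ≤ 1 := Real.rpow_le_one_of_one_le_of_nonpos (one_le_ct p) (by linarith)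
  have hz := zt_pos p
  have hc := ct_pos p
  unfold F3
  calc (1 - xt p ^ 2) ^ (1 - γ) * zt p ^ (2 - 2 * γ) * ct p ^ (-δ - 1) ≤ (3/4 : ℝ) ^ (1 - γ) * 1 * 1 := by
        gcongr
    _ = _ := by ring

/-- lower bound for the first force -/
lemma F1_ge (hγ : 1 < γ) (hδ : 0 ≤ δ) {p : V3} {Z C : ℝ} (hZ : zt p ≤ Z) (hC : ct p ≤ C) :
    Z ^ (1 - 2 * γ) * C ^ (-δ) ≤ F1 γ δ p := by
  have h := one_sub_xt_pos p
  have h1 : 0 < 1 - xt p ^ 2 := by linarith [h.1]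
  have a : 1 ≤ (1 - xt p ^ 2) ^ (-γ) := Real.one_le_rpow_of_pos_of_le_one_of_nonpos h1 h.2 (by linarith)
  have hz := zt_pos p
  have hc := ct_pos p
  have b : Z ^ (1 - 2 * γ) ≤ zt p ^ (1 - 2 * γ) := Real.rpow_le_rpow_of_nonpos hz hZ (by linarith)
  have c : C ^ (-δ) ≤ ct p ^ (-δ) := Real.rpow_le_rpow_of_nonpos hc hC (by linarith)
  have hZ0 : 0 < Z := lt_of_lt_of_le hz hZ
  have hC0 : 0 < C := lt_of_lt_of_le hc hC
  unfold F1
  calc Z ^ (1 - 2 * γ) * C ^ (-δ) = 1 * Z ^ (1 - 2 * γ) * C ^ (-δ) := by ring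
    _ ≤ (1 - xt p ^ 2) ^ (-γ) * zt p ^ (1 - 2 * γ) * ct p ^ (-δ) := by gcongr

noncomputable def B1 (γ : ℝ) : ℝ := (3/4 : ℝ) ^ (-γ)
noncomputable def B3 (γ : ℝ) : ℝ := (3/4 : ℝ) ^ (1 - γ)
noncomputable def q0 (γ δ : ℝ) : ℝ := (1 + B1 γ) ^ (1 - 2 * γ) * (1 + B3 γ) ^ (-δ)

lemma B1_pos : 0 < B1 γ := by unfold B1; positivity
lemma B3_pos : 0 < B3 γ := by unfold B3; positivity
lemma q0_pos : 0 < q0 γ δ := by
  have := B1_pos (γ := γ)
  have := B3_pos (γ := γ)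
  unfold q0; positivity
lemma q0_le_one (hγ : 1 < γ) (hδ : 0 ≤ δ) : q0 γ δ ≤ 1 := by
  have h1 := B1_pos (γ := γ)
  have h3 := B3_pos (γ := γ)
  unfold q0
  have b : (1 + B1 γ) ^ (1 - 2 * γ) ≤ 1 := Real.rpow_le_one_of_one_le_of_nonpos (by linarith) (by linarith)
  have c : (1 + B3 γ) ^ (-δ) ≤ 1 := Real.rpow_le_one_of_one_le_of_nonpos (by linarith) (by linarith)
  calc _ ≤ (1:ℝ) * 1 := by gcongr
    _ = 1 := by ring

variable {s : ℝ} {z w c zv wv cv : ℝ → ℝ}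

lemma Sys.zv_nonneg (h : Sys γ δ s z w c zv wv cv) {t : ℝ} (ht : 0 ≤ t) : 0 ≤ zv t := by
  have := lower_bd h.hzv (m := 0) ht (fun t _ => (F1_pos _).le)
  rw [h.zv0] at this
  linarith

lemma Sys.cv_nonneg (h : Sys γ δ s z w c zv wv cv) {t : ℝ} (ht : 0 ≤ t) : 0 ≤ cv t := by
  have := lower_bd h.hcv (m := 0) ht (fun t _ => (F3_pos _).le)
  rw [h.cv0] at this
  linarith

lemma Sys.one_le_z (h : Sys γ δ s z w c zv wv cv) {t : ℝ} (ht : 0 ≤ t) : 1 ≤ z t := by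
  have := lower_bd h.hz (m := 0) ht (fun t ht => h.zv_nonneg ht.1)
  rw [h.z0] at this
  linarith

lemma Sys.one_le_c (h : Sys γ δ s z w c zv wv cv) {t : ℝ} (ht : 0 ≤ t) : 1 ≤ c t := by
  have := lower_bd h.hc (m := 0) ht (fun t ht => h.cv_nonneg ht.1)
  rw [h.c0] at this
  linarith

lemma Sys.z_le (h : Sys γ δ s z w c zv wv cv) (hγ : 1 < γ) (hδ : 0 ≤ δ) {t : ℝ} (ht : t ∈ Icc (0:ℝ) 1) :
    z t ≤ 1 + B1 γ := by
  have hB := B1_pos (γ := γ)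
  have h1 : ∀ τ ∈ Icc (0:ℝ) t, zv τ ≤ B1 γ := by
    intro τ hτ
    have := upper_bd h.hzv (m := B1 γ) hτ.1 (fun _ _ => F1_le hγ hδ _)
    rw [h.zv0] at this
    have h2 : τ ≤ 1 := hτ.2.trans ht.2
    nlinarith
  have := upper_bd h.hz (m := B1 γ) ht.1 h1
  rw [h.z0] at this
  have h2 : t ≤ 1 := ht.2
  nlinarith

lemma Sys.c_le (h : Sys γ δ s z w c zv wv cv) (hγ : 1 < γ) (hδ : 0 ≤ δ) {t : ℝ} (ht : t ∈ Icc (0:ℝ) 1) :
    c t ≤ 1 + B3 γ := by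
  have hB := B3_pos (γ := γ)
  have h1 : ∀ τ ∈ Icc (0:ℝ) t, cv τ ≤ B3 γ := by
    intro τ hτ
    have := upper_bd h.hcv (m := B3 γ) hτ.1 (fun _ _ => F3_le hγ hδ _)
    rw [h.cv0] at this
    have h2 : τ ≤ 1 := hτ.2.trans ht.2
    nlinarith
  have := upper_bd h.hc (m := B3 γ) ht.1 h1
  rw [h.c0] at this
  have h2 : t ≤ 1 := ht.2
  nlinarith

lemma Sys.zt_eq (h : Sys γ δ s z w c zv wv cv) {t : ℝ} (ht : 0 ≤ t) : zt (z t, w t, c t) = z t :=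
  max_eq_left (h.one_le_z ht)

lemma Sys.ct_eq (h : Sys γ δ s z w c zv wv cv) {t : ℝ} (ht : 0 ≤ t) : ct (z t, w t, c t) = c t :=
  max_eq_left (h.one_le_c ht)

lemma Sys.force_ge (h : Sys γ δ s z w c zv wv cv) (hγ : 1 < γ) (hδ : 0 ≤ δ) {t : ℝ}
    (ht : t ∈ Icc (0:ℝ) 1) : q0 γ δ ≤ F1 γ δ (z t, w t, c t) :=
  F1_ge hγ hδ ((h.zt_eq ht.1).trans_le (h.z_le hγ hδ ht)) ((h.ct_eq ht.1).trans_le (h.c_le hγ hδ ht))

lemma Sys.zv_ge_of_le (h : Sys γ δ s z w c zv wv cv) (hγ : 1 < γ) (hδ : 0 ≤ δ) {t : ℝ}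
    (ht : t ∈ Icc (0:ℝ) 1) : q0 γ δ * t ≤ zv t := by
  have := lower_bd h.hzv (m := q0 γ δ) ht.1 (fun τ hτ => h.force_ge hγ hδ ⟨hτ.1, hτ.2.trans ht.2⟩)
  rw [h.zv0] at this
  linarith

lemma Sys.zv_ge_of_ge (h : Sys γ δ s z w c zv wv cv) (hγ : 1 < γ) (hδ : 0 ≤ δ) {t : ℝ}
    (ht : 1 ≤ t) : q0 γ δ ≤ zv t := by
  have h1 := h.zv_ge_of_le hγ hδ (t := 1) ⟨by norm_num, le_refl _⟩
  have := lower_bd h.hzv (m := 0) ht (fun _ _ => (F1_pos _).le)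
  linarith

lemma Sys.z_ge (h : Sys γ δ s z w c zv wv cv) (hγ : 1 < γ) (hδ : 0 ≤ δ) {t : ℝ}
    (ht : 1 ≤ t) : 1 + q0 γ δ / 2 * t ≤ z t := by
  -- on [0,1] compare with the parabola
  have h1 : 1 + q0 γ δ / 2 ≤ z 1 := by
    have := lower_bd (f := fun t => z t - q0 γ δ / 2 * t ^ 2) (f' := fun t => zv t - q0 γ δ * t)
      (fun t => by
        have := (h.hz t).sub ((hasDerivAt_pow 2 t).const_mul (q0 γ δ / 2))
        refine this.congr_deriv ?_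
        push_cast
        ring) (a := 0) (b := 1) (m := 0) (by norm_num) (fun t ht => by
        have := h.zv_ge_of_le hγ hδ ht
        linarith)
    simp only [h.z0] at this
    linarith
  have h2 := lower_bd h.hz (m := q0 γ δ) ht (fun τ hτ => h.zv_ge_of_ge hγ hδ hτ.1)
  have hq := q0_pos (γ := γ) (δ := δ)
  nlinarith

lemma Sys.zzv_ge (h : Sys γ δ s z w c zv wv cv) (hγ : 1 < γ) (hδ : 0 ≤ δ) {t : ℝ}
    (ht : 0 ≤ t) : q0 γ δ ^ 2 / 2 * t ≤ z t * zv t := by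
  have hq := q0_pos (γ := γ) (δ := δ)
  have hq1 := q0_le_one (γ := γ) (δ := δ) hγ hδ
  rcases le_total t 1 with h1 | h1
  · have a := h.zv_ge_of_le hγ hδ ⟨ht, h1⟩
    have b := h.one_le_z ht
    have c1 : q0 γ δ ^ 2 / 2 * t ≤ q0 γ δ * t := by
      apply mul_le_mul_of_nonneg_right _ ht
      nlinarith
    have c2 : 0 ≤ zv t := h.zv_nonneg ht
    nlinarith
  · have a := h.zv_ge_of_ge hγ hδ h1
    have b := h.z_ge hγ hδ h1
    have c1 : (1 + q0 γ δ / 2 * t) * q0 γ δ ≤ z t * zv t := by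
      apply mul_le_mul b a hq.le
      linarith [h.one_le_z ht]
    nlinarith

lemma Sys.wt_eq (h : Sys γ δ s z w c zv wv cv) {t : ℝ} (ht : 0 ≤ t) (hw : |w t| ≤ z t / 2) :
    wt (z t, w t, c t) = w t := by
  have h1 := h.zt_eq ht
  unfold wt
  rw [h1]
  have := abs_le.1 hw
  rw [min_eq_left this.2, max_eq_right this.1]

/-- the untruncated pressure factor -/
noncomputable def Phi (γ δ : ℝ) (z w c : ℝ) : ℝ := (z ^ 2 - w ^ 2) ^ (-γ) * c ^ (-δ)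

lemma Phi_id {γ δ z w c : ℝ} (hz : 1 ≤ z) (hw : |w| ≤ z / 2) :
    (1 - (w / z) ^ 2) ^ (-γ) * z ^ (1 - 2 * γ) * c ^ (-δ) = Phi γ δ z w c * z := by
  have hz0 : 0 < z := by linarith
  have hw2 : w ^ 2 ≤ (z / 2) ^ 2 := by rw [← sq_abs w]; gcongr
  have hP : 0 < z ^ 2 - w ^ 2 := by nlinarith
  unfold Phi
  have e : 1 - (w / z) ^ 2 = (z ^ 2 - w ^ 2) / z ^ 2 := by field_simp
  rw [e, Real.div_rpow hP.le (by positivity)]
  have e2 : (z ^ 2) ^ (-γ) = z ^ (-(2 * γ)) := by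
    rw [← Real.rpow_natCast z 2, ← Real.rpow_mul hz0.le]
    congr 1
    push_cast
    ring
  have e3 : z ^ (1 - 2 * γ) = z * z ^ (-(2 * γ)) := by
    rw [show (1 - 2 * γ) = 1 + (-(2 * γ)) by ring, Real.rpow_add hz0, Real.rpow_one]
  rw [e2, e3]
  have : z ^ (-(2 * γ)) ≠ 0 := (Real.rpow_pos_of_pos hz0 _).ne'
  field_simp

lemma Sys.F1_eq (h : Sys γ δ s z w c zv wv cv) {t : ℝ} (ht : 0 ≤ t) (hw : |w t| ≤ z t / 2) :
    F1 γ δ (z t, w t, c t) = Phi γ δ (z t) (w t) (c t) * z t := by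
  unfold F1 xt
  rw [h.wt_eq ht hw, h.zt_eq ht, h.ct_eq ht, Phi_id (h.one_le_z ht) hw]

lemma Sys.F2_eq (h : Sys γ δ s z w c zv wv cv) {t : ℝ} (ht : 0 ≤ t) (hw : |w t| ≤ z t / 2) :
    F2 γ δ (z t, w t, c t) = -(Phi γ δ (z t) (w t) (c t) * w t) := by
  unfold F2
  rw [h.F1_eq ht hw]
  unfold xt
  rw [h.wt_eq ht hw, h.zt_eq ht]
  have : z t ≠ 0 := by linarith [h.one_le_z ht]
  field_simp

lemma Sys.F3_eq (h : Sys γ δ s z w c zv wv cv) {t : ℝ} (ht : 0 ≤ t) (hw : |w t| ≤ z t / 2) :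
    F3 γ δ (z t, w t, c t) = Phi γ δ (z t) (w t) (c t) * (z t ^ 2 - w t ^ 2) / c t := by
  have hz1 := h.one_le_z ht
  have hc1 := h.one_le_c ht
  have hz0 : 0 < z t := by linarith
  have hc0 : 0 < c t := by linarith
  have hw2 : w t ^ 2 ≤ (z t / 2) ^ 2 := by rw [← sq_abs (w t)]; gcongr
  have hP : 0 < z t ^ 2 - w t ^ 2 := by nlinarith
  unfold F3 xt
  rw [h.wt_eq ht hw, h.zt_eq ht, h.ct_eq ht]
  have k := Phi_id (γ := γ) (δ := δ) (c := c t) hz1 hw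
  have hx : 0 < 1 - (w t / z t) ^ 2 := by
    have e : 1 - (w t / z t) ^ 2 = (z t ^ 2 - w t ^ 2) / z t ^ 2 := by field_simp
    rw [e]; positivity
  have e1 : (1 - (w t / z t) ^ 2) ^ (1 - γ) = (1 - (w t / z t) ^ 2) * (1 - (w t / z t) ^ 2) ^ (-γ) := by
    rw [show (1 - γ) = 1 + (-γ) by ring, Real.rpow_add hx, Real.rpow_one]
  have e2 : z t ^ (2 - 2 * γ) = z t * z t ^ (1 - 2 * γ) := by
    rw [show (2 - 2 * γ) = 1 + (1 - 2 * γ) by ring, Real.rpow_add hz0, Real.rpow_one]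
  have e3 : c t ^ (-δ - 1) = c t ^ (-δ) / c t := by
    rw [Real.rpow_sub hc0, Real.rpow_one]
  rw [e1, e2, e3]
  calc (1 - (w t / z t) ^ 2) * (1 - (w t / z t) ^ 2) ^ (-γ) * (z t * z t ^ (1 - 2 * γ)) * (c t ^ (-δ) / c t)
      = (1 - (w t / z t) ^ 2) * z t / c t *
        ((1 - (w t / z t) ^ 2) ^ (-γ) * z t ^ (1 - 2 * γ) * c t ^ (-δ)) := by ring
    _ = (1 - (w t / z t) ^ 2) * z t / c t * (Phi γ δ (z t) (w t) (c t) * z t) := by rw [k]
    _ = _ := by field_simp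

/-! ### the Wronskian -/

lemma Sys.wv_le_of (h : Sys γ δ s z w c zv wv cv) {T : ℝ} (hT : ∀ t ∈ Ioo 0 T, 0 < w t)
    {t : ℝ} (ht : t ∈ Icc 0 T) : wv t ≤ s := by
  have hnn : ∀ τ ∈ Icc 0 T, 0 ≤ w τ := by
    intro τ hτ
    rcases eq_or_lt_of_le hτ.1 with h0 | h0
    · rw [← h0, h.w0]
    · rcases eq_or_lt_of_le hτ.2 with h1 | h1
      · have hcl : τ ∈ closure (Ioo 0 T) := by
          rw [closure_Ioo (by rw [← h1]; exact h0.ne)]
          exact hτ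
        have hcont : Continuous w := continuous_iff_continuousAt.2 fun t => (h.hw t).continuousAt
        exact closure_minimal (fun x hx => (hT x hx).le) (isClosed_le continuous_const hcont) hcl
      · exact (hT τ ⟨h0, h1⟩).le
  have := upper_bd h.hwv (m := 0) ht.1 (fun τ hτ => by
    have hw := hnn τ ⟨hτ.1, hτ.2.trans ht.2⟩
    unfold F2
    have hx : 0 ≤ xt (z τ, w τ, c τ) := by
      unfold xt
      refine div_nonneg ?_ (zt_pos _).le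
      unfold wt
      have hz := zt_pos (z τ, w τ, c τ)
      exact le_max_of_le_right (le_min hw (by linarith))
    have := F1_pos (γ := γ) (δ := δ) (z τ, w τ, c τ)
    nlinarith [mul_nonneg this.le hx])
  rw [h.wv0] at this
  linarith

end Analysis

end Pool.Agent.R209
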